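import Mathlib

/-!
# Property (RD) (MP_fee02f_an): the interface

* `RGeo G`: an abstract group with a length function, a potential, coarse midpoints and covers of
  bounded multiplicity at all scales (`GL_n` over a local field, its coarsely midpoint closed
  subgroups, products, ...).
-/

set_option autoImplicit false

namespace RDG

/-- a group with a length function (`ℓ 1` need not be zero), a potential `Φ` (comparable to the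
square of the length), coarse midpoints, and covers of bounded multiplicity at all scales; all up
to bounded errors -/
structure RGeo (G : Type*) [Group G] where
  C : ℝ
  one_le : 1 ≤ C
  ℓ : G → ℝ
  nonneg : ∀ g, 0 ≤ ℓ g
  inv : ∀ g, ℓ g⁻¹ = ℓ g
  mul_le : ∀ g h, ℓ (g * h) ≤ ℓ g + ℓ h
  Φ : G → ℝ
  Φ_nonneg : ∀ g, 0 ≤ Φ g
  Φ_le : ∀ g, Φ g ≤ C * (1 + ℓ g) ^ 2
  le_Φ : ∀ g, ℓ g ≤ C * (1 + Real.sqrt (Φ g))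
  Φ_mul : ∀ k g, Φ (k * g) ≤ Φ g + C * (1 + ℓ k) ^ 2 * (1 + ℓ g)
  m : G → G
  mid : ∀ c x, 2 * Φ ((m c)⁻¹ * x) + ℓ c ^ 2 / C ≤ Φ x + Φ (c⁻¹ * x) + C * (1 + ℓ x + ℓ c)
  cover : ∀ r : ℝ, 1 ≤ r → ∃ 𝒰 : Set (Set G),
    (∀ U ∈ 𝒰, ∀ x ∈ U, ∀ y ∈ U, ℓ (x⁻¹ * y) ≤ C * r) ∧
    (∀ x, {U ∈ 𝒰 | x ∈ U}.Finite ∧ ({U ∈ 𝒰 | x ∈ U}.ncard : ℝ) ≤ C) ∧
    ∀ x y z, ℓ (x⁻¹ * y) ≤ r → ℓ (x⁻¹ * z) ≤ r → ℓ (y⁻¹ * z) ≤ r → ∃ U ∈ 𝒰, x ∈ U ∧ y ∈ U ∧ z ∈ U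

/-- the homomorphism `φ` is uniformly proper: the number of `γ` with `ℓ (b⁻¹ φ(γ) b) ≤ r` is bounded
independently of `b` -/
def UProper {Γ G : Type*} [Group Γ] [Group G] (M : RGeo G) (φ : Γ →* G) : Prop :=
  ∀ r : ℝ, ∃ N : ℕ, ∀ b : G, {γ : Γ | M.ℓ (b⁻¹ * φ γ * b) ≤ r}.Finite ∧
    {γ : Γ | M.ℓ (b⁻¹ * φ γ * b) ≤ r}.ncard ≤ N

end RDG
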