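import Mathlib
import Pool.Agent.Lib.MP_fee02f_an.GG.Defs

/-!
# Matrices over a field with an absolute value: definitions (MP_fee02f_an)
-/

set_option autoImplicit false

open scoped MatrixGroups

namespace RDG

variable {F : Type*} [Field F]

/-- the sum of the absolute values of the entries -/
noncomputable def se {m n : Type*} [Fintype m] [Fintype n] (v : AbsoluteValue F ℝ)
    (A : Matrix m n F) : ℝ := ∑ i, ∑ j, v (A i j)

/-- the sum of the absolute values of all minors of order `j` (rows and columns are given by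
arbitrary functions) -/
noncomputable def mu {n : ℕ} (v : AbsoluteValue F ℝ) (j : ℕ) (A : Matrix (Fin n) (Fin n) F) : ℝ :=
  ∑ I : Fin j → Fin n, ∑ J : Fin j → Fin n, v (A.submatrix I J).det

/-- unit lower triangular matrices with entries of absolute value at most one -/
structure IsLow {n : ℕ} (v : AbsoluteValue F ℝ) (L : Matrix (Fin n) (Fin n) F) : Prop where
  diag : ∀ i, L i i = 1
  zero : ∀ i j, i < j → L i j = 0
  le : ∀ i j, v (L i j) ≤ 1

/-- unit upper triangular matrices with entries of absolute value at most one -/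
structure IsUp {n : ℕ} (v : AbsoluteValue F ℝ) (U : Matrix (Fin n) (Fin n) F) : Prop where
  diag : ∀ i, U i i = 1
  zero : ∀ i j, j < i → U i j = 0
  le : ∀ i j, v (U i j) ≤ 1

/-- the projective length of an invertible matrix; it does not change if the matrix is multiplied by
a scalar -/
noncomputable def len {n : ℕ} (v : AbsoluteValue F ℝ) (A : GL (Fin n) F) : ℝ :=
  Real.log (se v A.1) + Real.log (se v (A⁻¹).1)

/-- logarithm of the minors of order `j`, normalised by the determinant -/
noncomputable def sh {n : ℕ} (v : AbsoluteValue F ℝ) (j : ℕ) (A : GL (Fin n) F) : ℝ :=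
  Real.log (mu v j A.1) - (j : ℝ) / n * Real.log (v A.1.det)

/-- the potential -/
noncomputable def Ph {n : ℕ} (v : AbsoluteValue F ℝ) (A : GL (Fin n) F) : ℝ :=
  ∑ j ∈ Finset.range n, sh v j A ^ 2

/-- THE length of an invertible matrix -/
noncomputable def ln {n : ℕ} (v : AbsoluteValue F ℝ) (A : GL (Fin n) F) : ℝ :=
  len v A + |Real.log (v A.1.det)|

/-- THE potential -/
noncomputable def Pt {n : ℕ} (v : AbsoluteValue F ℝ) (A : GL (Fin n) F) : ℝ :=
  Ph v A + Real.log (v A.1.det) ^ 2

/-- diagonal matrices -/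
noncomputable def dg {n : ℕ} (D : Fin n → Fˣ) : GL (Fin n) F where
  val := Matrix.diagonal fun i => ((D i : Fˣ) : F)
  inv := Matrix.diagonal fun i => (((D i)⁻¹ : Fˣ) : F)
  val_inv := by
    rw [Matrix.diagonal_mul_diagonal, ← Matrix.diagonal_one]
    congr 1
    funext i
    simp
  inv_val := by
    rw [Matrix.diagonal_mul_diagonal, ← Matrix.diagonal_one]
    congr 1
    funext i
    simp

theorem dg_val {n : ℕ} (D : Fin n → Fˣ) :
    (dg D).1 = Matrix.diagonal fun i => ((D i : Fˣ) : F) := rfl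

theorem dg_inv {n : ℕ} (D : Fin n → Fˣ) : (dg D)⁻¹ = dg fun i => (D i)⁻¹ := by
  apply Units.ext
  rfl

theorem dg_mul {n : ℕ} (D E : Fin n → Fˣ) : dg D * dg E = dg fun i => D i * E i := by
  apply Units.ext
  rw [Units.val_mul, dg_val, dg_val, dg_val, Matrix.diagonal_mul_diagonal]
  congr 1

/-- `π ^ m` on the diagonal -/
noncomputable def dpi {n : ℕ} (ϖ : Fˣ) (m : Fin n → ℤ) : GL (Fin n) F := dg fun i => ϖ ^ m i

/-- the permutation matrix `P` with `(P * A) i j = A (w i) j` -/
noncomputable def pm {n : ℕ} (w : Equiv.Perm (Fin n)) : GL (Fin n) F where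
  val := (1 : Matrix (Fin n) (Fin n) F).submatrix w id
  inv := (1 : Matrix (Fin n) (Fin n) F).submatrix (w⁻¹ : Equiv.Perm (Fin n)) id
  val_inv := by
    ext i j
    rw [Matrix.mul_apply, Finset.sum_eq_single (w i)]
    · simp [Matrix.one_apply]
    · intro k _ hk
      simp [Matrix.one_apply, Ne.symm hk]
    · simp
  inv_val := by
    ext i j
    rw [Matrix.mul_apply, Finset.sum_eq_single ((w⁻¹ : Equiv.Perm (Fin n)) i)]
    · simp [Matrix.one_apply]
    · intro k _ hk
      simp only [Matrix.submatrix_apply, id, Matrix.one_apply, Ne.symm hk, if_false, zero_mul]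
    · simp

/-- partial sums of the logarithms of diagonal entries in the order `w`, normalised -/
noncomputable def hh {n : ℕ} (v : AbsoluteValue F ℝ) (E : Fin n → Fˣ) (w : Equiv.Perm (Fin n))
    (j : ℕ) : ℝ :=
  (∑ i : Fin n, if (i : ℕ) < j then Real.log (v (E (w i) : F)) else 0)
    - (j : ℝ) / n * ∑ i, Real.log (v (E i : F))

/-- the absolute value is nontrivial and bounded sets are totally bounded -/
def LocV (v : AbsoluteValue F ℝ) : Prop :=
  ∃ ϖ : Fˣ, 1 < v (ϖ : F) ∧ ∃ T : Finset F, ∀ x, v x ≤ v (ϖ : F) → ∃ t ∈ T, v (x - t) ≤ 1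

/-- `H` is coarsely midpoint closed -/
def CMid {n : ℕ} (v : AbsoluteValue F ℝ) (H : Subgroup (GL (Fin n) F)) : Prop :=
  ∃ C : ℝ, ∀ c ∈ H, ∃ (A B : GL (Fin n) F) (D E : Fin n → Fˣ), c = A * dg D * B ∧
    ln v A ≤ C ∧ ln v B ≤ C ∧
    (∀ i, |2 * Real.log (v (E i : F)) - Real.log (v (D i : F))| ≤ C) ∧
    ∃ h ∈ H, ln v (h⁻¹ * (A * dg E)) ≤ C

end RDG
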