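import Mathlib
import Pool.Agent.Lib.MP_fee02f_an.GG.G00

/-!
# G01: sums of absolute values of entries and minors

`se (K A) ≤ se K * se A` by expanding and exchanging sums. `mu (K A) ≤ se K ^ j * mu A`: the rows of
`(K A)(I, J)` are `∑ k, K (I i) k • A(k, J)`; by multilinearity of the determinant in the rows
(`Matrix.detRowAlternating` / `MultilinearMap.map_sum`),
`det ((K A)(I,J)) = ∑ over k : Fin j → Fin n of (∏ i, K (I i) (k i)) * det (A(k, J))`; sum over `I`:
`∑ I, ∏ i, v (K (I i) (k i)) = ∏ i, ∑ a, v (K a (k i)) ≤ se K ^ j` (`Finset.prod_univ_sum`).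
`mu_mul_right` by transposition. `det_le`: `det A = ∑ σ sign * ∏ A (σ i) i`, `∑ σ ∏ ≤ ∑ over all
functions = ∏ i ∑ a v (A a i) ≤ se A ^ n`. `mu_pos`: otherwise all minors of order `j` vanish, hence
(Laplace / `j` rows of an invertible matrix are independent) `det A = 0`; or apply `mu_mul_left` with
`K = A⁻¹`: `mu v j 1 ≤ se A⁻¹ ^ j * mu v j A` and `mu v j 1 ≥ 1` (I = J = castLE).
-/

set_option autoImplicit false

namespace RDG

variable {F : Type*} [Field F]

theorem se_nonneg {m n : Type*} [Fintype m] [Fintype n] (v : AbsoluteValue F ℝ) (A : Matrix m n F) :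
    0 ≤ se v A := by
  unfold se
  exact Finset.sum_nonneg fun i _ => Finset.sum_nonneg fun j _ => v.nonneg _

theorem le_se {m n : Type*} [Fintype m] [Fintype n] (v : AbsoluteValue F ℝ) (A : Matrix m n F)
    (i : m) (j : n) : v (A i j) ≤ se v A := by
  unfold se
  calc v (A i j) ≤ ∑ j, v (A i j) :=
        Finset.single_le_sum (f := fun j => v (A i j)) (fun _ _ => v.nonneg _) (Finset.mem_univ j)
    _ ≤ ∑ i, ∑ j, v (A i j) :=
        Finset.single_le_sum (f := fun i => ∑ j, v (A i j))
          (fun _ _ => Finset.sum_nonneg fun _ _ => v.nonneg _) (Finset.mem_univ i)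

theorem se_mul_le {n : ℕ} (v : AbsoluteValue F ℝ) (A B : Matrix (Fin n) (Fin n) F) :
    se v (A * B) ≤ se v A * se v B := by
  have hrow : ∀ k, ∑ j, v (B k j) ≤ se v B := fun k =>
    Finset.single_le_sum (f := fun i => ∑ j, v (B i j))
      (fun _ _ => Finset.sum_nonneg fun _ _ => v.nonneg _) (Finset.mem_univ k)
  calc se v (A * B) = ∑ i, ∑ j, v (∑ k, A i k * B k j) := rfl
    _ ≤ ∑ i, ∑ j, ∑ k, v (A i k) * v (B k j) := by
        refine Finset.sum_le_sum fun i _ => Finset.sum_le_sum fun j _ => ?_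
        refine (v.sum_le _ _).trans (le_of_eq ?_)
        exact Finset.sum_congr rfl fun k _ => v.map_mul _ _
    _ = ∑ i, ∑ k, v (A i k) * ∑ j, v (B k j) := by
        refine Finset.sum_congr rfl fun i _ => ?_
        rw [Finset.sum_comm]
        exact Finset.sum_congr rfl fun k _ => (Finset.mul_sum _ _ _).symm
    _ ≤ ∑ i, ∑ k, v (A i k) * se v B := by
        refine Finset.sum_le_sum fun i _ => Finset.sum_le_sum fun k _ => ?_
        exact mul_le_mul_of_nonneg_left (hrow k) (v.nonneg _)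
    _ = se v A * se v B := by
        unfold se
        rw [Finset.sum_mul]
        exact Finset.sum_congr rfl fun i _ => (Finset.sum_mul _ _ _).symm

theorem se_add_le {n : ℕ} (v : AbsoluteValue F ℝ) (A B : Matrix (Fin n) (Fin n) F) :
    se v (A + B) ≤ se v A + se v B := by
  unfold se
  rw [← Finset.sum_add_distrib]
  refine Finset.sum_le_sum fun i _ => ?_
  rw [← Finset.sum_add_distrib]
  exact Finset.sum_le_sum fun j _ => v.add_le _ _

theorem se_one {n : ℕ} (v : AbsoluteValue F ℝ) : se v (1 : Matrix (Fin n) (Fin n) F) = n := by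
  unfold se
  have h : ∀ i : Fin n, ∑ j, v ((1 : Matrix (Fin n) (Fin n) F) i j) = 1 := by
    intro i
    rw [Finset.sum_eq_single i]
    · rw [Matrix.one_apply_eq, v.map_one]
    · intro b _ hb
      rw [Matrix.one_apply_ne (Ne.symm hb), v.map_zero]
    · intro h
      exact absurd (Finset.mem_univ i) h
  rw [Finset.sum_congr rfl fun i _ => h i]
  simp

theorem se_transpose {n : ℕ} (v : AbsoluteValue F ℝ) (A : Matrix (Fin n) (Fin n) F) :
    se v A.transpose = se v A := by
  unfold se
  rw [Finset.sum_comm]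
  rfl

theorem se_pos {n : ℕ} (hn : 1 ≤ n) (v : AbsoluteValue F ℝ) (A : GL (Fin n) F) :
    0 < se v A.1 := by
  by_contra h
  have h0 : se v A.1 = 0 := le_antisymm (not_lt.1 h) (se_nonneg v A.1)
  have h1 : A.1 = 0 := by
    ext i j
    have h2 := le_se v A.1 i j
    rw [h0] at h2
    exact v.eq_zero.1 (le_antisymm h2 (v.nonneg _))
  have h3 : A.1 * (A⁻¹).1 = 1 := A.mul_inv
  rw [h1, zero_mul] at h3
  have h4 := congrFun (congrFun h3 ⟨0, hn⟩) ⟨0, hn⟩
  rw [Matrix.one_apply_eq, Matrix.zero_apply] at h4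
  exact zero_ne_one h4

theorem mu_nonneg {n : ℕ} (v : AbsoluteValue F ℝ) (j : ℕ) (A : Matrix (Fin n) (Fin n) F) :
    0 ≤ mu v j A := by
  unfold mu
  exact Finset.sum_nonneg fun i _ => Finset.sum_nonneg fun j _ => v.nonneg _

theorem le_mu {n : ℕ} (v : AbsoluteValue F ℝ) (j : ℕ) (A : Matrix (Fin n) (Fin n) F)
    (I J : Fin j → Fin n) : v (A.submatrix I J).det ≤ mu v j A := by
  unfold mu
  calc v (A.submatrix I J).det ≤ ∑ J : Fin j → Fin n, v (A.submatrix I J).det :=
        Finset.single_le_sum (f := fun J => v (A.submatrix I J).det)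
          (fun _ _ => v.nonneg _) (Finset.mem_univ J)
    _ ≤ ∑ I : Fin j → Fin n, ∑ J : Fin j → Fin n, v (A.submatrix I J).det :=
        Finset.single_le_sum (f := fun I => ∑ J : Fin j → Fin n, v (A.submatrix I J).det)
          (fun _ _ => Finset.sum_nonneg fun _ _ => v.nonneg _) (Finset.mem_univ I)

theorem mu_transpose {n : ℕ} (v : AbsoluteValue F ℝ) (j : ℕ) (A : Matrix (Fin n) (Fin n) F) :
    mu v j A.transpose = mu v j A := by
  unfold mu
  rw [Finset.sum_comm]
  refine Finset.sum_congr rfl fun I _ => Finset.sum_congr rfl fun J _ => ?_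
  rw [← Matrix.det_transpose]
  rfl

theorem G01_expand {n j : ℕ} (K A : Matrix (Fin n) (Fin n) F) (I J : Fin j → Fin n) :
    ((K * A).submatrix I J).det =
      ∑ r : Fin j → Fin n, (∏ i, K (I i) (r i)) * (A.submatrix r J).det := by
  have h1 : ((K * A).submatrix I J) =
      fun i => ∑ k : Fin n, (K (I i) k • fun l => A k (J l) : Fin j → F) := by
    ext i l
    rw [Matrix.submatrix_apply, Matrix.mul_apply, Finset.sum_apply]
    rfl
  rw [h1]
  have h2 := (Matrix.detRowAlternating (R := F) (n := Fin j)).toMultilinearMap.map_sum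
    (fun i (k : Fin n) => (K (I i) k • fun l => A k (J l) : Fin j → F))
  refine h2.trans (Finset.sum_congr rfl fun r _ => ?_)
  have h3 := (Matrix.detRowAlternating (R := F) (n := Fin j)).toMultilinearMap.map_smul_univ
    (fun i => K (I i) (r i)) (fun i l => A (r i) (J l))
  refine h3.trans ?_
  rfl

theorem mu_mul_left {n : ℕ} (v : AbsoluteValue F ℝ) (j : ℕ) (K A : Matrix (Fin n) (Fin n) F) :
    mu v j (K * A) ≤ se v K ^ j * mu v j A := by
  have hrow : ∀ k : Fin n, ∑ a, v (K a k) ≤ se v K := by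
    intro k
    unfold se
    rw [Finset.sum_comm]
    exact Finset.single_le_sum (f := fun j => ∑ i, v (K i j))
      (fun _ _ => Finset.sum_nonneg fun _ _ => v.nonneg _) (Finset.mem_univ k)
  have hterm : ∀ I J : Fin j → Fin n, v ((K * A).submatrix I J).det ≤
      ∑ r : Fin j → Fin n, (∏ i, v (K (I i) (r i))) * v (A.submatrix r J).det := by
    intro I J
    rw [G01_expand]
    refine (v.sum_le _ _).trans (le_of_eq ?_)
    refine Finset.sum_congr rfl fun r _ => ?_
    rw [v.map_mul, map_prod]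
  calc mu v j (K * A) ≤ ∑ I : Fin j → Fin n, ∑ J : Fin j → Fin n, ∑ r : Fin j → Fin n,
          (∏ i, v (K (I i) (r i))) * v (A.submatrix r J).det :=
        Finset.sum_le_sum fun I _ => Finset.sum_le_sum fun J _ => hterm I J
    _ = ∑ r : Fin j → Fin n, (∑ I : Fin j → Fin n, ∏ i, v (K (I i) (r i))) *
          ∑ J : Fin j → Fin n, v (A.submatrix r J).det := by
        have e1 : ∀ I : Fin j → Fin n, ∑ J : Fin j → Fin n, ∑ r : Fin j → Fin n,
            (∏ i, v (K (I i) (r i))) * v (A.submatrix r J).det =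
            ∑ r : Fin j → Fin n, (∏ i, v (K (I i) (r i))) *
              ∑ J : Fin j → Fin n, v (A.submatrix r J).det := by
          intro I
          rw [Finset.sum_comm]
          exact Finset.sum_congr rfl fun r _ => (Finset.mul_sum _ _ _).symm
        rw [Finset.sum_congr rfl fun I _ => e1 I, Finset.sum_comm]
        exact Finset.sum_congr rfl fun r _ => (Finset.sum_mul _ _ _).symm
    _ ≤ ∑ r : Fin j → Fin n, se v K ^ j * ∑ J : Fin j → Fin n, v (A.submatrix r J).det := by
        refine Finset.sum_le_sum fun r _ => ?_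
        refine mul_le_mul_of_nonneg_right ?_ (Finset.sum_nonneg fun _ _ => v.nonneg _)
        have e2 : ∑ I : Fin j → Fin n, ∏ i, v (K (I i) (r i)) = ∏ i : Fin j, ∑ a, v (K a (r i)) := by
          rw [Finset.prod_univ_sum, Fintype.piFinset_univ]
        rw [e2]
        calc ∏ i : Fin j, ∑ a, v (K a (r i)) ≤ ∏ _i : Fin j, se v K :=
              Finset.prod_le_prod (fun i _ => Finset.sum_nonneg fun _ _ => v.nonneg _)
                (fun i _ => hrow (r i))
          _ = se v K ^ j := by rw [Finset.prod_const, Finset.card_univ, Fintype.card_fin]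
    _ = se v K ^ j * mu v j A := by
        unfold mu
        rw [Finset.mul_sum]

theorem mu_mul_right {n : ℕ} (v : AbsoluteValue F ℝ) (j : ℕ) (A K : Matrix (Fin n) (Fin n) F) :
    mu v j (A * K) ≤ se v K ^ j * mu v j A := by
  have h := mu_mul_left v j K.transpose A.transpose
  rw [← Matrix.transpose_mul, mu_transpose, mu_transpose, se_transpose] at h
  exact h

theorem mu_zero {n : ℕ} (v : AbsoluteValue F ℝ) (A : Matrix (Fin n) (Fin n) F) :
    mu v 0 A = 1 := by
  unfold mu
  rw [Fintype.sum_unique, Fintype.sum_unique, Matrix.det_isEmpty, v.map_one]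

theorem mu_one {n : ℕ} (v : AbsoluteValue F ℝ) (A : Matrix (Fin n) (Fin n) F) :
    mu v 1 A = se v A := by
  unfold mu se
  rw [← Equiv.sum_comp (Equiv.funUnique (Fin 1) (Fin n)).symm]
  refine Finset.sum_congr rfl fun a _ => ?_
  rw [← Equiv.sum_comp (Equiv.funUnique (Fin 1) (Fin n)).symm]
  refine Finset.sum_congr rfl fun b _ => ?_
  rw [Matrix.det_unique]
  rfl

theorem mu_pos {n : ℕ} (v : AbsoluteValue F ℝ) {j : ℕ} (hj : j ≤ n) (A : GL (Fin n) F) :
    0 < mu v j A.1 := by
  have h1 := mu_mul_left v j (A⁻¹).1 A.1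
  have h2 : (A⁻¹).1 * A.1 = 1 := A.inv_mul
  rw [h2] at h1
  have h3 := le_mu v j (1 : Matrix (Fin n) (Fin n) F) (Fin.castLE hj) (Fin.castLE hj)
  have h4 : ((1 : Matrix (Fin n) (Fin n) F).submatrix (Fin.castLE hj) (Fin.castLE hj)) = 1 :=
    Matrix.submatrix_one _ (Fin.castLE_injective hj)
  rw [h4, Matrix.det_one, v.map_one] at h3
  by_contra h
  have h0 : mu v j A.1 = 0 := le_antisymm (not_lt.1 h) (mu_nonneg v j A.1)
  rw [h0, mul_zero] at h1
  linarith

theorem det_le {n : ℕ} (v : AbsoluteValue F ℝ) (A : Matrix (Fin n) (Fin n) F) :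
    v A.det ≤ se v A ^ n := by
  have hcol : ∀ k : Fin n, ∑ a, v (A a k) ≤ se v A := by
    intro k
    unfold se
    rw [Finset.sum_comm]
    exact Finset.single_le_sum (f := fun j => ∑ i, v (A i j))
      (fun _ _ => Finset.sum_nonneg fun _ _ => v.nonneg _) (Finset.mem_univ k)
  have hsg : ∀ σ : Equiv.Perm (Fin n), v (((Equiv.Perm.sign σ : ℤˣ) : ℤ) : F) = 1 := by
    intro σ
    rcases Int.units_eq_one_or (Equiv.Perm.sign σ) with h | h
    · rw [h]; simp
    · rw [h]; simp
  rw [Matrix.det_apply']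
  refine (v.sum_le _ _).trans ?_
  have e1 : ∀ σ : Equiv.Perm (Fin n), v ((((Equiv.Perm.sign σ : ℤˣ) : ℤ) : F) * ∏ i, A (σ i) i) =
      ∏ i, v (A ((σ : Fin n → Fin n) i) i) := by
    intro σ
    rw [v.map_mul, hsg, one_mul, map_prod]
  rw [Finset.sum_congr rfl fun σ _ => e1 σ]
  have e2 : ∑ σ : Equiv.Perm (Fin n), ∏ i, v (A ((σ : Fin n → Fin n) i) i) =
      ∑ f ∈ Finset.univ.image (fun σ : Equiv.Perm (Fin n) => (σ : Fin n → Fin n)),
        ∏ i, v (A (f i) i) := by
    rw [Finset.sum_image]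
    intro a _ b _ h
    exact Equiv.coe_fn_injective h
  rw [e2]
  calc ∑ f ∈ Finset.univ.image (fun σ : Equiv.Perm (Fin n) => (σ : Fin n → Fin n)),
        ∏ i, v (A (f i) i) ≤ ∑ f : Fin n → Fin n, ∏ i, v (A (f i) i) :=
        Finset.sum_le_sum_of_subset_of_nonneg (Finset.subset_univ _)
          (fun f _ _ => Finset.prod_nonneg fun i _ => v.nonneg _)
    _ = ∏ i : Fin n, ∑ a, v (A a i) := by
        rw [Finset.prod_univ_sum, Fintype.piFinset_univ]
    _ ≤ ∏ _i : Fin n, se v A :=
        Finset.prod_le_prod (fun i _ => Finset.sum_nonneg fun _ _ => v.nonneg _)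
          (fun i _ => hcol i)
    _ = se v A ^ n := by rw [Finset.prod_const, Finset.card_univ, Fintype.card_fin]

end RDG
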