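import Mathlib
import Pool.Agent.Lib.MP_fee02f_an.GG.G00

/-!
# G02: Gaussian elimination with complete pivoting

Induction on `n`, with the additional conclusion `v (D i) ≤ 2 ^ i * M` if all entries are at most `M`
and (monotonicity) `v (D j) ≤ 2 ^ n * v (D i)` for `i ≤ j`. For `n + 1`: let `a = A p q` be an entry of
largest absolute value (`a ≠ 0`), `A' = A.submatrix (swap 0 p) (swap 0 q)`; Schur complement
`S i j = A' i+1 j+1 - A' i+1 0 * A' 0 j+1 / a` has entries `≤ 2 v a`, and a nonzero determinant,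
apply the induction hypothesis to `S` and put
`D 0 = a`, `L = [1, 0; l, L_S]` with `l i = A' (w_S i)+1 0 / a`, `U = [1, u; 0, U_S]`.
The entries of `l`, `u` are at most one in absolute value.
-/

set_option autoImplicit false

namespace RDG

variable {F : Type*} [Field F]

set_option linter.unusedSectionVars false

/-- block matrices of order `n + 1` -/
def G02_blk {n : ℕ} (a : F) (r c : Fin n → F) (S : Matrix (Fin n) (Fin n) F) :
    Matrix (Fin (n + 1)) (Fin (n + 1)) F :=
  Matrix.of fun i j => Fin.cases (Fin.cases a r j) (fun i' => Fin.cases (c i') (S i') j) i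

@[simp] theorem G02_blk_zz {n : ℕ} (a : F) (r c : Fin n → F) (S : Matrix (Fin n) (Fin n) F) :
    G02_blk a r c S 0 0 = a := rfl

@[simp] theorem G02_blk_zs {n : ℕ} (a : F) (r c : Fin n → F) (S : Matrix (Fin n) (Fin n) F)
    (j : Fin n) : G02_blk a r c S 0 j.succ = r j := rfl

@[simp] theorem G02_blk_sz {n : ℕ} (a : F) (r c : Fin n → F) (S : Matrix (Fin n) (Fin n) F)
    (i : Fin n) : G02_blk a r c S i.succ 0 = c i := rfl

@[simp] theorem G02_blk_ss {n : ℕ} (a : F) (r c : Fin n → F) (S : Matrix (Fin n) (Fin n) F)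
    (i j : Fin n) : G02_blk a r c S i.succ j.succ = S i j := rfl

/-- product of a block lower and a block upper triangular matrix -/
theorem G02_blk_mul {n : ℕ} (a : F) (r c : Fin n → F) (L B : Matrix (Fin n) (Fin n) F) :
    G02_blk 1 0 c L * G02_blk a r 0 B =
      G02_blk a r (fun i => c i * a) (fun i j => c i * r j + (L * B) i j) := by
  ext i j
  rw [Matrix.mul_apply, Fin.sum_univ_succ]
  refine Fin.cases ?_ (fun i' => ?_) i <;> refine Fin.cases ?_ (fun j' => ?_) j
  · simp
  · simp
  · simp
  · simp [Matrix.mul_apply]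

theorem G02_blk_diag {n : ℕ} (a : F) (u : Fin n → F) (d : Fin n → F)
    (U : Matrix (Fin n) (Fin n) F) :
    Matrix.diagonal (Fin.cons a d : Fin (n + 1) → F) * G02_blk 1 u 0 U =
      G02_blk a (fun j => a * u j) 0 (Matrix.diagonal d * U) := by
  ext i j
  rw [Matrix.diagonal_mul]
  refine Fin.cases ?_ (fun i' => ?_) i <;> refine Fin.cases ?_ (fun j' => ?_) j
  · simp
  · simp
  · simp
  · simp [Matrix.diagonal_mul]

theorem G02_low {n : ℕ} (v : AbsoluteValue F ℝ) (l : Fin n → F) (hl : ∀ i, v (l i) ≤ 1)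
    (L : Matrix (Fin n) (Fin n) F) (hL : IsLow v L) : IsLow v (G02_blk 1 0 l L) where
  diag i := by
    refine Fin.cases ?_ (fun i' => ?_) i
    · rfl
    · simpa using hL.diag i'
  zero i j := by
    refine Fin.cases ?_ (fun i' => ?_) i <;> refine Fin.cases ?_ (fun j' => ?_) j
    · intro h; exact absurd h (lt_irrefl _)
    · intro _; simp
    · intro h; exact absurd h (Fin.not_lt_zero _)
    · intro h; simpa using hL.zero i' j' (Fin.succ_lt_succ_iff.1 h)
  le i j := by
    refine Fin.cases ?_ (fun i' => ?_) i <;> refine Fin.cases ?_ (fun j' => ?_) j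
    · simp
    · simp
    · simpa using hl i'
    · simpa using hL.le i' j'

theorem G02_up {n : ℕ} (v : AbsoluteValue F ℝ) (l : Fin n → F) (hl : ∀ i, v (l i) ≤ 1)
    (L : Matrix (Fin n) (Fin n) F) (hL : IsUp v L) : IsUp v (G02_blk 1 l 0 L) where
  diag i := by
    refine Fin.cases ?_ (fun i' => ?_) i
    · rfl
    · simpa using hL.diag i'
  zero i j := by
    refine Fin.cases ?_ (fun i' => ?_) i <;> refine Fin.cases ?_ (fun j' => ?_) j
    · intro h; exact absurd h (lt_irrefl _)
    · intro h; exact absurd h (Fin.not_lt_zero _)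
    · intro _; simp
    · intro h; simpa using hL.zero i' j' (Fin.succ_lt_succ_iff.1 h)
  le i j := by
    refine Fin.cases ?_ (fun i' => ?_) i <;> refine Fin.cases ?_ (fun j' => ?_) j
    · simp
    · simpa using hl j'
    · simp
    · simpa using hL.le i' j'

/-- the Schur complement of an invertible matrix is invertible -/
theorem G02_schur {n : ℕ} (a : F) (ha : a ≠ 0) (r c : Fin n → F) (M : Matrix (Fin n) (Fin n) F)
    (h : (G02_blk a r c M).det ≠ 0) :
    (Matrix.of fun i j => M i j - c i * r j / a : Matrix (Fin n) (Fin n) F).det ≠ 0 := by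
  intro h0
  obtain ⟨x, hx, hx0⟩ := Matrix.exists_mulVec_eq_zero_iff.2 h0
  apply h
  apply Matrix.exists_mulVec_eq_zero_iff.1
  refine ⟨Fin.cons (-(∑ j, r j * x j) / a) x, ?_, ?_⟩
  · intro h1
    apply hx
    funext i
    have := congrFun h1 i.succ
    simpa using this
  · funext i
    rw [Matrix.mulVec, dotProduct, Fin.sum_univ_succ]
    refine Fin.cases ?_ (fun i' => ?_) i
    · simp only [G02_blk_zz, G02_blk_zs, Fin.cons_zero, Fin.cons_succ, Pi.zero_apply]
      field_simp
      ring
    · simp only [G02_blk_sz, G02_blk_ss, Fin.cons_zero, Fin.cons_succ, Pi.zero_apply]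
      have h2 := congrFun hx0 i'
      rw [Matrix.mulVec, dotProduct] at h2
      simp only [Matrix.of_apply, Pi.zero_apply] at h2
      rw [← h2]
      have h3 : ∀ j, (M i' j - c i' * r j / a) * x j = M i' j * x j - c i' / a * (r j * x j) := by
        intro j; ring
      rw [Finset.sum_congr rfl fun j _ => h3 j, Finset.sum_sub_distrib, ← Finset.mul_sum]
      ring

/-- splitting off the first row and column after a permutation of the rows and columns -/
theorem G02_perm {n : ℕ} (A : Matrix (Fin (n + 1)) (Fin (n + 1)) F) (p q : Fin (n + 1))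
    (w w' : Equiv.Perm (Fin n)) :
    A.submatrix (Equiv.Perm.decomposeFin.symm (p, w)) (Equiv.Perm.decomposeFin.symm (q, w')) =
      G02_blk (A p q) (fun j => A p (Equiv.swap 0 q (w' j).succ))
        (fun i => A (Equiv.swap 0 p (w i).succ) q)
        (fun i j => A (Equiv.swap 0 p (w i).succ) (Equiv.swap 0 q (w' j).succ)) := by
  ext i j
  refine Fin.cases ?_ (fun i' => ?_) i <;> refine Fin.cases ?_ (fun j' => ?_) j
  · simp
  · simp
  · simp
  · simp

theorem G02_det {n : ℕ} (A : Matrix (Fin n) (Fin n) F) (hA : A.det ≠ 0)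
    (w w' : Equiv.Perm (Fin n)) : (A.submatrix w w').det ≠ 0 := by
  have h : IsUnit A := (Matrix.isUnit_iff_isUnit_det A).2 (isUnit_iff_ne_zero.2 hA)
  have h2 : IsUnit (A.submatrix w w') := (Matrix.isUnit_submatrix_equiv w w').2 h
  exact isUnit_iff_ne_zero.1 ((Matrix.isUnit_iff_isUnit_det _).1 h2)

theorem G02_pivot_aux {n : ℕ} (v : AbsoluteValue F ℝ) (A : Matrix (Fin n) (Fin n) F)
    (hA : A.det ≠ 0) (M : ℝ) (hM : ∀ i j, v (A i j) ≤ M) :
    ∃ (w w' : Equiv.Perm (Fin n)) (L U : Matrix (Fin n) (Fin n) F) (D : Fin n → Fˣ),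
      IsLow v L ∧ IsUp v U ∧ (∀ i j, i ≤ j → v (D j : F) ≤ 2 ^ n * v (D i : F)) ∧
      (∀ i, v (D i : F) ≤ 2 ^ (i : ℕ) * M) ∧
      A.submatrix w w' = L * Matrix.diagonal (fun i => (D i : F)) * U := by
  induction n generalizing M with
  | zero =>
    refine ⟨1, 1, 1, 1, fun i => 1, ⟨fun i => i.elim0, fun i => i.elim0, fun i => i.elim0⟩,
      ⟨fun i => i.elim0, fun i => i.elim0, fun i => i.elim0⟩, fun i => i.elim0, fun i => i.elim0, ?_⟩
    ext i
    exact i.elim0
  | succ n ih =>
    obtain ⟨⟨p, q⟩, hpq⟩ := Finite.exists_max fun x : Fin (n + 1) × Fin (n + 1) => v (A x.1 x.2)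
    have hmax : ∀ i j, v (A i j) ≤ v (A p q) := fun i j => hpq (i, j)
    have ha : A p q ≠ 0 := by
      intro h0
      apply hA
      have : A = 0 := by
        ext i j
        have h1 := hmax i j
        rw [h0, map_zero] at h1
        exact (v.eq_zero).1 (le_antisymm h1 (v.nonneg _))
      rw [this]
      exact Matrix.det_zero
    have hva : 0 < v (A p q) := v.pos ha
    have hB := G02_perm A p q 1 1
    have hdet := G02_det A hA (Equiv.Perm.decomposeFin.symm (p, 1))
      (Equiv.Perm.decomposeFin.symm (q, 1))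
    rw [hB] at hdet
    have hS := G02_schur _ ha _ _ _ hdet
    obtain ⟨w, w', L, U, D, hL, hU, hD, hDM, hf⟩ := ih _ hS (2 * v (A p q)) (by
      intro i j
      rw [Matrix.of_apply]
      refine (v.sub_le_add _ _).trans ?_
      have h1 := hmax (Equiv.swap 0 p ((1 : Equiv.Perm (Fin n)) i).succ)
        (Equiv.swap 0 q ((1 : Equiv.Perm (Fin n)) j).succ)
      have h2 : v (A (Equiv.swap 0 p ((1 : Equiv.Perm (Fin n)) i).succ) q *
          A p (Equiv.swap 0 q ((1 : Equiv.Perm (Fin n)) j).succ) / A p q) ≤ v (A p q) := by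
        rw [map_div₀, map_mul, div_le_iff₀ hva]
        exact mul_le_mul (hmax _ _) (hmax _ _) (v.nonneg _) hva.le
      linarith)
    have hl : ∀ i, v (A (Equiv.swap 0 p (w i).succ) q / A p q) ≤ 1 := by
      intro i
      rw [map_div₀, div_le_one hva]
      exact hmax _ _
    have hu : ∀ j, v (A p (Equiv.swap 0 q (w' j).succ) / A p q) ≤ 1 := by
      intro i
      rw [map_div₀, div_le_one hva]
      exact hmax _ _
    refine ⟨Equiv.Perm.decomposeFin.symm (p, w), Equiv.Perm.decomposeFin.symm (q, w'),
      G02_blk 1 0 (fun i => A (Equiv.swap 0 p (w i).succ) q / A p q) L,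
      G02_blk 1 (fun j => A p (Equiv.swap 0 q (w' j).succ) / A p q) 0 U,
      Fin.cons (Units.mk0 _ ha) D, G02_low v _ hl L hL, G02_up v _ hu U hU, ?_, ?_, ?_⟩
    · intro i j
      refine Fin.cases ?_ (fun i' => ?_) i <;> refine Fin.cases ?_ (fun j' => ?_) j
      · intro _
        simp only [Fin.cons_zero, Units.val_mk0]
        have : (1 : ℝ) ≤ 2 ^ (n + 1) := one_le_pow₀ (by norm_num)
        nlinarith
      · intro _
        simp only [Fin.cons_zero, Fin.cons_succ, Units.val_mk0]
        refine (hDM j').trans ?_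
        have h3 : (2 : ℝ) ^ (j' : ℕ) ≤ 2 ^ n := pow_le_pow_right₀ (by norm_num) j'.2.le
        rw [pow_succ]
        nlinarith
      · intro h
        exact absurd h (by simp)
      · intro h
        simp only [Fin.cons_succ]
        refine (hD i' j' (Fin.succ_le_succ_iff.1 h)).trans ?_
        rw [pow_succ]
        have h4 : 0 ≤ (2 : ℝ) ^ n * v (D i' : F) := mul_nonneg (by positivity) (v.nonneg _)
        nlinarith
    · intro i
      refine Fin.cases ?_ (fun i' => ?_) i
      · simp only [Fin.cons_zero, Units.val_mk0, Fin.val_zero, pow_zero, one_mul]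
        exact hM p q
      · simp only [Fin.cons_succ, Fin.val_succ]
        refine (hDM i').trans ?_
        rw [pow_succ, mul_assoc]
        exact mul_le_mul_of_nonneg_left (by linarith [hM p q]) (by positivity)
    · have hdiag : (fun i => ((Fin.cons (Units.mk0 _ ha) D : Fin (n + 1) → Fˣ) i : F)) =
          (Fin.cons (A p q) (fun i => (D i : F)) : Fin (n + 1) → F) := by
        funext i
        refine Fin.cases ?_ (fun i' => ?_) i
        · simp
        · simp
      rw [hdiag, Matrix.mul_assoc, G02_blk_diag, G02_blk_mul, G02_perm, ← Matrix.mul_assoc, ← hf]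
      ext i j
      refine Fin.cases ?_ (fun i' => ?_) i <;> refine Fin.cases ?_ (fun j' => ?_) j
      · simp
      · simp only [G02_blk_zs]
        field_simp
      · simp only [G02_blk_sz]
        field_simp
      · simp only [G02_blk_ss, Matrix.submatrix_apply, Matrix.of_apply, Equiv.Perm.coe_one, id]
        field_simp
        ring

theorem pivot {n : ℕ} (v : AbsoluteValue F ℝ) (A : Matrix (Fin n) (Fin n) F) (hA : A.det ≠ 0) :
    ∃ (w w' : Equiv.Perm (Fin n)) (L U : Matrix (Fin n) (Fin n) F) (D : Fin n → Fˣ),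
      IsLow v L ∧ IsUp v U ∧ (∀ i j, i ≤ j → v (D j : F) ≤ 2 ^ n * v (D i : F)) ∧
      A.submatrix w w' = L * Matrix.diagonal (fun i => (D i : F)) * U := by
  obtain ⟨w, w', L, U, D, h1, h2, h3, -, h4⟩ := G02_pivot_aux v A hA (∑ i, ∑ j, v (A i j)) (by
    intro i j
    refine le_trans ?_ (Finset.single_le_sum (f := fun i => ∑ j, v (A i j))
      (fun i _ => Finset.sum_nonneg fun j _ => v.nonneg _) (Finset.mem_univ i))
    exact Finset.single_le_sum (f := fun j => v (A i j)) (fun j _ => v.nonneg _)
      (Finset.mem_univ j))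
  exact ⟨w, w', L, U, D, h1, h2, h3, h4⟩

/-- pivoting in the columns only -/
theorem partial_pivot {n : ℕ} (v : AbsoluteValue F ℝ) (A : Matrix (Fin n) (Fin n) F)
    (hA : A.det ≠ 0) :
    ∃ (w : Equiv.Perm (Fin n)) (L B : Matrix (Fin n) (Fin n) F), IsLow v L ∧
      (∀ i j, j < i → B i j = 0) ∧ A.submatrix w id = L * B := by
  induction n with
  | zero =>
    refine ⟨1, 1, 1, ⟨fun i => i.elim0, fun i => i.elim0, fun i => i.elim0⟩, fun i => i.elim0, ?_⟩
    ext i
    exact i.elim0
  | succ n ih =>
    obtain ⟨p, hp⟩ := Finite.exists_max fun x : Fin (n + 1) => v (A x 0)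
    have ha : A p 0 ≠ 0 := by
      intro h0
      apply hA
      apply Matrix.det_eq_zero_of_column_eq_zero 0
      intro i
      have h1 : v (A i 0) ≤ v (A p 0) := hp i
      rw [h0, map_zero] at h1
      exact (v.eq_zero).1 (le_antisymm h1 (v.nonneg _))
    have hva : 0 < v (A p 0) := v.pos ha
    have hB := G02_perm A p 0 1 1
    have hdet := G02_det A hA (Equiv.Perm.decomposeFin.symm (p, 1))
      (Equiv.Perm.decomposeFin.symm (0, 1))
    rw [hB] at hdet
    have hS := G02_schur _ ha _ _ _ hdet
    obtain ⟨w, L, B, hL, hB0, hf⟩ := ih _ hS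
    have hl : ∀ i, v (A (Equiv.swap 0 p (w i).succ) 0 / A p 0) ≤ 1 := by
      intro i
      rw [map_div₀, div_le_one hva]
      exact hp _
    refine ⟨Equiv.Perm.decomposeFin.symm (p, w),
      G02_blk 1 0 (fun i => A (Equiv.swap 0 p (w i).succ) 0 / A p 0) L,
      G02_blk (A p 0) (fun j => A p j.succ) 0 B, G02_low v _ hl L hL, ?_, ?_⟩
    · intro i j
      refine Fin.cases ?_ (fun i' => ?_) i <;> refine Fin.cases ?_ (fun j' => ?_) j
      · intro h; exact absurd h (lt_irrefl _)
      · intro h; exact absurd h (Fin.not_lt_zero _)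
      · intro _; simp
      · intro h; simpa using hB0 i' j' (Fin.succ_lt_succ_iff.1 h)
    · have hid : (id : Fin (n + 1) → Fin (n + 1)) =
          (Equiv.Perm.decomposeFin.symm ((0 : Fin (n + 1)), (1 : Equiv.Perm (Fin n))) :
            Equiv.Perm (Fin (n + 1))) := by
        funext j
        refine Fin.cases ?_ (fun j' => ?_) j
        · simp
        · simp
      rw [hid, G02_perm, G02_blk_mul, ← hf]
      ext i j
      refine Fin.cases ?_ (fun i' => ?_) i <;> refine Fin.cases ?_ (fun j' => ?_) j
      · simp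
      · simp
      · simp only [G02_blk_sz]
        field_simp
      · simp only [G02_blk_ss, Matrix.submatrix_apply, Matrix.of_apply, Equiv.Perm.coe_one, id,
          Equiv.swap_self, Equiv.refl_apply]
        field_simp
        ring

end RDG
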