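import Mathlib
import Pool.Agent.Lib.MP_fee02f_an.GG.G01

/-!
# G03: length of invertible matrices, bounded matrices

`len_nonneg`: `1 ≤ n = se 1 ≤ se A * se A⁻¹`. `low_gl`: `L = 1 + N`, `N` strictly lower triangular,
`N ^ n = 0` (`Matrix` nilpotent: entries of `N ^ k` vanish unless `k ≤ i - j`), so
`L⁻¹ = ∑ k < n, (-N) ^ k`, `se (L⁻¹) ≤ ∑ (se N) ^ k ≤ n * (n ^ 2 + 1) ^ n`; or: the inverse is the adjugate
(det = 1) whose entries are determinants of matrices with entries at most one (`det_le`).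
`up_gl` by transposition. `len_dg`: `se (dg D) = ∑ v (D i) ≤ n * max`.
-/

set_option autoImplicit false

open scoped MatrixGroups

namespace RDG

variable {F : Type*} [Field F]

/-- everything is zero in rank zero -/
theorem G03_se_zero (v : AbsoluteValue F ℝ) (A : Matrix (Fin 0) (Fin 0) F) : se v A = 0 := by
  unfold se
  simp

theorem G03_len_zero (v : AbsoluteValue F ℝ) (A : GL (Fin 0) F) : len v A = 0 := by
  unfold len
  rw [G03_se_zero, G03_se_zero, Real.log_zero, add_zero]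

theorem len_nonneg {n : ℕ} (v : AbsoluteValue F ℝ) (A : GL (Fin n) F) : 0 ≤ len v A := by
  rcases Nat.eq_zero_or_pos n with hn | hn
  · subst hn
    rw [G03_len_zero]
  · have h1 := se_pos hn v A
    have h2 := se_pos hn v A⁻¹
    unfold len
    rw [← Real.log_mul h1.ne' h2.ne']
    apply Real.log_nonneg
    have h3 := se_mul_le v A.1 (A⁻¹).1
    have h4 : A.1 * (A⁻¹).1 = 1 := by
      rw [← Units.val_mul, mul_inv_cancel, Units.val_one]
    rw [h4, se_one] at h3
    have h5 : (1 : ℝ) ≤ n := by exact_mod_cast hn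
    linarith

theorem len_inv {n : ℕ} (v : AbsoluteValue F ℝ) (A : GL (Fin n) F) : len v A⁻¹ = len v A := by
  unfold len
  rw [inv_inv, add_comm]

theorem len_mul_le {n : ℕ} (v : AbsoluteValue F ℝ) (A B : GL (Fin n) F) :
    len v (A * B) ≤ len v A + len v B := by
  rcases Nat.eq_zero_or_pos n with hn | hn
  · subst hn
    rw [G03_len_zero, G03_len_zero, G03_len_zero, add_zero]
  · have key : ∀ C D : GL (Fin n) F,
        Real.log (se v (C * D).1) ≤ Real.log (se v C.1) + Real.log (se v D.1) := by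
      intro C D
      rw [← Real.log_mul (se_pos hn v C).ne' (se_pos hn v D).ne']
      exact Real.log_le_log (se_pos hn v _) (se_mul_le v C.1 D.1)
    have h1 := key A B
    have h2 := key B⁻¹ A⁻¹
    unfold len
    rw [mul_inv_rev]
    linarith

theorem G03_se_smul {n : ℕ} (v : AbsoluteValue F ℝ) (c : F) (A : Matrix (Fin n) (Fin n) F) :
    se v (fun i j => c * A i j) = v c * se v A := by
  unfold se
  rw [Finset.mul_sum]
  refine Finset.sum_congr rfl fun i _ => ?_
  rw [Finset.mul_sum]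
  exact Finset.sum_congr rfl fun j _ => map_mul v c _

/-- multiplication by a scalar does not change the length -/
theorem len_scalar {n : ℕ} (v : AbsoluteValue F ℝ) (A : GL (Fin n) F) (c : Fˣ) :
    len v (A * dg fun _ => c) = len v A := by
  rcases Nat.eq_zero_or_pos n with hn | hn
  · subst hn
    rw [G03_len_zero, G03_len_zero]
  · have hc : v (c : F) ≠ 0 := v.ne_zero c.ne_zero
    have hc' : v ((c⁻¹ : Fˣ) : F) = (v (c : F))⁻¹ := by
      rw [Units.val_inv_eq_inv_val, map_inv₀]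
    have h1 : se v (A * dg fun _ => c).1 = v (c : F) * se v A.1 := by
      rw [← G03_se_smul]
      congr 1
      ext i j
      rw [Units.val_mul, dg_val, Matrix.mul_diagonal, mul_comm]
    have h2 : se v ((A * dg fun _ => c)⁻¹).1 = (v (c : F))⁻¹ * se v (A⁻¹).1 := by
      rw [← hc', ← G03_se_smul]
      congr 1
      ext i j
      rw [mul_inv_rev, dg_inv, Units.val_mul, dg_val, Matrix.diagonal_mul]
    unfold len
    rw [h1, h2, Real.log_mul hc (se_pos hn v A).ne',
      Real.log_mul (inv_ne_zero hc) (se_pos hn v A⁻¹).ne', Real.log_inv]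
    ring

/-- matrices of determinant one with entries of absolute value at most one -/
theorem G03_unit {n : ℕ} (v : AbsoluteValue F ℝ) (L : Matrix (Fin n) (Fin n) F) (hdet : L.det = 1)
    (hL : ∀ i j, v (L i j) ≤ 1) : ∃ g : GL (Fin n) F, g.1 = L ∧
      len v g ≤ 1 + (n : ℝ) * n + n * n * (n * n) ^ n ∧
      se v (g⁻¹).1 ≤ 1 + (n : ℝ) * n + n * n * (n * n) ^ n := by
  have hse : ∀ M : Matrix (Fin n) (Fin n) F, ∀ b : ℝ, (∀ i j, v (M i j) ≤ b) →
      se v M ≤ n * n * b := by
    intro M b hM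
    unfold se
    refine le_trans (Finset.sum_le_sum fun i _ => Finset.sum_le_sum fun j _ => hM i j) ?_
    simp only [Finset.sum_const, Finset.card_univ, Fintype.card_fin, nsmul_eq_mul]
    rw [mul_assoc]
  have hn0 : (0 : ℝ) ≤ n := Nat.cast_nonneg n
  let g : GL (Fin n) F :=
    { val := L
      inv := L.adjugate
      val_inv := by rw [Matrix.mul_adjugate, hdet, one_smul]
      inv_val := by rw [Matrix.adjugate_mul, hdet, one_smul] }
  have h1 : se v L ≤ n * n := by
    have := hse L 1 hL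
    rwa [mul_one] at this
  have h2 : se v L.adjugate ≤ n * n * (n * n) ^ n := by
    apply hse
    intro i j
    rw [Matrix.adjugate_apply]
    refine le_trans (det_le v _) ?_
    refine pow_le_pow_left₀ (se_nonneg v _) ?_ n
    have h3 := hse (L.updateRow j (Pi.single i 1)) 1 (by
      intro a b
      rw [Matrix.updateRow_apply]
      split_ifs with h
      · rw [Pi.single_apply]
        split_ifs
        · rw [map_one]
        · rw [map_zero]
          exact zero_le_one
      · exact hL a b)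
    rwa [mul_one] at h3
  have h3 : (0 : ℝ) ≤ n * n := mul_nonneg hn0 hn0
  have h4 : (0 : ℝ) ≤ n * n * (n * n) ^ n := mul_nonneg h3 (pow_nonneg h3 n)
  refine ⟨g, rfl, ?_, ?_⟩
  · have h5 : Real.log (se v g.1) ≤ se v g.1 := Real.log_le_self (se_nonneg v _)
    have h6 : Real.log (se v (g⁻¹).1) ≤ se v (g⁻¹).1 := Real.log_le_self (se_nonneg v _)
    have h7 : se v g.1 ≤ n * n := h1
    have h8 : se v (g⁻¹).1 ≤ n * n * (n * n) ^ n := h2
    unfold len
    linarith
  · have h8 : se v (g⁻¹).1 ≤ n * n * (n * n) ^ n := h2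
    linarith

theorem G03_const (n : ℕ) : (1 : ℝ) ≤ 1 + (n : ℝ) * n + n * n * (n * n) ^ n := by
  have hn0 : (0 : ℝ) ≤ n := Nat.cast_nonneg n
  have h3 : (0 : ℝ) ≤ n * n := mul_nonneg hn0 hn0
  have h4 : (0 : ℝ) ≤ n * n * (n * n) ^ n := mul_nonneg h3 (pow_nonneg h3 n)
  linarith

theorem low_gl {n : ℕ} (v : AbsoluteValue F ℝ) : ∃ C : ℝ, 1 ≤ C ∧
    ∀ L : Matrix (Fin n) (Fin n) F, IsLow v L → ∃ g : GL (Fin n) F, g.1 = L ∧ len v g ≤ C ∧
      se v (g⁻¹).1 ≤ C := by
  refine ⟨1 + (n : ℝ) * n + n * n * (n * n) ^ n, G03_const n, fun L hL => ?_⟩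
  refine G03_unit v L ?_ hL.le
  have h1 : L.det = ∏ i, L i i := Matrix.det_of_isLowerTriangular L (by
    intro i j hij
    exact hL.zero i j hij)
  rw [h1]
  exact Finset.prod_eq_one fun i _ => hL.diag i

theorem up_gl {n : ℕ} (v : AbsoluteValue F ℝ) : ∃ C : ℝ, 1 ≤ C ∧
    ∀ U : Matrix (Fin n) (Fin n) F, IsUp v U → ∃ g : GL (Fin n) F, g.1 = U ∧ len v g ≤ C ∧
      se v (g⁻¹).1 ≤ C := by
  refine ⟨1 + (n : ℝ) * n + n * n * (n * n) ^ n, G03_const n, fun U hU => ?_⟩
  refine G03_unit v U ?_ hU.le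
  have h1 : U.det = ∏ i, U i i := Matrix.det_of_isUpperTriangular (by
    intro i j hij
    exact hU.zero i j hij)
  rw [h1]
  exact Finset.prod_eq_one fun i _ => hU.diag i

theorem G03_se_perm {n : ℕ} (v : AbsoluteValue F ℝ) (w : Fin n → Fin n) :
    se v ((1 : Matrix (Fin n) (Fin n) F).submatrix w id) = n := by
  unfold se
  have h1 : ∀ i : Fin n, ∑ j, v ((1 : Matrix (Fin n) (Fin n) F).submatrix w id i j) = 1 := by
    intro i
    rw [Finset.sum_eq_single (w i)]
    · rw [Matrix.submatrix_apply, id, Matrix.one_apply_eq, map_one]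
    · intro j _ hj
      rw [Matrix.submatrix_apply, id, Matrix.one_apply_ne (Ne.symm hj), map_zero]
    · intro h
      exact absurd (Finset.mem_univ _) h
  rw [Finset.sum_congr rfl fun i _ => h1 i]
  simp

theorem len_pm {n : ℕ} (v : AbsoluteValue F ℝ) (w : Equiv.Perm (Fin n)) :
    len v (pm w : GL (Fin n) F) ≤ 2 * n := by
  have h1 : se v (pm w : GL (Fin n) F).1 = n := G03_se_perm v w
  have h2 : se v ((pm w : GL (Fin n) F)⁻¹).1 = n := G03_se_perm v _
  have h3 : Real.log (n : ℝ) ≤ n := Real.log_le_self (Nat.cast_nonneg n)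
  unfold len
  rw [h1, h2]
  linarith

theorem G03_se_dg {n : ℕ} (v : AbsoluteValue F ℝ) (D : Fin n → Fˣ) :
    se v (dg D).1 = ∑ i, v (D i : F) := by
  unfold se
  refine Finset.sum_congr rfl fun i _ => ?_
  rw [Finset.sum_eq_single i]
  · rw [dg_val, Matrix.diagonal_apply_eq]
  · intro j _ hj
    rw [dg_val, Matrix.diagonal_apply_ne _ (Ne.symm hj), map_zero]
  · intro h
    exact absurd (Finset.mem_univ _) h

theorem G03_log_dg {n : ℕ} (hn : 1 ≤ n) (v : AbsoluteValue F ℝ) (D : Fin n → Fˣ) : ∃ i : Fin n,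
    Real.log (se v (dg D).1) ≤ n + Real.log (v (D i : F)) := by
  have : Nonempty (Fin n) := ⟨⟨0, hn⟩⟩
  obtain ⟨i, -, hi⟩ := Finset.exists_max_image Finset.univ (fun i : Fin n => v (D i : F))
    Finset.univ_nonempty
  refine ⟨i, ?_⟩
  have hpos : 0 < v (D i : F) := v.pos (D i).ne_zero
  have h1 : se v (dg D).1 ≤ n * v (D i : F) := by
    rw [G03_se_dg]
    refine le_trans (Finset.sum_le_sum fun j _ => hi j (Finset.mem_univ _)) ?_
    simp
  have hn' : (0 : ℝ) < n := by exact_mod_cast hn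
  refine le_trans (Real.log_le_log (se_pos hn v _) h1) ?_
  rw [Real.log_mul hn'.ne' hpos.ne']
  have h3 : Real.log (n : ℝ) ≤ n := Real.log_le_self (Nat.cast_nonneg n)
  linarith

theorem G03_log_dg' {n : ℕ} (v : AbsoluteValue F ℝ) (D : Fin n → Fˣ) (i : Fin n) :
    Real.log (v (D i : F)) ≤ Real.log (se v (dg D).1) := by
  refine Real.log_le_log (v.pos (D i).ne_zero) ?_
  rw [G03_se_dg]
  exact Finset.single_le_sum (f := fun i => v (D i : F)) (fun _ _ => v.nonneg _)
    (Finset.mem_univ i)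

theorem G03_log_inv (v : AbsoluteValue F ℝ) (c : Fˣ) :
    Real.log (v ((c⁻¹ : Fˣ) : F)) = -Real.log (v (c : F)) := by
  rw [Units.val_inv_eq_inv_val, map_inv₀, Real.log_inv]

theorem len_dg {n : ℕ} (hn : 1 ≤ n) (v : AbsoluteValue F ℝ) (D : Fin n → Fˣ) : ∃ i k : Fin n,
    len v (dg D) ≤ 2 * n + (Real.log (v (D i : F)) - Real.log (v (D k : F))) := by
  obtain ⟨i, hi⟩ := G03_log_dg hn v D
  obtain ⟨k, hk⟩ := G03_log_dg hn v (fun i => (D i)⁻¹)
  refine ⟨i, k, ?_⟩
  rw [G03_log_inv] at hk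
  unfold len
  rw [dg_inv]
  linarith

theorem le_len_dg {n : ℕ} (v : AbsoluteValue F ℝ) (D : Fin n → Fˣ) (i k : Fin n) :
    Real.log (v (D i : F)) - Real.log (v (D k : F)) ≤ len v (dg D) := by
  have h1 := G03_log_dg' v D i
  have h2 := G03_log_dg' v (fun i => (D i)⁻¹) k
  rw [G03_log_inv] at h2
  unfold len
  rw [dg_inv]
  linarith

end RDG
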