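import Mathlib
import Pool.Agent.Lib.MP_fee02f_an.GG.G03

/-!
# G04: the true length `ln v A = len v A + |log v (det A)|`

`se_le_ln`: `log v (det A) ≤ n log se A` and `-log v (det A) ≤ n log se A⁻¹` (`det_le`; `n ≥ 1`, `se_pos`), so
`log se A ≥ -|log v det A| / n` etc. and `log se A = len v A - log se A⁻¹ ≤ ln v A + |log v det A| ≤ 2 ln v A`
(for `n = 0` everything is `0` because `Real.log 0 = 0`). `entry_le_ln`: `v (A i j) ≤ se A ≤ exp (2 ln)`.
`ln_le_of_se`: `se A ≤ K`, `se A⁻¹ ≤ K`, `K ≥ 1`: `len ≤ 2 log K`, `|log v det| ≤ n log K`.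
`ln_dg_le`: entries: `se (dg D) ≤ n exp c`, `se (dg D)⁻¹ ≤ n exp c`, `det` = product.
`ln_low`, `ln_up`: `low_gl`, `up_gl` and determinant one (`Matrix.det_of_lowerTriangular`, `det_of_upperTriangular`).
`ln_pm`: `det = sign = ± 1` (`Matrix.det_permutation`; or `v (det) ^ k = 1`: here `pm w` has entries 0 or 1; or use
`det (pm w) * det (pm w⁻¹) = 1` and `v (det) ≤ se ^ n ≤ n ^ n` for both).
-/

set_option autoImplicit false

open scoped MatrixGroups

namespace RDG

variable {F : Type*} [Field F]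

theorem G04_det_inv {n : ℕ} (v : AbsoluteValue F ℝ) (A : GL (Fin n) F) :
    Real.log (v (A⁻¹).1.det) = -Real.log (v A.1.det) := by
  have h1 : (A⁻¹).1.det * A.1.det = 1 := by
    rw [← Matrix.det_mul, ← Units.val_mul, inv_mul_cancel, Units.val_one, Matrix.det_one]
  have h2 : v (A⁻¹).1.det = (v A.1.det)⁻¹ := by
    have h3 : v (A⁻¹).1.det * v A.1.det = 1 := by rw [← map_mul, h1, map_one]
    exact eq_inv_of_mul_eq_one_left h3
  rw [h2, Real.log_inv]

theorem G04_det_ne {n : ℕ} (A : GL (Fin n) F) : A.1.det ≠ 0 := by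
  have h1 : (A⁻¹).1.det * A.1.det = 1 := by
    rw [← Matrix.det_mul, ← Units.val_mul, inv_mul_cancel, Units.val_one, Matrix.det_one]
  exact right_ne_zero_of_mul_eq_one h1

theorem G04_det_mul {n : ℕ} (v : AbsoluteValue F ℝ) (A B : GL (Fin n) F) :
    Real.log (v (A * B).1.det) = Real.log (v A.1.det) + Real.log (v B.1.det) := by
  rw [Units.val_mul, Matrix.det_mul, map_mul,
    Real.log_mul (v.ne_zero (G04_det_ne A)) (v.ne_zero (G04_det_ne B))]

theorem ln_nonneg {n : ℕ} (v : AbsoluteValue F ℝ) (A : GL (Fin n) F) : 0 ≤ ln v A := by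
  unfold ln
  have h1 := len_nonneg v A
  have h2 := abs_nonneg (Real.log (v A.1.det))
  linarith

theorem ln_inv {n : ℕ} (v : AbsoluteValue F ℝ) (A : GL (Fin n) F) : ln v A⁻¹ = ln v A := by
  unfold ln
  rw [len_inv, G04_det_inv, abs_neg]

theorem ln_mul_le {n : ℕ} (v : AbsoluteValue F ℝ) (A B : GL (Fin n) F) :
    ln v (A * B) ≤ ln v A + ln v B := by
  unfold ln
  rw [G04_det_mul]
  have h1 := len_mul_le v A B
  have h2 := abs_add_le (Real.log (v A.1.det)) (Real.log (v B.1.det))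
  linarith

theorem len_le_ln {n : ℕ} (v : AbsoluteValue F ℝ) (A : GL (Fin n) F) : len v A ≤ ln v A := by
  unfold ln
  have h2 := abs_nonneg (Real.log (v A.1.det))
  linarith

theorem log_det_le_ln {n : ℕ} (v : AbsoluteValue F ℝ) (A : GL (Fin n) F) :
    |Real.log (v A.1.det)| ≤ ln v A := by
  unfold ln
  have h1 := len_nonneg v A
  linarith

theorem G04_log_det_le {n : ℕ} (v : AbsoluteValue F ℝ) (A : GL (Fin n) F) :
    Real.log (v A.1.det) ≤ n * Real.log (se v A.1) := by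
  have h1 := det_le v A.1
  have h2 := Real.log_le_log (v.pos (G04_det_ne A)) h1
  rwa [Real.log_pow] at h2

theorem G04_log_se {n : ℕ} (v : AbsoluteValue F ℝ) (A : GL (Fin n) F) :
    Real.log (se v A.1) ≤ ln v A := by
  rcases Nat.eq_zero_or_pos n with hn | hn
  · subst hn
    rw [G03_se_zero, Real.log_zero]
    exact ln_nonneg v A
  · have h1 := G04_log_det_le v A⁻¹
    rw [G04_det_inv] at h1
    have hn1 : (1 : ℝ) ≤ n := by exact_mod_cast hn
    have h2 : -Real.log (se v (A⁻¹).1) ≤ |Real.log (v A.1.det)| := by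
      by_contra hcon
      push Not at hcon
      have h3 := abs_nonneg (Real.log (v A.1.det))
      have h4 := le_abs_self (Real.log (v A.1.det))
      have h5 : (n : ℝ) * -Real.log (se v (A⁻¹).1) ≤ Real.log (v A.1.det) := by linarith
      have h6 : -Real.log (se v (A⁻¹).1) ≤ (n : ℝ) * -Real.log (se v (A⁻¹).1) := by
        have h7 : 0 ≤ -Real.log (se v (A⁻¹).1) := by linarith
        nlinarith
      linarith
    unfold ln len
    linarith

theorem se_le_ln {n : ℕ} (v : AbsoluteValue F ℝ) (A : GL (Fin n) F) :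
    se v A.1 ≤ Real.exp (2 * ln v A) ∧ se v (A⁻¹).1 ≤ Real.exp (2 * ln v A) := by
  have key : ∀ B : GL (Fin n) F, se v B.1 ≤ Real.exp (2 * ln v B) := by
    intro B
    rcases Nat.eq_zero_or_pos n with hn | hn
    · subst hn
      rw [G03_se_zero]
      exact (Real.exp_pos _).le
    · have h1 := G04_log_se v B
      have h2 := ln_nonneg v B
      rw [← Real.exp_log (se_pos hn v B)]
      exact Real.exp_le_exp.2 (by linarith)
  refine ⟨key A, ?_⟩
  have h1 := key A⁻¹
  rwa [ln_inv] at h1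

theorem G04_log_le {n : ℕ} (v : AbsoluteValue F ℝ) (A : GL (Fin n) F) (K : ℝ) (hK : 1 ≤ K)
    (h1 : se v A.1 ≤ K) : Real.log (se v A.1) ≤ Real.log K := by
  rcases (se_nonneg v A.1).eq_or_lt with h | h
  · rw [← h, Real.log_zero]
    exact Real.log_nonneg hK
  · exact Real.log_le_log h h1

theorem ln_le_of_se {n : ℕ} (v : AbsoluteValue F ℝ) (A : GL (Fin n) F) (K : ℝ) (hK : 1 ≤ K)
    (h1 : se v A.1 ≤ K) (h2 : se v (A⁻¹).1 ≤ K) : ln v A ≤ (n + 2) * Real.log K := by
  have h3 := G04_log_le v A K hK h1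
  have h4 := G04_log_le v A⁻¹ K hK h2
  have h5 := G04_log_det_le v A
  have h6 := G04_log_det_le v A⁻¹
  rw [G04_det_inv] at h6
  have hn0 : (0 : ℝ) ≤ n := Nat.cast_nonneg n
  have h7 : (n : ℝ) * Real.log (se v A.1) ≤ n * Real.log K := mul_le_mul_of_nonneg_left h3 hn0
  have h8 : (n : ℝ) * Real.log (se v (A⁻¹).1) ≤ n * Real.log K := mul_le_mul_of_nonneg_left h4 hn0
  have h9 : |Real.log (v A.1.det)| ≤ n * Real.log K := by
    rw [abs_le]
    constructor <;> linarith
  unfold ln len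
  linarith

theorem ln_dg_le {n : ℕ} (v : AbsoluteValue F ℝ) (D : Fin n → Fˣ) (c : ℝ) (hc : 0 ≤ c)
    (h : ∀ i, |Real.log (v (D i : F))| ≤ c) : ln v (dg D) ≤ 2 * n + (n + 2) * c := by
  rcases Nat.eq_zero_or_pos n with hn | hn
  · subst hn
    unfold ln
    rw [G03_len_zero, Matrix.det_fin_zero, map_one, Real.log_one, abs_zero]
    push_cast
    nlinarith
  · obtain ⟨i, k, h1⟩ := len_dg hn v D
    have h2 := abs_le.1 (h i)
    have h3 := abs_le.1 (h k)
    have h4 : Real.log (v (dg D).1.det) = ∑ i, Real.log (v (D i : F)) := by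
      rw [dg_val, Matrix.det_diagonal, map_prod, Real.log_prod]
      intro i _
      exact v.ne_zero (D i).ne_zero
    have h5 : |Real.log (v (dg D).1.det)| ≤ n * c := by
      rw [h4]
      refine (Finset.abs_sum_le_sum_abs _ _).trans ?_
      refine (Finset.sum_le_sum fun i _ => h i).trans ?_
      simp
    unfold ln
    linarith

theorem log_dg_le {n : ℕ} (v : AbsoluteValue F ℝ) (D : Fin n → Fˣ) (i : Fin n) :
    |Real.log (v (D i : F))| ≤ 2 * ln v (dg D) := by
  have h1 := G03_log_dg' v D i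
  have h2 := G03_log_dg' v (fun i => (D i)⁻¹) i
  rw [G03_log_inv, ← dg_inv] at h2
  have h3 := G04_log_se v (dg D)
  have h4 := G04_log_se v (dg D)⁻¹
  rw [ln_inv] at h4
  have h5 := ln_nonneg v (dg D)
  rw [abs_le]
  constructor <;> linarith

theorem ln_one_le {n : ℕ} (v : AbsoluteValue F ℝ) : ln v (1 : GL (Fin n) F) ≤ 2 * n := by
  have h1 : se v (1 : GL (Fin n) F).1 = n := by
    rw [Units.val_one]
    exact se_one v
  have h2 : se v ((1 : GL (Fin n) F)⁻¹).1 = n := by
    rw [inv_one]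
    exact h1
  have h3 : Real.log (n : ℝ) ≤ n := Real.log_le_self (Nat.cast_nonneg n)
  unfold ln len
  rw [h1, h2, Units.val_one, Matrix.det_one, map_one, Real.log_one, abs_zero]
  linarith

theorem ln_low {n : ℕ} (v : AbsoluteValue F ℝ) : ∃ C : ℝ, 1 ≤ C ∧
    ∀ L : Matrix (Fin n) (Fin n) F, IsLow v L → ∃ g : GL (Fin n) F, g.1 = L ∧ ln v g ≤ C := by
  obtain ⟨C, hC, h⟩ := low_gl (n := n) v
  refine ⟨C, hC, fun L hL => ?_⟩
  obtain ⟨g, hg, h1, -⟩ := h L hL
  refine ⟨g, hg, ?_⟩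
  have h2 : g.1.det = 1 := by
    rw [hg]
    have h1 : L.det = ∏ i, L i i := Matrix.det_of_isLowerTriangular L (by
      intro i j hij
      exact hL.zero i j hij)
    rw [h1]
    exact Finset.prod_eq_one fun i _ => hL.diag i
  unfold ln
  rw [h2, map_one, Real.log_one, abs_zero, add_zero]
  exact h1

theorem ln_up {n : ℕ} (v : AbsoluteValue F ℝ) : ∃ C : ℝ, 1 ≤ C ∧
    ∀ U : Matrix (Fin n) (Fin n) F, IsUp v U → ∃ g : GL (Fin n) F, g.1 = U ∧ ln v g ≤ C := by
  obtain ⟨C, hC, h⟩ := up_gl (n := n) v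
  refine ⟨C, hC, fun U hU => ?_⟩
  obtain ⟨g, hg, h1, -⟩ := h U hU
  refine ⟨g, hg, ?_⟩
  have h2 : g.1.det = 1 := by
    rw [hg]
    have h1 : U.det = ∏ i, U i i := Matrix.det_of_isUpperTriangular (by
      intro i j hij
      exact hU.zero i j hij)
    rw [h1]
    exact Finset.prod_eq_one fun i _ => hU.diag i
  unfold ln
  rw [h2, map_one, Real.log_one, abs_zero, add_zero]
  exact h1

theorem ln_pm {n : ℕ} (v : AbsoluteValue F ℝ) : ∃ C : ℝ, 1 ≤ C ∧
    ∀ w : Equiv.Perm (Fin n), ln v (pm w : GL (Fin n) F) ≤ C := by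
  have hn0 : (0 : ℝ) ≤ n := Nat.cast_nonneg n
  refine ⟨1 + 2 * n, by linarith, fun w => ?_⟩
  have h1 := len_pm v w
  have h2 : (pm w : GL (Fin n) F).1.det = ((Equiv.Perm.sign w : ℤˣ) : F) := by
    have h3 : (pm w : GL (Fin n) F).1 = (1 : Matrix (Fin n) (Fin n) F).submatrix w id := rfl
    rw [h3, Matrix.det_permute, Matrix.det_one, mul_one]
  have h4 : v (pm w : GL (Fin n) F).1.det = 1 := by
    rw [h2]
    rcases Int.units_eq_one_or (Equiv.Perm.sign w) with h | h <;> rw [h] <;> simp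
  unfold ln
  rw [h4, Real.log_one, abs_zero, add_zero]
  linarith

end RDG
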