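import Mathlib
import Pool.Agent.Lib.MP_fee02f_an.GG.G02
import Pool.Agent.Lib.MP_fee02f_an.GG.G04

/-!
# G05: decompositions with bounded factors

`A.submatrix w w' = pm w * A * (pm w')⁻¹`, so `pivot` gives `c = ((pm w)⁻¹ L) * dg D * (U pm w')` (`ln_low`, `ln_up`,
`ln_pm`, `ln_mul_le`). `iwasawa`: `partial_pivot` for `x⁻¹`: `pm w * x⁻¹ = L B`, `x = B⁻¹ * (L⁻¹ pm w)`, the inverse of
an invertible upper triangular matrix is upper triangular (`Matrix.BlockTriangular.inv` with `id`).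
`half`: `E i = ϖ ^ round (log v (D i) / (2 log v ϖ))`.
-/

set_option autoImplicit false

open scoped MatrixGroups

namespace RDG

variable {F : Type*} [Field F]

theorem G05_submatrix {n : ℕ} (A : GL (Fin n) F) (w w' : Equiv.Perm (Fin n)) :
    A.1.submatrix w w' = (pm w * A * (pm w')⁻¹ : GL (Fin n) F).1 := by
  rw [Units.val_mul, Units.val_mul]
  have h1 : (pm w : GL (Fin n) F).1 = (1 : Matrix (Fin n) (Fin n) F).submatrix w id := rfl
  have h2 : ((pm w' : GL (Fin n) F)⁻¹).1 =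
      (1 : Matrix (Fin n) (Fin n) F).submatrix (w'⁻¹ : Equiv.Perm (Fin n)) id := rfl
  rw [h1, h2]
  ext i j
  rw [Matrix.submatrix_apply, Matrix.mul_apply, Finset.sum_eq_single (w' j)]
  · rw [Matrix.mul_apply, Finset.sum_eq_single (w i)]
    · simp [Matrix.one_apply]
    · intro k _ hk
      simp [Matrix.one_apply, Ne.symm hk]
    · simp
  · intro k _ hk
    have : (1 : Matrix (Fin n) (Fin n) F).submatrix (w'⁻¹ : Equiv.Perm (Fin n)) id k j = 0 := by
      rw [Matrix.submatrix_apply, id, Matrix.one_apply_ne]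
      intro h
      apply hk
      rw [← h]
      simp
    rw [this, mul_zero]
  · simp

theorem decomp {n : ℕ} (v : AbsoluteValue F ℝ) : ∃ C : ℝ, 1 ≤ C ∧ ∀ c : GL (Fin n) F,
    ∃ (A B : GL (Fin n) F) (D : Fin n → Fˣ), c = A * dg D * B ∧ ln v A ≤ C ∧ ln v B ≤ C := by
  obtain ⟨C1, hC1, h1⟩ := ln_low (n := n) v
  obtain ⟨C2, hC2, h2⟩ := ln_up (n := n) v
  obtain ⟨C3, hC3, h3⟩ := ln_pm (n := n) v
  refine ⟨C1 + C2 + C3, by linarith, fun c => ?_⟩
  obtain ⟨w, w', L, U, D, hL, hU, -, h⟩ := pivot v c.1 (G04_det_ne c)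
  obtain ⟨l, hl, hlC⟩ := h1 L hL
  obtain ⟨u, hu, huC⟩ := h2 U hU
  refine ⟨(pm w)⁻¹ * l, u * pm w', D, ?_, ?_, ?_⟩
  · have h4 : pm w * c * (pm w')⁻¹ = l * dg D * u := by
      apply Units.ext
      rw [← G05_submatrix, h, Units.val_mul, Units.val_mul, hl, hu, dg_val]
    have h5 : c = (pm w)⁻¹ * (pm w * c * (pm w')⁻¹) * pm w' := by group
    rw [h5, h4]
    group
  · have h4 := ln_mul_le v (pm w)⁻¹ l
    rw [ln_inv] at h4
    have h5 := h3 w
    linarith
  · have h4 := ln_mul_le v u (pm w')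
    have h5 := h3 w'
    linarith

theorem iwasawa {n : ℕ} (v : AbsoluteValue F ℝ) : ∃ C : ℝ, 1 ≤ C ∧ ∀ x : GL (Fin n) F,
    ∃ b k : GL (Fin n) F, x = b * k ∧ (∀ i j, j < i → b.1 i j = 0) ∧
      (∀ i j, j < i → (b⁻¹).1 i j = 0) ∧ ln v k ≤ C := by
  obtain ⟨C1, hC1, h1⟩ := ln_low (n := n) v
  obtain ⟨C3, hC3, h3⟩ := ln_pm (n := n) v
  refine ⟨C1 + C3, by linarith, fun x => ?_⟩
  obtain ⟨w, L, B, hL, hB, h⟩ := partial_pivot v (x⁻¹).1 (G04_det_ne _)
  obtain ⟨l, hl, hlC⟩ := h1 L hL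
  have h4 : pm w * x⁻¹ * (pm 1)⁻¹ = pm w * (x⁻¹ : GL (Fin n) F) := by
    have : (pm 1 : GL (Fin n) F) = 1 := by
      apply Units.ext
      rw [Units.val_one]
      have h2 : (pm 1 : GL (Fin n) F).1 = (1 : Matrix (Fin n) (Fin n) F).submatrix (1 : Equiv.Perm (Fin n)) id := rfl
      rw [h2, Equiv.Perm.coe_one, Matrix.submatrix_id_id]
    rw [this, inv_one, mul_one]
  have h5 : (x⁻¹).1.submatrix w id = (pm w * (x⁻¹ : GL (Fin n) F)).1 := by
    rw [← h4, ← G05_submatrix]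
    rfl
  -- the upper triangular factor
  let b : GL (Fin n) F := x * (pm w)⁻¹ * l
  have hb : (b⁻¹).1 = B := by
    have h6 : l * b⁻¹ = pm w * x⁻¹ := by
      simp only [b]
      group
    have h7 : L * (b⁻¹).1 = L * B := by
      rw [← h, h5, ← hl, ← Units.val_mul, h6]
    have h8 : (l⁻¹).1 * (l.1 * (b⁻¹).1) = (l⁻¹).1 * (l.1 * B) := by rw [hl, h7]
    rw [← mul_assoc, ← mul_assoc, ← Units.val_mul, inv_mul_cancel, Units.val_one, one_mul,
      one_mul] at h8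
    exact h8
  refine ⟨b, l⁻¹ * pm w, ?_, ?_, ?_, ?_⟩
  · simp only [b]
    group
  · have hT : Matrix.BlockTriangular (b⁻¹).1 id := by
      intro i j hij
      rw [hb]
      exact hB i j hij
    have : Invertible (b⁻¹).1 := (b⁻¹).invertible
    have h9 := Matrix.blockTriangular_inv_of_blockTriangular hT
    have h10 : ((b⁻¹).1)⁻¹ = b.1 := by
      have : ((b⁻¹ : GL (Fin n) F)⁻¹).1 = ((b⁻¹).1)⁻¹ := Matrix.coe_units_inv _
      rw [← this, inv_inv]
    rw [h10] at h9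
    intro i j hij
    exact h9 hij
  · intro i j hij
    rw [hb]
    exact hB i j hij
  · have h6 := ln_mul_le v l⁻¹ (pm w)
    rw [ln_inv] at h6
    have h7 := h3 w
    linarith

theorem half {n : ℕ} (v : AbsoluteValue F ℝ) (ϖ : Fˣ) (hϖ : 1 < v (ϖ : F)) (D : Fin n → Fˣ) :
    ∃ E : Fin n → Fˣ, ∀ i, |2 * Real.log (v (E i : F)) - Real.log (v (D i : F))| ≤
      Real.log (v (ϖ : F)) := by
  have hl : 0 < Real.log (v (ϖ : F)) := Real.log_pos hϖ
  refine ⟨fun i => ϖ ^ (round (Real.log (v (D i : F)) / (2 * Real.log (v (ϖ : F)))) : ℤ),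
    fun i => ?_⟩
  rw [Units.val_zpow_eq_zpow_val, map_zpow₀, Real.log_zpow]
  set d := Real.log (v (D i : F)) with hd
  set l := Real.log (v (ϖ : F)) with hl'
  have h1 := abs_sub_round (d / (2 * l))
  have h2 : 2 * ((round (d / (2 * l)) : ℤ) * l) - d = -(2 * l) * (d / (2 * l) - round (d / (2 * l))) := by
    field_simp
    ring
  rw [h2, abs_mul, abs_neg, abs_of_pos (by linarith : (0:ℝ) < 2 * l)]
  nlinarith

end RDG
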