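import Mathlib
import Pool.Agent.Lib.MP_fee02f_an.GG.G02
import Pool.Agent.Lib.MP_fee02f_an.GG.G03

/-!
# G06: nested almost maximal minors

Let `A.submatrix w w' = L * diagonal D * U` (`pivot`). The leading minor of order `j` of
`L * diagonal D * U` is `∏ i < j, D i` (the leading block of the product is the product of the
leading blocks because `L` is lower and `diagonal D * U` is upper triangular; `Matrix.det_of_lowerTriangular`,
`det_of_upperTriangular`). `mu v j A = mu v j (A.submatrix w w')` (reindexing the functions `I`, `J`) and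
`mu v j (L * diagonal D * U) ≤ se L ^ j * se U ^ j * mu v j (diagonal D)` (`mu_mul_left`, `mu_mul_right`);
`det ((diagonal D).submatrix I J)` is zero unless `I` is injective and then at most
`j! ∏ i, v (D (I i)) ≤ j! 2 ^ (n j) ∏ i < j, v (D i)` (for injective `I` the `j` values can be sorted:
the `k`-th smallest value of `I` is at least `k`); number of functions `n ^ (2 j)`.
`sh_ge`: `v (∏ i < n, D i) ^ j ≤ 2 ^ (n n j) v (∏ i < j, D i) ^ n` since `v (D k) ≤ 2 ^ n v (D i)` for
`i < j ≤ k`; and `mu v j A ≥ v (∏ i < j, D i)`, `v (det A) = v (∏ i, D i)`.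
-/

set_option autoImplicit false

open scoped MatrixGroups

namespace RDG

variable {F : Type*} [Field F]

theorem G06_mu_submatrix {n : ℕ} (v : AbsoluteValue F ℝ) (j : ℕ) (A : Matrix (Fin n) (Fin n) F)
    (w w' : Equiv.Perm (Fin n)) : mu v j (A.submatrix w w') = mu v j A := by
  unfold mu
  have e1 : ∀ (w : Equiv.Perm (Fin n)) (f : (Fin j → Fin n) → ℝ),
      ∑ I : Fin j → Fin n, f (fun i => w (I i)) = ∑ I : Fin j → Fin n, f I := by
    intro w f
    exact (Equiv.sum_comp (Equiv.arrowCongr (Equiv.refl (Fin j)) w) f)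
  have h : ∀ I J : Fin j → Fin n, v ((A.submatrix w w').submatrix I J).det =
      v (A.submatrix (fun i => w (I i)) (fun i => w' (J i))).det := fun I J => rfl
  simp only [h]
  rw [e1 w (fun I => ∑ J : Fin j → Fin n, v (A.submatrix I (fun i => w' (J i))).det)]
  refine Finset.sum_congr rfl fun I _ => ?_
  exact e1 w' (fun J => v (A.submatrix I J).det)

theorem G06_sub_mul_low {n j : ℕ} (hj : j ≤ n) (L M : Matrix (Fin n) (Fin n) F)
    (hL : ∀ i k, i < k → L i k = 0) :
    (L * M).submatrix (Fin.castLE hj) (Fin.castLE hj) =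
      L.submatrix (Fin.castLE hj) (Fin.castLE hj) * M.submatrix (Fin.castLE hj) (Fin.castLE hj) := by
  ext a b
  simp only [Matrix.submatrix_apply, Matrix.mul_apply]
  have e : ∑ i : Fin j, L (Fin.castLE hj a) (Fin.castLE hj i) * M (Fin.castLE hj i) (Fin.castLE hj b)
      = ∑ k ∈ Finset.univ.map (Fin.castLEEmb hj),
        L (Fin.castLE hj a) k * M k (Fin.castLE hj b) :=
    (Finset.sum_map Finset.univ (Fin.castLEEmb hj)
      (fun k => L (Fin.castLE hj a) k * M k (Fin.castLE hj b))).symm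
  rw [e]
  symm
  apply Finset.sum_subset (Finset.subset_univ _)
  intro k _ hk
  rw [hL, zero_mul]
  rw [Finset.mem_map] at hk
  rw [Fin.lt_def, Fin.val_castLE]
  by_contra hlt
  push Not at hlt
  exact hk ⟨⟨k, lt_of_le_of_lt hlt a.2⟩, Finset.mem_univ _, by ext; simp⟩

theorem G06_det_low {n : ℕ} (v : AbsoluteValue F ℝ) (L : Matrix (Fin n) (Fin n) F) (hL : IsLow v L)
    {j : ℕ} (hj : j ≤ n) : (L.submatrix (Fin.castLE hj) (Fin.castLE hj)).det = 1 := by
  rw [Matrix.det_of_isLowerTriangular]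
  · simp [hL.diag]
  · intro a b hab
    apply hL.zero
    have : a < b := hab
    rw [Fin.lt_def] at this ⊢
    simpa using this

theorem G06_det_up {n : ℕ} (v : AbsoluteValue F ℝ) (U : Matrix (Fin n) (Fin n) F) (hU : IsUp v U)
    {j : ℕ} (hj : j ≤ n) : (U.submatrix (Fin.castLE hj) (Fin.castLE hj)).det = 1 := by
  rw [Matrix.det_of_isUpperTriangular]
  · simp [hU.diag]
  · intro a b hab
    apply hU.zero
    have : b < a := hab
    rw [Fin.lt_def] at this ⊢
    simpa using this

/-- the leading minor of `L D U` -/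
theorem G06_lead {n : ℕ} (v : AbsoluteValue F ℝ) (L U : Matrix (Fin n) (Fin n) F)
    (D : Fin n → F) (hL : IsLow v L) (hU : IsUp v U) {j : ℕ} (hj : j ≤ n) :
    ((L * Matrix.diagonal D * U).submatrix (Fin.castLE hj) (Fin.castLE hj)).det =
      ∏ i : Fin j, D (Fin.castLE hj i) := by
  rw [Matrix.mul_assoc, G06_sub_mul_low hj _ _ hL.zero, G06_sub_mul_low hj (Matrix.diagonal D) U,
    Matrix.det_mul, Matrix.det_mul, G06_det_low v L hL hj, G06_det_up v U hU hj, one_mul, mul_one,
    Matrix.submatrix_diagonal D (Fin.castLE hj) (Fin.castLE_injective hj), Matrix.det_diagonal]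
  · rfl
  · intro i k hik
    exact Matrix.diagonal_apply_ne D (ne_of_lt hik)

theorem G06_le_strictMono {j n : ℕ} (f : Fin j → Fin n) (hf : StrictMono f) (k : ℕ) :
    ∀ hk : k < j, k ≤ (f ⟨k, hk⟩ : ℕ) := by
  induction k with
  | zero => intro hk; exact Nat.zero_le _
  | succ k ih =>
    intro hk
    have h1 := ih (Nat.lt_of_succ_lt hk)
    have h2 : f ⟨k, Nat.lt_of_succ_lt hk⟩ < f ⟨k + 1, hk⟩ := hf (by rw [Fin.lt_def]; simp)
    rw [Fin.lt_def] at h2
    omega

/-- products of `v (D i)` over `j` distinct indices -/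
theorem G06_prod_le {n : ℕ} (v : AbsoluteValue F ℝ) (D : Fin n → F)
    (hD : ∀ i j, i ≤ j → v (D j) ≤ 2 ^ n * v (D i)) {j : ℕ} (hj : j ≤ n) (I : Fin j → Fin n)
    (hI : Function.Injective I) :
    ∏ i, v (D (I i)) ≤ 2 ^ (n * j) * ∏ i : Fin j, v (D (Fin.castLE hj i)) := by
  have h1 : ∏ i, v (D (I i)) = ∏ i, v (D (I (Tuple.sort I i))) :=
    (Equiv.prod_comp (Tuple.sort I) (fun i => v (D (I i)))).symm
  have h2 : StrictMono (I ∘ Tuple.sort I) :=
    (Tuple.monotone_sort I).strictMono_of_injective (hI.comp (Tuple.sort I).injective)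
  rw [h1]
  have h3 : ∏ i : Fin j, v (D (I (Tuple.sort I i))) ≤
      ∏ i : Fin j, (2 ^ n * v (D (Fin.castLE hj i))) := by
    apply Finset.prod_le_prod
    · intro i _; exact v.nonneg _
    · intro i _
      apply hD
      rw [Fin.le_def, Fin.val_castLE]
      exact G06_le_strictMono _ h2 i.1 i.2
  refine h3.trans (le_of_eq ?_)
  rw [Finset.prod_mul_distrib, Finset.prod_const, Finset.card_univ, Fintype.card_fin, ← pow_mul]

theorem G06_det_diag {n : ℕ} (v : AbsoluteValue F ℝ) (D : Fin n → F)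
    (hD : ∀ i j, i ≤ j → v (D j) ≤ 2 ^ n * v (D i)) {j : ℕ} (hj : j ≤ n) (I J : Fin j → Fin n) :
    v ((Matrix.diagonal D).submatrix I J).det ≤
      (j.factorial : ℝ) * (2 ^ (n * j) * ∏ i : Fin j, v (D (Fin.castLE hj i))) := by
  have hpos : 0 ≤ (2 : ℝ) ^ (n * j) * ∏ i : Fin j, v (D (Fin.castLE hj i)) :=
    mul_nonneg (by positivity) (Finset.prod_nonneg fun i _ => v.nonneg _)
  by_cases hI : Function.Injective I
  · rw [Matrix.det_apply]
    refine (v.sum_le _ _).trans ?_
    have : ∀ σ ∈ (Finset.univ : Finset (Equiv.Perm (Fin j))),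
        v (Equiv.Perm.sign σ • ∏ i, ((Matrix.diagonal D).submatrix I J) (σ i) i) ≤
          2 ^ (n * j) * ∏ i : Fin j, v (D (Fin.castLE hj i)) := by
      intro σ _
      have e1 : v (Equiv.Perm.sign σ • ∏ i, ((Matrix.diagonal D).submatrix I J) (σ i) i) =
          v (∏ i, ((Matrix.diagonal D).submatrix I J) (σ i) i) := by
        rcases Int.units_eq_one_or (Equiv.Perm.sign σ) with h | h
        · rw [h, one_smul]
        · rw [h, Units.neg_smul, one_smul, v.map_neg]
      rw [e1, v.map_prod]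
      have e2 : ∏ i, v (((Matrix.diagonal D).submatrix I J) (σ i) i) ≤ ∏ i, v (D (I (σ i))) := by
        apply Finset.prod_le_prod
        · intro i _; exact v.nonneg _
        · intro i _
          rw [Matrix.submatrix_apply, Matrix.diagonal_apply]
          split_ifs
          · exact le_refl _
          · rw [v.map_zero]; exact v.nonneg _
      refine e2.trans ?_
      rw [Equiv.prod_comp σ (fun i => v (D (I i)))]
      exact G06_prod_le v D hD hj I hI
    refine (Finset.sum_le_card_nsmul _ _ _ this).trans (le_of_eq ?_)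
    rw [Finset.card_univ, Fintype.card_perm, Fintype.card_fin, nsmul_eq_mul]
  · rw [Function.not_injective_iff] at hI
    obtain ⟨a, b, hab, hne⟩ := hI
    have : ((Matrix.diagonal D).submatrix I J).det = 0 := by
      apply Matrix.det_zero_of_row_eq hne
      funext k
      simp [Matrix.submatrix_apply, hab]
    rw [this, v.map_zero]
    exact mul_nonneg (Nat.cast_nonneg _) hpos

theorem G06_se_le {n : ℕ} (v : AbsoluteValue F ℝ) (L : Matrix (Fin n) (Fin n) F)
    (h : ∀ i j, v (L i j) ≤ 1) : se v L ≤ (n : ℝ) ^ 2 + 1 := by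
  unfold se
  have : ∑ i, ∑ j, v (L i j) ≤ ∑ _i : Fin n, ∑ _j : Fin n, (1 : ℝ) :=
    Finset.sum_le_sum fun i _ => Finset.sum_le_sum fun j _ => h i j
  refine this.trans ?_
  simp
  nlinarith

/-- the main estimate -/
theorem G06_mu_le {n : ℕ} (v : AbsoluteValue F ℝ) (L U : Matrix (Fin n) (Fin n) F)
    (D : Fin n → F) (hL : IsLow v L) (hU : IsUp v U)
    (hD : ∀ i j, i ≤ j → v (D j) ≤ 2 ^ n * v (D i)) {j : ℕ} (hj : j ≤ n) :
    mu v j (L * Matrix.diagonal D * U) ≤
      (((n : ℝ) ^ 2 + 1) ^ n * ((n : ℝ) ^ 2 + 1) ^ n * (((n : ℝ) + 1) ^ n * ((n : ℝ) + 1) ^ n *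
        ((n.factorial : ℝ) * 2 ^ (n * n)))) * ∏ i : Fin j, v (D (Fin.castLE hj i)) := by
  set P : ℝ := ∏ i : Fin j, v (D (Fin.castLE hj i)) with hP
  have hP0 : 0 ≤ P := Finset.prod_nonneg fun i _ => v.nonneg _
  have hB : (1 : ℝ) ≤ (n : ℝ) ^ 2 + 1 := by nlinarith [sq_nonneg (n : ℝ)]
  have hN : (1 : ℝ) ≤ (n : ℝ) + 1 := by
    have : (0 : ℝ) ≤ n := Nat.cast_nonneg n
    linarith
  have h1 : mu v j (L * Matrix.diagonal D * U) ≤ se v U ^ j * mu v j (L * Matrix.diagonal D) :=
    mu_mul_right v j _ _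
  have h2 : mu v j (L * Matrix.diagonal D) ≤ se v L ^ j * mu v j (Matrix.diagonal D) :=
    mu_mul_left v j _ _
  have hse : ∀ M : Matrix (Fin n) (Fin n) F, (∀ i j, v (M i j) ≤ 1) →
      se v M ^ j ≤ ((n : ℝ) ^ 2 + 1) ^ n := by
    intro M hM
    exact (pow_le_pow_left₀ (se_nonneg v M) (G06_se_le v M hM) j).trans
      (pow_le_pow_right₀ hB hj)
  have h3 : mu v j (Matrix.diagonal D) ≤ ((n : ℝ) + 1) ^ n * ((n : ℝ) + 1) ^ n *
      ((n.factorial : ℝ) * 2 ^ (n * n)) * P := by
    have hb : ∀ I J : Fin j → Fin n, v ((Matrix.diagonal D).submatrix I J).det ≤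
        (n.factorial : ℝ) * 2 ^ (n * n) * P := by
      intro I J
      refine (G06_det_diag v D hD hj I J).trans ?_
      rw [← hP, ← mul_assoc]
      apply mul_le_mul_of_nonneg_right _ hP0
      apply mul_le_mul
      · exact_mod_cast Nat.factorial_le hj
      · exact pow_le_pow_right₀ (by norm_num) (Nat.mul_le_mul_left n hj)
      · positivity
      · positivity
    have hc : (Fintype.card (Fin j → Fin n) : ℝ) ≤ ((n : ℝ) + 1) ^ n := by
      rw [Fintype.card_fun, Fintype.card_fin, Fintype.card_fin]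
      push_cast
      exact (pow_le_pow_left₀ (Nat.cast_nonneg n) (by linarith) j).trans (pow_le_pow_right₀ hN hj)
    unfold mu
    have hbb : 0 ≤ (n.factorial : ℝ) * 2 ^ (n * n) * P := by positivity
    have hin : ∀ I : Fin j → Fin n, ∑ J : Fin j → Fin n, v ((Matrix.diagonal D).submatrix I J).det ≤
        ((n : ℝ) + 1) ^ n * ((n.factorial : ℝ) * 2 ^ (n * n) * P) := by
      intro I
      refine (Finset.sum_le_card_nsmul _ _ _ fun J _ => hb I J).trans ?_
      rw [Finset.card_univ, nsmul_eq_mul]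
      exact mul_le_mul_of_nonneg_right hc hbb
    refine (Finset.sum_le_card_nsmul _ _ _ fun I _ => hin I).trans ?_
    rw [Finset.card_univ, nsmul_eq_mul]
    refine (mul_le_mul_of_nonneg_right hc (by positivity)).trans (le_of_eq (by ring))
  calc mu v j (L * Matrix.diagonal D * U) ≤ se v U ^ j * mu v j (L * Matrix.diagonal D) := h1
    _ ≤ ((n : ℝ) ^ 2 + 1) ^ n * (((n : ℝ) ^ 2 + 1) ^ n * mu v j (Matrix.diagonal D)) := by
        apply mul_le_mul (hse U hU.le) _ (mu_nonneg v j _) (by positivity)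
        exact h2.trans (mul_le_mul_of_nonneg_right (hse L hL.le) (mu_nonneg v j _))
    _ ≤ ((n : ℝ) ^ 2 + 1) ^ n * (((n : ℝ) ^ 2 + 1) ^ n * (((n : ℝ) + 1) ^ n * ((n : ℝ) + 1) ^ n *
      ((n.factorial : ℝ) * 2 ^ (n * n)) * P)) := by
        apply mul_le_mul_of_nonneg_left _ (by positivity)
        exact mul_le_mul_of_nonneg_left h3 (by positivity)
    _ = _ := by ring

theorem G06_one_le (n : ℕ) : (1 : ℝ) ≤ ((n : ℝ) ^ 2 + 1) ^ n * ((n : ℝ) ^ 2 + 1) ^ n *
    (((n : ℝ) + 1) ^ n * ((n : ℝ) + 1) ^ n * ((n.factorial : ℝ) * 2 ^ (n * n))) := by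
  have hB : (1 : ℝ) ≤ ((n : ℝ) ^ 2 + 1) ^ n := one_le_pow₀ (by nlinarith [sq_nonneg (n : ℝ)])
  have hN : (1 : ℝ) ≤ ((n : ℝ) + 1) ^ n := one_le_pow₀ (by
    have : (0 : ℝ) ≤ n := Nat.cast_nonneg n
    linarith)
  have hf : (1 : ℝ) ≤ (n.factorial : ℝ) := by exact_mod_cast Nat.one_le_iff_ne_zero.mpr (Nat.factorial_ne_zero n)
  have h2 : (1 : ℝ) ≤ 2 ^ (n * n) := one_le_pow₀ (by norm_num)
  exact one_le_mul_of_one_le_of_one_le (one_le_mul_of_one_le_of_one_le hB hB)
    (one_le_mul_of_one_le_of_one_le (one_le_mul_of_one_le_of_one_le hN hN)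
      (one_le_mul_of_one_le_of_one_le hf h2))

theorem nested {n : ℕ} (v : AbsoluteValue F ℝ) : ∃ C : ℝ, 1 ≤ C ∧ ∀ c : GL (Fin n) F,
    ∃ w w' : Equiv.Perm (Fin n), ∀ (j : ℕ) (hj : j ≤ n), mu v j c.1 ≤
      C * v ((c.1.submatrix (fun i : Fin j => w (Fin.castLE hj i))
        (fun i : Fin j => w' (Fin.castLE hj i))).det) := by
  refine ⟨_, G06_one_le n, ?_⟩
  intro c
  have hdet : c.1.det ≠ 0 := c.det_ne_zero
  obtain ⟨w, w', L, U, D, hL, hU, hD, hA⟩ := pivot v c.1 hdet
  refine ⟨w, w', fun j hj => ?_⟩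
  have h1 : c.1.submatrix (fun i : Fin j => w (Fin.castLE hj i))
        (fun i : Fin j => w' (Fin.castLE hj i)) =
      (c.1.submatrix w w').submatrix (Fin.castLE hj) (Fin.castLE hj) := rfl
  rw [h1, ← G06_mu_submatrix v j c.1 w w', hA, G06_lead v L U _ hL hU hj, v.map_prod]
  exact G06_mu_le v L U _ hL hU hD hj

theorem G06_sum_ge {n : ℕ} (d : Fin n → ℝ) (a : ℝ) (ha : 0 ≤ a) (hd : ∀ i k, i ≤ k → d k ≤ a + d i)
    {j : ℕ} (hj : j ≤ n) :
    (j : ℝ) * ∑ i, d i - (n : ℝ) * ∑ i : Fin j, d (Fin.castLE hj i) ≤ n * n * a := by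
  have h1 : ∑ i : Fin j, d (Fin.castLE hj i) = ∑ i : Fin n, if (i : ℕ) < j then d i else 0 := by
    have e : ∑ i : Fin j, d (Fin.castLE hj i) = ∑ k ∈ Finset.univ.map (Fin.castLEEmb hj), d k :=
      (Finset.sum_map Finset.univ (Fin.castLEEmb hj) d).symm
    rw [e, ← Finset.sum_filter]
    congr 1
    ext k
    simp only [Finset.mem_map, Finset.mem_univ, true_and, Finset.mem_filter]
    constructor
    · rintro ⟨i, rfl⟩
      simp
    · intro hk
      exact ⟨⟨k, hk⟩, by ext; simp⟩
  have h2 : (j : ℝ) = ∑ i : Fin n, if (i : ℕ) < j then (1 : ℝ) else 0 := by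
    rw [← Finset.sum_filter, Finset.sum_const, nsmul_eq_mul, mul_one]
    congr 1
    have : (Finset.univ.filter fun i : Fin n => (i : ℕ) < j) = Finset.univ.map (Fin.castLEEmb hj) := by
      ext k
      simp only [Finset.mem_map, Finset.mem_univ, true_and, Finset.mem_filter]
      constructor
      · intro hk
        exact ⟨⟨k, hk⟩, by ext; simp⟩
      · rintro ⟨i, rfl⟩
        simp
    rw [this, Finset.card_map, Finset.card_univ, Fintype.card_fin]
  have h3 : (j : ℝ) * ∑ i, d i - (n : ℝ) * ∑ i : Fin j, d (Fin.castLE hj i) =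
      ∑ i : Fin n, ∑ k : Fin n, if (i : ℕ) < j then (d k - d i) else 0 := by
    have e1 : ∀ i : Fin n, (∑ k : Fin n, if (i : ℕ) < j then (d k - d i) else 0) =
        (if (i : ℕ) < j then (1 : ℝ) else 0) * (∑ k, d k) -
          n * (if (i : ℕ) < j then d i else 0) := by
      intro i
      split_ifs
      · rw [Finset.sum_sub_distrib, Finset.sum_const, Finset.card_univ, Fintype.card_fin,
          nsmul_eq_mul, one_mul]
      · simp
    simp only [e1]
    rw [Finset.sum_sub_distrib, ← Finset.sum_mul, ← h2, ← Finset.mul_sum, ← h1]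
  have h4 : ∑ i : Fin n, ∑ k : Fin n, (if (i : ℕ) < j then (d k - d i) else 0) =
      ∑ i : Fin n, ∑ k : Fin n, (if (i : ℕ) < j then (if (k : ℕ) < j then 0 else (d k - d i))
        else 0) := by
    have hz : ∑ i : Fin n, ∑ k : Fin n,
        (if (i : ℕ) < j then (if (k : ℕ) < j then (d k - d i) else 0) else 0) = 0 := by
      have hs : ∑ i : Fin n, ∑ k : Fin n,
          (if (i : ℕ) < j then (if (k : ℕ) < j then (d k - d i) else 0) else 0) =
          ∑ i : Fin n, ∑ k : Fin n,
          (if (i : ℕ) < j then (if (k : ℕ) < j then (d i - d k) else 0) else 0) := by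
        rw [Finset.sum_comm]
        refine Finset.sum_congr rfl fun i _ => Finset.sum_congr rfl fun k _ => ?_
        split_ifs <;> simp
      have hn : ∑ i : Fin n, ∑ k : Fin n,
          (if (i : ℕ) < j then (if (k : ℕ) < j then (d i - d k) else 0) else 0) =
          - ∑ i : Fin n, ∑ k : Fin n,
          (if (i : ℕ) < j then (if (k : ℕ) < j then (d k - d i) else 0) else 0) := by
        rw [← Finset.sum_neg_distrib]
        refine Finset.sum_congr rfl fun i _ => ?_
        rw [← Finset.sum_neg_distrib]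
        refine Finset.sum_congr rfl fun k _ => ?_
        split_ifs <;> simp
      linarith
    have : ∑ i : Fin n, ∑ k : Fin n, (if (i : ℕ) < j then (d k - d i) else 0) =
      ∑ i : Fin n, ∑ k : Fin n,
        (if (i : ℕ) < j then (if (k : ℕ) < j then (d k - d i) else 0) else 0) +
      ∑ i : Fin n, ∑ k : Fin n, (if (i : ℕ) < j then (if (k : ℕ) < j then 0 else (d k - d i))
        else 0) := by
      rw [← Finset.sum_add_distrib]
      refine Finset.sum_congr rfl fun i _ => ?_
      rw [← Finset.sum_add_distrib]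
      refine Finset.sum_congr rfl fun k _ => ?_
      split_ifs <;> simp
    rw [this, hz, zero_add]
  rw [h3, h4]
  have h5 : ∑ i : Fin n, ∑ k : Fin n, (if (i : ℕ) < j then (if (k : ℕ) < j then 0 else (d k - d i))
        else 0) ≤ ∑ _i : Fin n, ∑ _k : Fin n, a := by
    refine Finset.sum_le_sum fun i _ => Finset.sum_le_sum fun k _ => ?_
    split_ifs with hi hk
    · exact ha
    · have := hd i k (by rw [Fin.le_def]; omega)
      linarith
    · exact ha
  refine h5.trans (le_of_eq ?_)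
  simp
  ring

theorem sh_ge {n : ℕ} (v : AbsoluteValue F ℝ) : ∃ C : ℝ, 1 ≤ C ∧ ∀ (c : GL (Fin n) F) (j : ℕ),
    j ≤ n → -C ≤ sh v j c := by
  refine ⟨(n : ℝ) * n * Real.log 2 + 1, ?_, ?_⟩
  · have : 0 ≤ (n : ℝ) * n * Real.log 2 := by
      have := Real.log_nonneg (show (1 : ℝ) ≤ 2 by norm_num)
      positivity
    linarith
  intro c j hj
  rcases Nat.eq_zero_or_pos n with hn | hn
  · subst hn
    have hj0 : j = 0 := by omega
    subst hj0
    unfold sh
    rw [mu_zero]
    simp
  have hn' : (0 : ℝ) < n := by exact_mod_cast hn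
  obtain ⟨w, w', L, U, D, hL, hU, hD, hA⟩ := pivot v c.1 c.det_ne_zero
  have hDpos : ∀ i, 0 < v (D i : F) := fun i => v.pos (D i).ne_zero
  have h1 : ∏ i : Fin j, v (D (Fin.castLE hj i) : F) ≤ mu v j c.1 := by
    have := le_mu v j c.1 (fun i : Fin j => w (Fin.castLE hj i))
        (fun i : Fin j => w' (Fin.castLE hj i))
    have e : c.1.submatrix (fun i : Fin j => w (Fin.castLE hj i))
        (fun i : Fin j => w' (Fin.castLE hj i)) =
      (c.1.submatrix w w').submatrix (Fin.castLE hj) (Fin.castLE hj) := rfl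
    rw [e, hA, G06_lead v L U _ hL hU hj, v.map_prod] at this
    exact this
  have h2 : v c.1.det = ∏ i : Fin n, v (D i : F) := by
    have e1 : (c.1.submatrix w w').det = ∏ i : Fin n, (D i : F) := by
      have := G06_lead v L U (fun i => (D i : F)) hL hU (le_refl n)
      rw [← hA] at this
      simpa using this
    have e2 : v (c.1.submatrix w w').det = v c.1.det := by
      have : c.1.submatrix w w' = (c.1.submatrix w id).submatrix id w' := rfl
      rw [this, Matrix.det_permute', Matrix.det_permute]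
      have hs : ∀ σ : Equiv.Perm (Fin n), ∀ x : F, v (((Equiv.Perm.sign σ : ℤˣ) : ℤ) * x) = v x := by
        intro σ x
        rcases Int.units_eq_one_or (Equiv.Perm.sign σ) with h | h
        · rw [h]; simp
        · rw [h]; simp
      rw [hs, hs]
    rw [← e2, e1, v.map_prod]
  have hpos : 0 < ∏ i : Fin j, v (D (Fin.castLE hj i) : F) :=
    Finset.prod_pos fun i _ => hDpos _
  have h3 : ∑ i : Fin j, Real.log (v (D (Fin.castLE hj i) : F)) ≤ Real.log (mu v j c.1) := by
    rw [← Real.log_prod (fun i _ => (hDpos _).ne')]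
    exact Real.log_le_log hpos h1
  have h4 : Real.log (v c.1.det) = ∑ i : Fin n, Real.log (v (D i : F)) := by
    rw [h2, Real.log_prod (fun i _ => (hDpos _).ne')]
  have h5 := G06_sum_ge (fun i => Real.log (v (D i : F))) (n * Real.log 2)
    (by have := Real.log_nonneg (show (1 : ℝ) ≤ 2 by norm_num); positivity)
    (by
      intro i k hik
      have := Real.log_le_log (hDpos k) (hD i k hik)
      rw [Real.log_mul (by positivity) (hDpos i).ne', Real.log_pow] at this
      exact this) hj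
  unfold sh
  rw [h4]
  have h6 : (j : ℝ) / n * ∑ i : Fin n, Real.log (v (D i : F)) ≤
      n * n * Real.log 2 + ∑ i : Fin j, Real.log (v (D (Fin.castLE hj i) : F)) := by
    rw [div_mul_eq_mul_div, div_le_iff₀ hn']
    nlinarith [h5]
  linarith

end RDG
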