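import Mathlib
import Pool.Agent.Lib.MP_fee02f_an.GG.G03

/-!
# G07: properties of the normalised minors and of the potential

`sh_mul_left`: `mu_mul_left`, `v (det k⁻¹) ≤ se k⁻¹ ^ n` (`det_le`), so
`- (j/n) log v (det k) ≤ j log se k⁻¹`. For `j ≤ n`, `mu_pos` allows logarithms.
`abs_sh_le`: `sh v j g ≤ sh v j 1 + j len g` and `sh v j 1 ≤ sh v j g + j len g⁻¹`; `sh v j 1 = log mu v j 1`
is a constant. `le_Ph`: `log se g = log mu v 1 g = sh v 1 g + (1/n) log v (det g)`; the entries of `g⁻¹` are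
`± minors of order n - 1 / det g` (`Matrix.inv_def`, `Matrix.adjugate_fin_succ_eq_det_submatrix`), so
`log se g⁻¹ ≤ log (n ^ 2) + log mu v (n-1) g - log v (det g) = C + sh v (n-1) g - (1/n) log v (det g)`; the sum is
`≤ C + sh v 1 g + sh v (n-1) g ≤ C + 2 sqrt (Ph v g)`. (For `n = 1`: `len = 0`. For `n ≥ 2` both `1` and
`n - 1` are in `range n`.) `Ph_scalar`: `mu v j (A * c) = v c ^ j * mu v j A`.
-/

set_option autoImplicit false

open scoped MatrixGroups

namespace RDG

variable {F : Type*} [Field F]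

theorem G07_det_ne {n : ℕ} (A : GL (Fin n) F) : A.1.det ≠ 0 := by
  have h1 : (A⁻¹).1.det * A.1.det = 1 := by
    rw [← Matrix.det_mul, ← Units.val_mul, inv_mul_cancel, Units.val_one, Matrix.det_one]
  exact right_ne_zero_of_mul_eq_one h1

theorem G07_det_inv {n : ℕ} (v : AbsoluteValue F ℝ) (A : GL (Fin n) F) :
    Real.log (v (A⁻¹).1.det) = -Real.log (v A.1.det) := by
  have h1 : (A⁻¹).1.det * A.1.det = 1 := by
    rw [← Matrix.det_mul, ← Units.val_mul, inv_mul_cancel, Units.val_one, Matrix.det_one]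
  have h2 : v (A⁻¹).1.det = (v A.1.det)⁻¹ := by
    have h3 : v (A⁻¹).1.det * v A.1.det = 1 := by rw [← map_mul, h1, map_one]
    exact eq_inv_of_mul_eq_one_left h3
  rw [h2, Real.log_inv]

theorem G07_det_mul {n : ℕ} (v : AbsoluteValue F ℝ) (A B : GL (Fin n) F) :
    Real.log (v (A * B).1.det) = Real.log (v A.1.det) + Real.log (v B.1.det) := by
  rw [Units.val_mul, Matrix.det_mul, map_mul,
    Real.log_mul (v.ne_zero (G07_det_ne A)) (v.ne_zero (G07_det_ne B))]

theorem G07_log_det_le {n : ℕ} (v : AbsoluteValue F ℝ) (A : GL (Fin n) F) :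
    Real.log (v A.1.det) ≤ n * Real.log (se v A.1) := by
  have h1 := det_le v A.1
  have h2 := Real.log_le_log (v.pos (G07_det_ne A)) h1
  rwa [Real.log_pow] at h2

theorem G07_sh_zero (v : AbsoluteValue F ℝ) (A : GL (Fin 0) F) : sh v 0 A = 0 := by
  unfold sh
  rw [mu_zero]
  simp

theorem sh_mul_left {n : ℕ} (v : AbsoluteValue F ℝ) {j : ℕ} (hj : j ≤ n) (k A : GL (Fin n) F) :
    sh v j (k * A) ≤ sh v j A + j * len v k := by
  rcases Nat.eq_zero_or_pos n with hn | hn
  · subst hn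
    obtain rfl : j = 0 := by omega
    rw [G07_sh_zero, G07_sh_zero]
    simp
  · have hn' : (0 : ℝ) < n := by exact_mod_cast hn
    have hj0 : (0 : ℝ) ≤ j := Nat.cast_nonneg j
    have h1 : Real.log (mu v j (k * A).1) ≤ j * Real.log (se v k.1) + Real.log (mu v j A.1) := by
      rw [← Real.log_pow, ← Real.log_mul (pow_pos (se_pos hn v k) j).ne' (mu_pos v hj A).ne']
      exact Real.log_le_log (mu_pos v hj _) (mu_mul_left v j k.1 A.1)
    have h2 := G07_log_det_le v k⁻¹
    rw [G07_det_inv] at h2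
    have h3 : (j : ℝ) / n * -Real.log (v k.1.det) ≤ j / n * (n * Real.log (se v (k⁻¹).1)) :=
      mul_le_mul_of_nonneg_left h2 (div_nonneg hj0 hn'.le)
    have h4 : (j : ℝ) / n * (n * Real.log (se v (k⁻¹).1)) = j * Real.log (se v (k⁻¹).1) := by
      field_simp
    unfold sh len
    rw [G07_det_mul]
    linarith

theorem sh_mul_right {n : ℕ} (v : AbsoluteValue F ℝ) {j : ℕ} (hj : j ≤ n) (A k : GL (Fin n) F) :
    sh v j (A * k) ≤ sh v j A + j * len v k := by
  rcases Nat.eq_zero_or_pos n with hn | hn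
  · subst hn
    obtain rfl : j = 0 := by omega
    rw [G07_sh_zero, G07_sh_zero]
    simp
  · have hn' : (0 : ℝ) < n := by exact_mod_cast hn
    have hj0 : (0 : ℝ) ≤ j := Nat.cast_nonneg j
    have h1 : Real.log (mu v j (A * k).1) ≤ j * Real.log (se v k.1) + Real.log (mu v j A.1) := by
      rw [← Real.log_pow, ← Real.log_mul (pow_pos (se_pos hn v k) j).ne' (mu_pos v hj A).ne']
      exact Real.log_le_log (mu_pos v hj _) (mu_mul_right v j A.1 k.1)
    have h2 := G07_log_det_le v k⁻¹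
    rw [G07_det_inv] at h2
    have h3 : (j : ℝ) / n * -Real.log (v k.1.det) ≤ j / n * (n * Real.log (se v (k⁻¹).1)) :=
      mul_le_mul_of_nonneg_left h2 (div_nonneg hj0 hn'.le)
    have h4 : (j : ℝ) / n * (n * Real.log (se v (k⁻¹).1)) = j * Real.log (se v (k⁻¹).1) := by
      field_simp
    unfold sh len
    rw [G07_det_mul]
    linarith

theorem le_sh_mul_left {n : ℕ} (v : AbsoluteValue F ℝ) {j : ℕ} (hj : j ≤ n) (k A : GL (Fin n) F) :
    sh v j A - j * len v k ≤ sh v j (k * A) := by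
  have h1 := sh_mul_left v hj k⁻¹ (k * A)
  rw [inv_mul_cancel_left, len_inv] at h1
  linarith

theorem abs_sh_le {n : ℕ} (v : AbsoluteValue F ℝ) : ∃ C : ℝ, 1 ≤ C ∧
    ∀ (g : GL (Fin n) F) (j : ℕ), j ≤ n → |sh v j g| ≤ C * (1 + len v g) := by
  have hS : (0 : ℝ) ≤ ∑ j ∈ Finset.range (n + 1), |sh v j (1 : GL (Fin n) F)| :=
    Finset.sum_nonneg fun _ _ => abs_nonneg _
  have hn0 : (0 : ℝ) ≤ n := Nat.cast_nonneg n
  refine ⟨1 + n + ∑ j ∈ Finset.range (n + 1), |sh v j (1 : GL (Fin n) F)|, by linarith,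
    fun g j hj => ?_⟩
  have h1 := sh_mul_left v hj g 1
  have h2 := le_sh_mul_left v hj g 1
  rw [mul_one] at h1 h2
  have h3 : |sh v j (1 : GL (Fin n) F)| ≤
      ∑ j ∈ Finset.range (n + 1), |sh v j (1 : GL (Fin n) F)| :=
    Finset.single_le_sum (f := fun j => |sh v j (1 : GL (Fin n) F)|)
      (fun _ _ => abs_nonneg _) (Finset.mem_range.2 (by omega))
  have h4 := abs_le.1 h3
  have h5 := len_nonneg v g
  have h6 : (j : ℝ) ≤ n := by exact_mod_cast hj
  have h7 : (j : ℝ) * len v g ≤ n * len v g := mul_le_mul_of_nonneg_right h6 h5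
  have h8 : (0 : ℝ) ≤ (∑ j ∈ Finset.range (n + 1), |sh v j (1 : GL (Fin n) F)|) * len v g :=
    mul_nonneg hS h5
  rw [abs_le]
  constructor <;> nlinarith

theorem Ph_nonneg {n : ℕ} (v : AbsoluteValue F ℝ) (g : GL (Fin n) F) : 0 ≤ Ph v g :=
  Finset.sum_nonneg fun _ _ => sq_nonneg _

theorem Ph_le {n : ℕ} (v : AbsoluteValue F ℝ) : ∃ C : ℝ, 1 ≤ C ∧
    ∀ g : GL (Fin n) F, Ph v g ≤ C * (1 + len v g) ^ 2 := by
  obtain ⟨C, hC, h⟩ := abs_sh_le (n := n) v
  have hn0 : (0 : ℝ) ≤ n := Nat.cast_nonneg n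
  refine ⟨1 + n * C ^ 2, by nlinarith [sq_nonneg C, mul_nonneg hn0 (sq_nonneg C)], fun g => ?_⟩
  have h1 : ∀ j ∈ Finset.range n, sh v j g ^ 2 ≤ (C * (1 + len v g)) ^ 2 := by
    intro j hj
    have h2 := h g j (Finset.mem_range.1 hj).le
    rw [← sq_abs]
    exact pow_le_pow_left₀ (abs_nonneg _) h2 2
  have h3 := Finset.sum_le_sum h1
  rw [Finset.sum_const, Finset.card_range, nsmul_eq_mul] at h3
  unfold Ph
  have h5 : 0 ≤ (1 + len v g) ^ 2 := sq_nonneg _
  calc ∑ j ∈ Finset.range n, sh v j g ^ 2 ≤ n * (C * (1 + len v g)) ^ 2 := h3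
    _ = n * C ^ 2 * (1 + len v g) ^ 2 := by ring
    _ ≤ (1 + n * C ^ 2) * (1 + len v g) ^ 2 := by linarith

/-- the entries of the inverse matrix are minors of order `n - 1` divided by the determinant -/
theorem G07_inv_entry {n : ℕ} (v : AbsoluteValue F ℝ) (g : GL (Fin (n + 1)) F)
    (i j : Fin (n + 1)) : v ((g⁻¹).1 i j) ≤ mu v n g.1 / v g.1.det := by
  have h1 : (g⁻¹).1 = (g.1)⁻¹ := Matrix.coe_units_inv _
  rw [h1, Matrix.inv_def, Ring.inverse_eq_inv', Matrix.smul_apply, smul_eq_mul, map_mul, map_inv₀,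
    Matrix.adjugate_fin_succ_eq_det_submatrix, map_mul, map_pow, v.map_neg, map_one, one_pow,
    one_mul, mul_comm, ← div_eq_mul_inv]
  exact div_le_div_of_nonneg_right (le_mu v n g.1 _ _) (v.nonneg _)

theorem G07_se_inv {n : ℕ} (v : AbsoluteValue F ℝ) (g : GL (Fin (n + 1)) F) :
    Real.log (se v (g⁻¹).1) ≤ 2 * (n + 1) + (Real.log (mu v n g.1) - Real.log (v g.1.det)) := by
  have hn' : (0 : ℝ) < (n : ℝ) + 1 := by positivity
  have h1 : se v (g⁻¹).1 ≤ ((n : ℝ) + 1) * ((n : ℝ) + 1) * (mu v n g.1 / v g.1.det) := by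
    unfold se
    refine le_trans (Finset.sum_le_sum fun i _ => Finset.sum_le_sum fun j _ =>
      G07_inv_entry v g i j) ?_
    simp only [Finset.sum_const, Finset.card_univ, Fintype.card_fin, nsmul_eq_mul]
    push_cast
    rw [mul_assoc]
  have hmu : 0 < mu v n g.1 := mu_pos v (by omega) g
  have hdet : 0 < v g.1.det := v.pos (G07_det_ne g)
  have h2 := Real.log_le_log (se_pos (by omega) v g⁻¹) h1
  rw [Real.log_mul (by positivity) (by positivity), Real.log_mul hn'.ne' hn'.ne',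
    Real.log_div hmu.ne' hdet.ne'] at h2
  have h3 : Real.log ((n : ℝ) + 1) ≤ n + 1 := Real.log_le_self hn'.le
  linarith

theorem le_Ph {n : ℕ} (v : AbsoluteValue F ℝ) : ∃ C : ℝ, 1 ≤ C ∧
    ∀ g : GL (Fin n) F, len v g ≤ C * (1 + Real.sqrt (Ph v g)) := by
  refine ⟨2 * n + 2, by have : (0 : ℝ) ≤ n := Nat.cast_nonneg n; linarith, fun g => ?_⟩
  have hs := Real.sqrt_nonneg (Ph v g)
  rcases n with _ | _ | m
  · rw [G03_len_zero]
    positivity
  · have h1 : ∀ A : GL (Fin 1) F, se v A.1 = v A.1.det := by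
      intro A
      unfold se
      rw [Matrix.det_fin_one]
      simp
    have h2 : len v g = 0 := by
      unfold len
      rw [h1, h1, G07_det_inv]
      ring
    rw [h2]
    positivity
  · have hsh : ∀ j ∈ Finset.range (m + 2), sh v j g ≤ Real.sqrt (Ph v g) := by
      intro j hj
      apply Real.le_sqrt_of_sq_le
      exact Finset.single_le_sum (f := fun j => sh v j g ^ 2) (fun _ _ => sq_nonneg _) hj
    have h1 := hsh 1 (Finset.mem_range.2 (by omega))
    have h2 := hsh (m + 1) (Finset.mem_range.2 (by omega))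
    have h3 := G07_se_inv v g
    have hm : (0 : ℝ) < (m : ℝ) + 1 + 1 := by positivity
    have h4 : Real.log (se v g.1) = sh v 1 g + 1 / ((m : ℝ) + 1 + 1) * Real.log (v g.1.det) := by
      unfold sh
      rw [mu_one]
      push_cast
      ring
    have h5 : Real.log (mu v (m + 1) g.1) - Real.log (v g.1.det) =
        sh v (m + 1) g - 1 / ((m : ℝ) + 1 + 1) * Real.log (v g.1.det) := by
      unfold sh
      push_cast
      field_simp
      ring
    have h6 : len v g ≤ 2 * ((m : ℝ) + 1 + 1) + 2 * Real.sqrt (Ph v g) := by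
      unfold len
      have e : ((m + 1 : ℕ) : ℝ) = (m : ℝ) + 1 := by push_cast; ring
      rw [h5, e] at h3
      linarith
    push_cast
    nlinarith [mul_nonneg hm.le hs]

theorem Ph_mul {n : ℕ} (v : AbsoluteValue F ℝ) : ∃ C : ℝ, 1 ≤ C ∧
    ∀ k g : GL (Fin n) F, Ph v (k * g) ≤ Ph v g + C * (1 + len v k) ^ 2 * (1 + len v g) := by
  obtain ⟨C, hC, h⟩ := abs_sh_le (n := n) v
  have hn0 : (0 : ℝ) ≤ n := Nat.cast_nonneg n
  refine ⟨1 + n * (2 * C * n + n ^ 2), by
    have : (0 : ℝ) ≤ n * (2 * C * n + n ^ 2) := by positivity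
    linarith, fun k g => ?_⟩
  have hk := len_nonneg v k
  have hg := len_nonneg v g
  have h1 : ∀ j ∈ Finset.range n, sh v j (k * g) ^ 2 ≤ sh v j g ^ 2 +
      (2 * C * n + n ^ 2) * ((1 + len v k) ^ 2 * (1 + len v g)) := by
    intro j hj
    have hj' := (Finset.mem_range.1 hj).le
    have h2 := h g j hj'
    have h3 := sh_mul_left v hj' k g
    have h4 := le_sh_mul_left v hj' k g
    have h5 : (j : ℝ) ≤ n := by exact_mod_cast hj'
    have h6 : (j : ℝ) * len v k ≤ n * len v k := mul_le_mul_of_nonneg_right h5 hk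
    have h7 : |sh v j (k * g) - sh v j g| ≤ n * len v k := by
      rw [abs_le]
      constructor <;> linarith
    have h8 : sh v j (k * g) ^ 2 = sh v j g ^ 2 + 2 * sh v j g * (sh v j (k * g) - sh v j g) +
        (sh v j (k * g) - sh v j g) ^ 2 := by ring
    have h9 : 2 * sh v j g * (sh v j (k * g) - sh v j g) ≤
        2 * (C * (1 + len v g)) * (n * len v k) := by
      calc 2 * sh v j g * (sh v j (k * g) - sh v j g) ≤
          |2 * sh v j g * (sh v j (k * g) - sh v j g)| := le_abs_self _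
        _ = 2 * |sh v j g| * |sh v j (k * g) - sh v j g| := by
          rw [abs_mul, abs_mul, abs_of_pos (by norm_num : (0 : ℝ) < 2)]
        _ ≤ 2 * (C * (1 + len v g)) * (n * len v k) := by
          apply mul_le_mul _ h7 (abs_nonneg _) (by positivity)
          linarith
    have h10 : (sh v j (k * g) - sh v j g) ^ 2 ≤ (n * len v k) ^ 2 := by
      rw [← sq_abs]
      exact pow_le_pow_left₀ (abs_nonneg _) h7 2
    have h11 : len v k ≤ (1 + len v k) ^ 2 := by nlinarith
    have h12 : len v k ^ 2 ≤ (1 + len v k) ^ 2 := by nlinarith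
    have h13 : 2 * (C * (1 + len v g)) * (n * len v k) ≤
        (2 * C * n) * ((1 + len v k) ^ 2 * (1 + len v g)) := by
      have e1 : 2 * (C * (1 + len v g)) * (n * len v k) =
        (2 * C * n) * (len v k * (1 + len v g)) := by ring
      rw [e1]
      apply mul_le_mul_of_nonneg_left _ (by positivity)
      exact mul_le_mul_of_nonneg_right h11 (by positivity)
    have h14 : (n * len v k) ^ 2 ≤ (n : ℝ) ^ 2 * ((1 + len v k) ^ 2 * (1 + len v g)) := by
      rw [mul_pow]
      apply mul_le_mul_of_nonneg_left _ (by positivity)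
      nlinarith [mul_nonneg (sq_nonneg (1 + len v k)) hg]
    rw [h8]
    linarith
  have h2 := Finset.sum_le_sum h1
  rw [Finset.sum_add_distrib, Finset.sum_const, Finset.card_range, nsmul_eq_mul] at h2
  unfold Ph
  have h3 : (0 : ℝ) ≤ (1 + len v k) ^ 2 * (1 + len v g) := by positivity
  calc ∑ j ∈ Finset.range n, sh v j (k * g) ^ 2 ≤ _ := h2
    _ ≤ ∑ j ∈ Finset.range n, sh v j g ^ 2 +
        (1 + n * (2 * C * n + n ^ 2)) * (1 + len v k) ^ 2 * (1 + len v g) := by
      linarith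

theorem Ph_scalar {n : ℕ} (v : AbsoluteValue F ℝ) (A : GL (Fin n) F) (c : Fˣ) :
    Ph v (A * dg fun _ => c) = Ph v A := by
  have hc : v (c : F) ≠ 0 := v.ne_zero c.ne_zero
  have key : ∀ j ∈ Finset.range n, sh v j (A * dg fun _ => c) = sh v j A := by
    intro j hj
    have hj' := Finset.mem_range.1 hj
    have hn' : (n : ℝ) ≠ 0 := by
      have : n ≠ 0 := by omega
      exact_mod_cast this
    have h0 : ∀ I J : Fin j → Fin n, ((A * dg fun _ => c).1.submatrix I J) =
        (c : F) • (A.1.submatrix I J) := by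
      intro I J
      ext a b
      rw [Matrix.submatrix_apply, Units.val_mul, dg_val, Matrix.mul_diagonal, Matrix.smul_apply,
        Matrix.submatrix_apply, smul_eq_mul, mul_comm]
    have h1 : mu v j (A * dg fun _ => c).1 = v (c : F) ^ j * mu v j A.1 := by
      unfold mu
      rw [Finset.mul_sum]
      refine Finset.sum_congr rfl fun I _ => ?_
      rw [Finset.mul_sum]
      refine Finset.sum_congr rfl fun J _ => ?_
      rw [h0, Matrix.det_smul, Fintype.card_fin, map_mul, map_pow]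
    have h2 : Real.log (v (dg fun _ : Fin n => c).1.det) = n * Real.log (v (c : F)) := by
      rw [dg_val, Matrix.det_diagonal, Finset.prod_const, Finset.card_univ, Fintype.card_fin,
        map_pow, Real.log_pow]
    unfold sh
    rw [h1, G07_det_mul, h2, Real.log_mul (pow_ne_zero _ hc) (mu_pos v hj'.le A).ne',
      Real.log_pow]
    field_simp
    ring
  unfold Ph
  exact Finset.sum_congr rfl fun j hj => by rw [key j hj]

end RDG
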