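import Mathlib
import Pool.Agent.Lib.MP_fee02f_an.GG.G06
import Pool.Agent.Lib.MP_fee02f_an.GG.G07

/-!
# G08: multiplication by diagonal matrices

`nested_diag`: let `w`, `w'` be as in `nested` for `c`. `(dg E * c).submatrix I J` has determinant
`(∏ i, E (I i)) * det (c.submatrix I J)` (`Matrix.det_mul_column` / `det_mul_row`), so
`mu v j (dg E * c) ≥ (∏ i < j, v (E (w i))) * mu v j c / C`; take logarithms and subtract
`(j/n) (∑ i log v (E i) + log v (det c))`. `hh_neg` trivial. `hh_sq`: with `H i = log v (E i)` and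
`M = (∑ H) / n`: `H (w i) - M = hh (i+1) - hh i` for `i < n`, `hh 0 = 0 = hh n`, so
`(H i - H k) ^ 2 ≤ 2 (..)^2 + 2 (..)^2 ≤ 8 * ∑ j < n, hh j ^ 2` (up to the constant).
-/

set_option autoImplicit false

open scoped MatrixGroups

namespace RDG

variable {F : Type*} [Field F]

theorem G08_sum {n : ℕ} (f : Fin n → ℝ) {j : ℕ} (hj : j ≤ n) :
    ∑ i : Fin j, f (Fin.castLE hj i) = ∑ i : Fin n, if (i : ℕ) < j then f i else 0 := by
  rw [← Finset.sum_filter (s := (Finset.univ : Finset (Fin n))) (fun i : Fin n => (i : ℕ) < j) f]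
  refine Finset.sum_bij (fun i _ => Fin.castLE hj i) ?_ ?_ ?_ ?_
  · intro i _
    rw [Finset.mem_filter]
    exact ⟨Finset.mem_univ _, i.2⟩
  · intro a _ b _ hab
    exact Fin.castLE_injective hj hab
  · intro b hb
    rw [Finset.mem_filter] at hb
    exact ⟨⟨b, hb.2⟩, Finset.mem_univ _, Fin.ext rfl⟩
  · intro i _
    rfl

theorem G08_vpos (v : AbsoluteValue F ℝ) (x : Fˣ) : 0 < v (x : F) := v.pos x.ne_zero

theorem G08_det_ne {n : ℕ} (c : GL (Fin n) F) : c.1.det ≠ 0 := by
  have h : c.1.det * (c⁻¹).1.det = 1 := by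
    rw [← Matrix.det_mul, ← Units.val_mul, mul_inv_cancel, Units.val_one, Matrix.det_one]
  exact left_ne_zero_of_mul_eq_one h

theorem nested_diag {n : ℕ} (v : AbsoluteValue F ℝ) : ∃ C : ℝ, 1 ≤ C ∧ ∀ c : GL (Fin n) F,
    ∃ w : Equiv.Perm (Fin n), ∀ (E : Fin n → Fˣ) (j : ℕ), j ≤ n →
      sh v j c + hh v E w j - C ≤ sh v j (dg E * c) := by
  obtain ⟨C, hC, hn⟩ := nested (n := n) v
  have hlC : 0 ≤ Real.log C := Real.log_nonneg hC
  refine ⟨1 + Real.log C, by linarith, fun c => ?_⟩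
  obtain ⟨w, w', hw⟩ := hn c
  refine ⟨w, fun E j hj => ?_⟩
  have h1 := hw j hj
  set B := c.1.submatrix (fun i : Fin j => w (Fin.castLE hj i))
        (fun i : Fin j => w' (Fin.castLE hj i)) with hB
  have hmu : 0 < mu v j c.1 := mu_pos v hj c
  have hC0 : 0 < C := by linarith
  have hvB : 0 < v B.det := by
    by_contra h
    have : v B.det = 0 := le_antisymm (not_lt.1 h) (v.nonneg _)
    rw [this, mul_zero] at h1
    linarith
  -- the submatrix of the product
  have hsub : (dg E * c).1.submatrix (fun i : Fin j => w (Fin.castLE hj i))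
        (fun i : Fin j => w' (Fin.castLE hj i)) =
      Matrix.diagonal (fun i : Fin j => ((E (w (Fin.castLE hj i)) : Fˣ) : F)) * B := by
    ext a b
    rw [Matrix.submatrix_apply, Units.val_mul, dg_val, Matrix.diagonal_mul, Matrix.diagonal_mul, hB,
      Matrix.submatrix_apply]
  have hdet : v ((dg E * c).1.submatrix (fun i : Fin j => w (Fin.castLE hj i))
        (fun i : Fin j => w' (Fin.castLE hj i))).det =
      (∏ i : Fin j, v ((E (w (Fin.castLE hj i)) : Fˣ) : F)) * v B.det := by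
    rw [hsub, Matrix.det_mul, Matrix.det_diagonal, map_mul, map_prod]
  have h2 := le_mu v j (dg E * c).1 (fun i : Fin j => w (Fin.castLE hj i))
        (fun i : Fin j => w' (Fin.castLE hj i))
  rw [hdet] at h2
  have hprod : 0 < ∏ i : Fin j, v ((E (w (Fin.castLE hj i)) : Fˣ) : F) :=
    Finset.prod_pos fun i _ => G08_vpos v _
  have h3 := Real.log_le_log (mul_pos hprod hvB) h2
  rw [Real.log_mul hprod.ne' hvB.ne', Real.log_prod (fun i _ => (G08_vpos v _).ne')] at h3
  have h4 := Real.log_le_log hmu h1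
  rw [Real.log_mul hC0.ne' hvB.ne'] at h4
  have h5 := G08_sum (fun i : Fin n => Real.log (v ((E (w i) : Fˣ) : F))) hj
  have hdE : 0 < ∏ i, v ((E i : Fˣ) : F) := Finset.prod_pos fun i _ => G08_vpos v _
  have hdc : 0 < v c.1.det := v.pos (G08_det_ne c)
  have h6 : Real.log (v (dg E * c).1.det) =
      ∑ i, Real.log (v ((E i : Fˣ) : F)) + Real.log (v c.1.det) := by
    rw [Units.val_mul, Matrix.det_mul, dg_val, Matrix.det_diagonal, map_mul, map_prod,
      Real.log_mul hdE.ne' hdc.ne', Real.log_prod (fun i _ => (G08_vpos v _).ne')]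
  unfold sh hh
  rw [h6, ← h5]
  have e : (j : ℝ) / n * (∑ i, Real.log (v ((E i : Fˣ) : F)) + Real.log (v c.1.det)) =
      (j : ℝ) / n * (∑ i, Real.log (v ((E i : Fˣ) : F))) + (j : ℝ) / n * Real.log (v c.1.det) := by
    ring
  rw [e]
  linarith

theorem hh_inv {n : ℕ} (v : AbsoluteValue F ℝ) (E : Fin n → Fˣ) (w : Equiv.Perm (Fin n)) (j : ℕ) :
    hh v (fun i => (E i)⁻¹) w j = - hh v E w j := by
  have h : ∀ x : Fˣ, Real.log (v ((x⁻¹ : Fˣ) : F)) = -Real.log (v (x : F)) := by
    intro x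
    rw [Units.val_inv_eq_inv_val, map_inv₀, Real.log_inv]
  unfold hh
  have h1 : ∑ i : Fin n, (if (i : ℕ) < j then Real.log (v (((E (w i))⁻¹ : Fˣ) : F)) else 0) =
      -∑ i : Fin n, (if (i : ℕ) < j then Real.log (v ((E (w i) : Fˣ) : F)) else 0) := by
    rw [← Finset.sum_neg_distrib]
    refine Finset.sum_congr rfl fun i _ => ?_
    split_ifs
    · exact h _
    · rw [neg_zero]
  have h2 : ∑ i : Fin n, Real.log (v (((E i)⁻¹ : Fˣ) : F)) =
      -∑ i : Fin n, Real.log (v ((E i : Fˣ) : F)) := by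
    rw [← Finset.sum_neg_distrib]
    exact Finset.sum_congr rfl fun i _ => h _
  rw [h1, h2]
  ring

theorem G08_diff {n : ℕ} (v : AbsoluteValue F ℝ) (E : Fin n → Fˣ) (w : Equiv.Perm (Fin n))
    (k : Fin n) : hh v E w ((k : ℕ) + 1) - hh v E w (k : ℕ) =
      Real.log (v (E (w k) : F)) - (∑ i, Real.log (v (E i : F))) / n := by
  unfold hh
  have h : ∑ i : Fin n, (if (i : ℕ) < (k : ℕ) + 1 then Real.log (v (E (w i) : F)) else 0) =
      (∑ i : Fin n, (if (i : ℕ) < (k : ℕ) then Real.log (v (E (w i) : F)) else 0)) +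
        Real.log (v (E (w k) : F)) := by
    have h1 : ∑ i : Fin n, (if i = k then Real.log (v (E (w i) : F)) else 0) =
        Real.log (v (E (w k) : F)) := by
      rw [Finset.sum_ite_eq' Finset.univ k]
      simp
    rw [← h1, ← Finset.sum_add_distrib]
    refine Finset.sum_congr rfl fun i _ => ?_
    by_cases h2 : i = k
    · subst h2
      rw [if_pos (Nat.lt_succ_self _), if_neg (lt_irrefl _), if_pos rfl, zero_add]
    · have h3 : (i : ℕ) ≠ k := fun h => h2 (Fin.ext h)
      rw [if_neg h2, add_zero]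
      by_cases h4 : (i : ℕ) < k
      · rw [if_pos (by omega), if_pos h4]
      · rw [if_neg (by omega), if_neg h4]
  rw [h]
  push_cast
  ring

theorem G08_le {n : ℕ} (v : AbsoluteValue F ℝ) (E : Fin n → Fˣ) (w : Equiv.Perm (Fin n))
    (m : ℕ) (hm : m ≤ n) (hn : 0 < n) :
    hh v E w m ^ 2 ≤ ∑ j ∈ Finset.range n, hh v E w j ^ 2 := by
  rcases hm.eq_or_lt with h | h
  · have h0 : hh v E w m = 0 := by
      unfold hh
      subst h
      have h1 : ∑ i : Fin m, (if (i : ℕ) < m then Real.log (v (E (w i) : F)) else 0) =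
          ∑ i : Fin m, Real.log (v (E i : F)) := by
        have h2 : ∀ i : Fin m, (if (i : ℕ) < m then Real.log (v (E (w i) : F)) else 0) =
            Real.log (v (E (w i) : F)) := fun i => if_pos i.2
        rw [Finset.sum_congr rfl fun i _ => h2 i]
        exact Equiv.sum_comp w (fun i => Real.log (v (E i : F)))
      have h3 : (m : ℝ) ≠ 0 := by
        have : (0 : ℝ) < m := by exact_mod_cast hn
        exact this.ne'
      rw [h1, div_self h3, one_mul, sub_self]
    rw [h0]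
    have : (0 : ℝ) ≤ ∑ j ∈ Finset.range n, hh v E w j ^ 2 := Finset.sum_nonneg fun j _ => sq_nonneg _
    simpa using this
  · exact Finset.single_le_sum (f := fun j => hh v E w j ^ 2) (fun j _ => sq_nonneg _)
      (Finset.mem_range.2 h)

theorem hh_sq {n : ℕ} (v : AbsoluteValue F ℝ) (E : Fin n → Fˣ) (w : Equiv.Perm (Fin n))
    (i k : Fin n) : (Real.log (v (E i : F)) - Real.log (v (E k : F))) ^ 2 ≤
      16 * ∑ j ∈ Finset.range n, hh v E w j ^ 2 := by
  have hn : 0 < n := i.pos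
  obtain ⟨a, rfl⟩ := w.surjective i
  obtain ⟨b, rfl⟩ := w.surjective k
  have h1 := G08_diff v E w a
  have h2 := G08_diff v E w b
  have e : Real.log (v (E (w a) : F)) - Real.log (v (E (w b) : F)) =
      (hh v E w ((a : ℕ) + 1) - hh v E w (a : ℕ)) - (hh v E w ((b : ℕ) + 1) - hh v E w (b : ℕ)) := by
    rw [h1, h2]
    ring
  rw [e]
  have g1 := G08_le v E w ((a : ℕ) + 1) a.2 hn
  have g2 := G08_le v E w (a : ℕ) a.2.le hn
  have g3 := G08_le v E w ((b : ℕ) + 1) b.2 hn
  have g4 := G08_le v E w (b : ℕ) b.2.le hn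
  nlinarith [sq_nonneg (hh v E w ((a : ℕ) + 1) + hh v E w (a : ℕ)),
    sq_nonneg (hh v E w ((b : ℕ) + 1) + hh v E w (b : ℕ)),
    sq_nonneg ((hh v E w ((a : ℕ) + 1) - hh v E w (a : ℕ)) +
      (hh v E w ((b : ℕ) + 1) - hh v E w (b : ℕ)))]

end RDG
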