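import Mathlib
import Pool.Agent.Lib.MP_fee02f_an.GG.G04
import Pool.Agent.Lib.MP_fee02f_an.GG.G08

/-!
# G09: the midpoint inequality for the projective potential

REAL LEMMA `two_sq`: case `|h| ≤ s`: both `s ± h - C` bounds squared (with errors); case `s < |h|`, say
`h > 0`: `a ≥ s + h - C`, `(s + h)^2 ≥ 2 s^2 + h^2` if `0 ≤ s ≤ h` (`s ≥ -C`), drop `b`.
`mid_ph`: `c = A * dg D * B`, `m = A * dg E`. For `x` let `c0 = m⁻¹ * x`, `w` from `nested_diag` for `c0`.
`x = A * (dg E * c0)`: `sh v j x ≥ sh v j (dg E * c0) - j C` (`le_sh_mul_left`)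
`≥ sh v j c0 + hh E w j - C'`; `c⁻¹ x = B⁻¹ * (dg D⁻¹ * dg E) * c0 = B⁻¹ * dg (D⁻¹ E ^ 2) * (dg E⁻¹ * c0)` with
`len (dg (D⁻¹ E^2)) ≤ C` (`ln_dg_le`): `sh v j (c⁻¹ x) ≥ sh v j c0 - hh E w j - C'`. All of `sh v j _ ≥ - C'`
(`sh_ge`). `two_sq` for each `j < n`, error `1 + |sh v j c0| ≤ C (1 + len c0)`, `len c0 ≤ len x + len m`,
`len m ≤ C + len (dg E) ≤ C (1 + len c)` (`le_len_dg`, `len (dg D) ≤ 2 C + len c`). Finally `hh_sq` and
`len c ≤ 2 C + len (dg D) ≤ C' + 2 max (log v (E i) - log v (E k))` (`len_dg`; for `n = 0`: `len c = 0`).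
-/

set_option autoImplicit false

open scoped MatrixGroups

namespace RDG

variable {F : Type*} [Field F]

/-- the case `0 ≤ h` -/
theorem G09_two_sq_aux (C : ℝ) (hC : 0 ≤ C) (a b s h : ℝ) (_ha : -C ≤ a) (_hb : -C ≤ b) (hs : -C ≤ s)
    (h1 : s + h - C ≤ a) (h2 : s - h - C ≤ b) (hh : 0 ≤ h) :
    2 * s ^ 2 + h ^ 2 / 2 - (20 * C ^ 2 + 20 * C) * (1 + |s|) ≤ a ^ 2 + b ^ 2 := by
  have hs0 : 0 ≤ |s| := abs_nonneg s
  have hsq : |s| ^ 2 = s ^ 2 := sq_abs s
  have hs1 : s ≤ |s| := le_abs_self s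
  have hs2 : -s ≤ |s| := neg_le_abs s
  have hC2 : 0 ≤ C ^ 2 := sq_nonneg C
  have hCs : 0 ≤ C * |s| := mul_nonneg hC hs0
  have hC2s : 0 ≤ C ^ 2 * |s| := mul_nonneg hC2 hs0
  -- the bound for `a`
  have hA : (s + h) ^ 2 - 2 * C * |s + h| - C ^ 2 ≤ a ^ 2 := by
    by_cases h3 : C ≤ s + h
    · have h4 : 0 ≤ s + h - C := by linarith
      have h5 : (s + h - C) ^ 2 ≤ a ^ 2 := by
        apply pow_le_pow_left₀ h4 h1
      have h6 : s + h ≤ |s + h| := le_abs_self _
      nlinarith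
    · push Not at h3
      have h4 : -C ≤ s + h := by linarith
      have h5 : (s + h) ^ 2 ≤ C ^ 2 := by
        apply sq_le_sq'
        · linarith
        · linarith
      have h6 : 0 ≤ C * |s + h| := mul_nonneg hC (abs_nonneg _)
      nlinarith [sq_nonneg a]
  have hpabs : |s + h| ≤ |s| + h := by
    calc |s + h| ≤ |s| + |h| := abs_add_le _ _
      _ = |s| + h := by rw [abs_of_nonneg hh]
  have hCp : C * |s + h| ≤ C * (|s| + h) := mul_le_mul_of_nonneg_left hpabs hC
  by_cases h7 : -C ≤ s - h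
  · have hB : (s - h) ^ 2 - 2 * C * |s - h| - C ^ 2 ≤ b ^ 2 := by
      by_cases h3 : C ≤ s - h
      · have h4 : 0 ≤ s - h - C := by linarith
        have h5 : (s - h - C) ^ 2 ≤ b ^ 2 := by
          apply pow_le_pow_left₀ h4 h2
        have h6 : s - h ≤ |s - h| := le_abs_self _
        nlinarith
      · push Not at h3
        have h5 : (s - h) ^ 2 ≤ C ^ 2 := by
          apply sq_le_sq'
          · linarith
          · linarith
        have h6 : 0 ≤ C * |s - h| := mul_nonneg hC (abs_nonneg _)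
        nlinarith [sq_nonneg b]
    have hqabs : |s - h| ≤ |s| + h := by
      calc |s - h| ≤ |s| + |h| := abs_sub _ _
        _ = |s| + h := by rw [abs_of_nonneg hh]
    have hCq : C * |s - h| ≤ C * (|s| + h) := mul_le_mul_of_nonneg_left hqabs hC
    have hhs : h ≤ |s| + C := by linarith
    have hCh : C * h ≤ C * (|s| + C) := mul_le_mul_of_nonneg_left hhs hC
    nlinarith [sq_nonneg h]
  · push Not at h7
    have hb2 : 0 ≤ b ^ 2 := sq_nonneg b
    have h8 : s + C < h := by linarith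
    by_cases hs3 : 0 ≤ s
    · have h9 : s * (s + C) ≤ s * h := mul_le_mul_of_nonneg_left h8.le hs3
      have h10 : 0 ≤ C * s := mul_nonneg hC hs3
      have h11 : |s| = s := abs_of_nonneg hs3
      rw [h11] at hCp ⊢
      rw [h11] at hC2s
      nlinarith [sq_nonneg (h / 2 - 2 * C), sq_nonneg (s - C), sq_nonneg (h - 2 * C)]
    · push Not at hs3
      have h11 : |s| = -s := abs_of_neg hs3
      have h12 : -C * h ≤ s * h := mul_le_mul_of_nonneg_right hs hh
      have h13 : s ^ 2 ≤ C ^ 2 := by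
        apply sq_le_sq'
        · linarith
        · linarith
      have h14 : C * |s| ≤ C * C := by
        apply mul_le_mul_of_nonneg_left _ hC
        rw [h11]; linarith
      nlinarith [sq_nonneg (h - 8 * C), sq_nonneg (h - 4 * C)]

theorem two_sq (C : ℝ) (hC : 0 ≤ C) : ∃ C' : ℝ, 0 ≤ C' ∧ ∀ a b s h : ℝ, -C ≤ a → -C ≤ b → -C ≤ s →
    s + h - C ≤ a → s - h - C ≤ b → 2 * s ^ 2 + h ^ 2 / 2 - C' * (1 + |s|) ≤ a ^ 2 + b ^ 2 := by
  refine ⟨20 * C ^ 2 + 20 * C, by positivity, ?_⟩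
  intro a b s h ha hb hs h1 h2
  by_cases hh : 0 ≤ h
  · exact G09_two_sq_aux C hC a b s h ha hb hs h1 h2 hh
  · push Not at hh
    have h3 := G09_two_sq_aux C hC b a s (-h) hb ha hs (by linarith) (by linarith) (by linarith)
    have h4 : (-h) ^ 2 = h ^ 2 := by ring
    rw [h4] at h3
    linarith

theorem G09_len_zero (v : AbsoluteValue F ℝ) (A : GL (Fin 0) F) : len v A = 0 := by
  unfold len se
  simp

theorem G09_len_mul3 {n : ℕ} (v : AbsoluteValue F ℝ) (A B X : GL (Fin n) F) :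
    len v (A * X * B) ≤ len v A + len v B + len v X := by
  have h1 := len_mul_le v (A * X) B
  have h2 := len_mul_le v A X
  linarith

theorem mid_ph {n : ℕ} (v : AbsoluteValue F ℝ) (C₀ : ℝ) : ∃ C : ℝ, 1 ≤ C ∧
    ∀ (A B : GL (Fin n) F) (D E : Fin n → Fˣ), len v A ≤ C₀ → len v B ≤ C₀ →
      (∀ i, |2 * Real.log (v (E i : F)) - Real.log (v (D i : F))| ≤ C₀) → ∀ x : GL (Fin n) F,
      2 * Ph v ((A * dg E)⁻¹ * x) + len v (A * dg D * B) ^ 2 / C ≤
        Ph v x + Ph v ((A * dg D * B)⁻¹ * x) + C * (1 + len v x + len v (A * dg D * B)) := by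
  rcases Nat.eq_zero_or_pos n with hn | hn
  · subst hn
    refine ⟨1, le_refl _, ?_⟩
    intro A B D E _ _ _ x
    have h1 : ∀ g : GL (Fin 0) F, Ph v g = 0 := by
      intro g
      unfold Ph
      simp
    rw [h1, h1, h1, G09_len_zero, G09_len_zero]
    norm_num
  obtain ⟨C1, hC1, hnd⟩ := nested_diag (n := n) v
  obtain ⟨C2, hC2, hge⟩ := sh_ge (n := n) v
  obtain ⟨C4, hC4, habs⟩ := abs_sh_le (n := n) v
  set c₀ : ℝ := |C₀| with hc₀
  have hc0 : 0 ≤ c₀ := abs_nonneg _
  have hCc : C₀ ≤ c₀ := le_abs_self _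
  set L : ℝ := 2 * n + (n + 2) * c₀ with hL
  have hn0 : (0 : ℝ) ≤ n := Nat.cast_nonneg n
  have hL0 : 0 ≤ L := by positivity
  set C5 : ℝ := C1 + C2 + n * (c₀ + L) with hC5
  have hC50 : 0 ≤ C5 := by
    have : 0 ≤ n * (c₀ + L) := by positivity
    linarith
  obtain ⟨C', hC'0, hsq⟩ := two_sq C5 hC50
  set K : ℝ := 4 * c₀ + 2 * n with hK
  have hK0 : 0 ≤ K := by positivity
  set M : ℝ := C' * n * (1 + C4 * (1 + 3 * c₀ + 2 * n)) with hM
  have hC40 : 0 ≤ C4 := by linarith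
  have hM0 : 0 ≤ M := by positivity
  refine ⟨256 + K ^ 2 + M, by nlinarith [sq_nonneg K], ?_⟩
  intro A B D E hA hB hDE x
  have hA' : len v A ≤ c₀ := le_trans hA hCc
  have hB' : len v B ≤ c₀ := le_trans hB hCc
  have hDE' : ∀ i, |2 * Real.log (v (E i : F)) - Real.log (v (D i : F))| ≤ c₀ :=
    fun i => le_trans (hDE i) hCc
  set c : GL (Fin n) F := A * dg D * B with hc
  set m : GL (Fin n) F := A * dg E with hm
  set y : GL (Fin n) F := m⁻¹ * x with hy
  obtain ⟨w, hw⟩ := hnd y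
  have hx : x = A * (dg E * y) := by
    rw [hy, hm]; group
  -- the diagonal matrix `D⁻¹ E²`
  have hG : ln v (dg fun i => (D i)⁻¹ * E i * E i) ≤ L := by
    apply ln_dg_le v _ c₀ hc0
    intro i
    have hvD : v (D i : F) ≠ 0 := by
      rw [ne_eq, AbsoluteValue.eq_zero]; exact (D i).ne_zero
    have hvE : v (E i : F) ≠ 0 := by
      rw [ne_eq, AbsoluteValue.eq_zero]; exact (E i).ne_zero
    have h3 : Real.log (v (((D i)⁻¹ * E i * E i : Fˣ) : F)) =
        2 * Real.log (v (E i : F)) - Real.log (v (D i : F)) := by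
      rw [Units.val_mul, Units.val_mul, Units.val_inv_eq_inv_val, map_mul, map_mul, map_inv₀,
        Real.log_mul (mul_ne_zero (inv_ne_zero hvD) hvE) hvE,
        Real.log_mul (inv_ne_zero hvD) hvE, Real.log_inv]
      ring
    rw [h3]
    exact hDE' i
  have hG' : len v (dg fun i => (D i)⁻¹ * E i * E i) ≤ L := le_trans (len_le_ln v _) hG
  have hcx : c⁻¹ * x = B⁻¹ * ((dg fun i => (D i)⁻¹ * E i * E i) * ((dg fun i => (E i)⁻¹) * y)) := by
    have h4 : (dg fun i => (D i)⁻¹ * E i * E i) * (dg fun i => (E i)⁻¹) =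
        (dg D)⁻¹ * dg E := by
      rw [dg_inv, dg_mul, dg_mul]
      congr 1
      funext i
      simp
    rw [← mul_assoc (dg fun i => (D i)⁻¹ * E i * E i), h4]
    rw [hc, hy, hm]
    group
  -- termwise inequality
  have hterm : ∀ j ∈ Finset.range n, 2 * sh v j y ^ 2 + hh v E w j ^ 2 / 2 - C' * (1 + |sh v j y|)
      ≤ sh v j x ^ 2 + sh v j (c⁻¹ * x) ^ 2 := by
    intro j hj
    have hjn : j ≤ n := (Finset.mem_range.mp hj).le
    have hjn' : (j : ℝ) ≤ n := by exact_mod_cast hjn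
    have hj0 : (0 : ℝ) ≤ j := Nat.cast_nonneg j
    have hlA := len_nonneg v A
    have hlB := len_nonneg v B
    have hn1 : n * (c₀ + L) = n * c₀ + n * L := by ring
    have hnL : 0 ≤ (n : ℝ) * L := mul_nonneg hn0 hL0
    have hnc : 0 ≤ (n : ℝ) * c₀ := mul_nonneg hn0 hc0
    have hx1 : sh v j y + hh v E w j - C5 ≤ sh v j x := by
      have h5 := hw E j hjn
      have h6 := le_sh_mul_left v hjn A (dg E * y)
      rw [← hx] at h6
      have h7 : (j : ℝ) * len v A ≤ n * c₀ := mul_le_mul hjn' hA' hlA hn0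
      rw [hC5]
      linarith
    have hx2 : sh v j y - hh v E w j - C5 ≤ sh v j (c⁻¹ * x) := by
      have h5 := hw (fun i => (E i)⁻¹) j hjn
      rw [hh_inv] at h5
      have h6 := le_sh_mul_left v hjn (dg fun i => (D i)⁻¹ * E i * E i) ((dg fun i => (E i)⁻¹) * y)
      have h8 := le_sh_mul_left v hjn B⁻¹
        ((dg fun i => (D i)⁻¹ * E i * E i) * ((dg fun i => (E i)⁻¹) * y))
      rw [← hcx, len_inv] at h8
      have h7 : (j : ℝ) * len v B ≤ n * c₀ := mul_le_mul hjn' hB' hlB hn0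
      have h9 : (j : ℝ) * len v (dg fun i => (D i)⁻¹ * E i * E i) ≤ n * L :=
        mul_le_mul hjn' hG' (len_nonneg v _) hn0
      rw [hC5]
      linarith
    have hg : ∀ g : GL (Fin n) F, -C5 ≤ sh v j g := by
      intro g
      have h5 := hge g j hjn
      rw [hC5]
      linarith
    exact hsq _ _ _ _ (hg _) (hg _) (hg _) hx1 hx2
  have hsum := Finset.sum_le_sum hterm
  have hPx : ∑ j ∈ Finset.range n, (sh v j x ^ 2 + sh v j (c⁻¹ * x) ^ 2) = Ph v x + Ph v (c⁻¹ * x) := by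
    rw [Finset.sum_add_distrib]; rfl
  rw [hPx] at hsum
  have hPy : ∑ j ∈ Finset.range n, (2 * sh v j y ^ 2 + hh v E w j ^ 2 / 2 - C' * (1 + |sh v j y|)) =
      2 * Ph v y + (∑ j ∈ Finset.range n, hh v E w j ^ 2) / 2
        - C' * ∑ j ∈ Finset.range n, (1 + |sh v j y|) := by
    unfold Ph
    rw [Finset.sum_sub_distrib, Finset.sum_add_distrib, Finset.mul_sum, Finset.mul_sum,
      Finset.sum_div]
  rw [hPy] at hsum
  -- error terms
  have hly : len v y ≤ len v x + len v c + 3 * c₀ + 2 * n := by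
    have h1 : len v y ≤ len v m + len v x := by
      have := len_mul_le v m⁻¹ x
      rw [len_inv] at this
      exact this
    have h2 : len v m ≤ len v A + len v (dg E) := len_mul_le v A (dg E)
    obtain ⟨i, k, hik⟩ := len_dg hn v E
    have h3 : len v (dg D) ≤ 2 * c₀ + len v c := by
      have h4 : dg D = A⁻¹ * c * B⁻¹ := by rw [hc]; group
      have h5 := G09_len_mul3 v A⁻¹ B⁻¹ c
      rw [← h4, len_inv, len_inv] at h5
      linarith
    have h6 := le_len_dg v D i k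
    have h7 := (abs_le.mp (hDE' i)).2
    have h8 := (abs_le.mp (hDE' k)).1
    have h9 := len_nonneg v c
    linarith
  have herr : ∑ j ∈ Finset.range n, (1 + |sh v j y|) ≤ n * (1 + C4 * (1 + len v y)) := by
    have h1 : ∀ j ∈ Finset.range n, 1 + |sh v j y| ≤ 1 + C4 * (1 + len v y) := by
      intro j hj
      have := habs y j (Finset.mem_range.mp hj).le
      linarith
    have h2 := Finset.sum_le_sum h1
    rw [Finset.sum_const, Finset.card_range, nsmul_eq_mul] at h2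
    exact h2
  have hlx := len_nonneg v x
  have hlc := len_nonneg v c
  have hlyn := len_nonneg v y
  have herr2 : C' * ∑ j ∈ Finset.range n, (1 + |sh v j y|) ≤ M * (1 + len v x + len v c) := by
    have h1 : C' * ∑ j ∈ Finset.range n, (1 + |sh v j y|) ≤ C' * (n * (1 + C4 * (1 + len v y))) :=
      mul_le_mul_of_nonneg_left herr hC'0
    have h2 : 1 + C4 * (1 + len v y) ≤
        (1 + C4 * (1 + 3 * c₀ + 2 * n)) * (1 + len v x + len v c) := by
      have h3 : C4 * (1 + len v y) ≤ C4 * (1 + (len v x + len v c + 3 * c₀ + 2 * n)) :=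
        mul_le_mul_of_nonneg_left (by linarith) hC40
      have h4 : 0 ≤ C4 * (3 * c₀ + 2 * n) * (len v x + len v c) := by positivity
      nlinarith
    have h5 : C' * (n * (1 + C4 * (1 + len v y))) ≤
        C' * (n * ((1 + C4 * (1 + 3 * c₀ + 2 * n)) * (1 + len v x + len v c))) := by
      apply mul_le_mul_of_nonneg_left _ hC'0
      exact mul_le_mul_of_nonneg_left h2 hn0
    have h6 : C' * (n * ((1 + C4 * (1 + 3 * c₀ + 2 * n)) * (1 + len v x + len v c))) =
        M * (1 + len v x + len v c) := by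
      rw [hM]; ring
    linarith
  -- the length of `c`
  have hlen : len v c ^ 2 ≤ 2 * K ^ 2 + 128 * ∑ j ∈ Finset.range n, hh v E w j ^ 2 := by
    obtain ⟨i, k, hik⟩ := len_dg hn v D
    have h1 : len v c ≤ 2 * c₀ + len v (dg D) := by
      have := G09_len_mul3 v A B (dg D)
      rw [hc]
      linarith
    have h7 := (abs_le.mp (hDE' i)).1
    have h8 := (abs_le.mp (hDE' k)).2
    set δ := Real.log (v (E i : F)) - Real.log (v (E k : F)) with hδ
    have h2 : len v c ≤ K + 2 * |δ| := by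
      have h3 : δ ≤ |δ| := le_abs_self _
      rw [hK]
      linarith
    have h4 : δ ^ 2 ≤ 16 * ∑ j ∈ Finset.range n, hh v E w j ^ 2 := hh_sq v E w i k
    have h5 : |δ| ^ 2 = δ ^ 2 := sq_abs δ
    have h6 : len v c ^ 2 ≤ (K + 2 * |δ|) ^ 2 := pow_le_pow_left₀ hlc h2 2
    nlinarith [sq_nonneg (K - 2 * |δ|)]
  have hfin : len v c ^ 2 / (256 + K ^ 2 + M) ≤
      K ^ 2 + (∑ j ∈ Finset.range n, hh v E w j ^ 2) / 2 := by
    have h1 : len v c ^ 2 / (256 + K ^ 2 + M) ≤ len v c ^ 2 / 256 := by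
      apply div_le_div_of_nonneg_left (sq_nonneg _) (by norm_num)
      nlinarith [sq_nonneg K]
    have h2 : len v c ^ 2 / 256 ≤ (2 * K ^ 2 + 128 * ∑ j ∈ Finset.range n, hh v E w j ^ 2) / 256 :=
      div_le_div_of_nonneg_right hlen (by norm_num)
    have h3 : (2 * K ^ 2 + 128 * ∑ j ∈ Finset.range n, hh v E w j ^ 2) / 256 =
        K ^ 2 / 128 + (∑ j ∈ Finset.range n, hh v E w j ^ 2) / 2 := by ring
    have h4 := sq_nonneg K
    linarith
  have hK2 : 0 ≤ K ^ 2 * (len v x + len v c) := by positivity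
  have hexp : (256 + K ^ 2 + M) * (1 + len v x + len v c) =
      256 * (1 + len v x + len v c) + K ^ 2 + K ^ 2 * (len v x + len v c)
        + M * (1 + len v x + len v c) := by ring
  rw [hexp]
  linarith

end RDG
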