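import Mathlib
import Pool.Agent.Lib.MP_fee02f_an.GG.G05
import Pool.Agent.Lib.MP_fee02f_an.GG.G07
import Pool.Agent.Lib.MP_fee02f_an.GG.G09

/-!
# G10: the potential `Pt = Ph + (log v det)^2`

`Pt_le`, `le_Pt`, `Pt_mul`: from `Ph_le`, `le_Ph`, `Ph_mul` (`len ≤ ln`) and `log v det (k g) = log v det k + log v det g`,
`sqrt (Ph) ≤ sqrt (Pt)`, `|log v det| ≤ sqrt (Pt)`; `(a + b)^2 - b^2 = a^2 + 2 a b ≤ 2 (1 + ln k)^2 (1 + ln g)`.
`mid_pt`: `mid_ph` plus the determinant: `X = log v det x`, `c₀ = log v det c`, `M = log v det (A * dg E)`,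
`|M - c₀ / 2| ≤ C` because `|log v det A|, |log v det B| ≤ C₀` and `∑ i, (2 log v E i - log v D i)` is bounded;
`X ^ 2 + (X - c₀) ^ 2 = 2 (X - c₀ / 2) ^ 2 + c₀ ^ 2 / 2 ≥ 2 (X - M) ^ 2 + c₀ ^ 2 / 2 - C (1 + |X| + |c₀|)`, and
`ln c ^ 2 ≤ 2 len c ^ 2 + 2 c₀ ^ 2`.
-/

set_option autoImplicit false

open scoped MatrixGroups

namespace RDG

variable {F : Type*} [Field F]

theorem Pt_nonneg {n : ℕ} (v : AbsoluteValue F ℝ) (g : GL (Fin n) F) : 0 ≤ Pt v g :=
  add_nonneg (Ph_nonneg v g) (sq_nonneg _)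

theorem log_det_mul {n : ℕ} (v : AbsoluteValue F ℝ) (g h : GL (Fin n) F) :
    Real.log (v (g * h).1.det) = Real.log (v g.1.det) + Real.log (v h.1.det) := by
  have hne : ∀ g : GL (Fin n) F, v g.1.det ≠ 0 := by
    intro g
    have h1 : g.1.det ≠ 0 := ((Matrix.isUnit_iff_isUnit_det g.1).mp g.isUnit).ne_zero
    exact (v.pos h1).ne'
  rw [Units.val_mul, Matrix.det_mul, map_mul, Real.log_mul (hne g) (hne h)]

theorem log_det_inv {n : ℕ} (v : AbsoluteValue F ℝ) (g : GL (Fin n) F) :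
    Real.log (v (g⁻¹).1.det) = - Real.log (v g.1.det) := by
  have h := log_det_mul v g g⁻¹
  rw [mul_inv_cancel, Units.val_one, Matrix.det_one, map_one, Real.log_one] at h
  linarith

theorem log_det_dg {n : ℕ} (v : AbsoluteValue F ℝ) (D : Fin n → Fˣ) :
    Real.log (v (dg D).1.det) = ∑ i, Real.log (v (D i : F)) := by
  rw [dg_val, Matrix.det_diagonal, map_prod, Real.log_prod]
  intro i _
  exact (v.pos (D i).ne_zero).ne'

theorem Pt_le {n : ℕ} (v : AbsoluteValue F ℝ) : ∃ C : ℝ, 1 ≤ C ∧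
    ∀ g : GL (Fin n) F, Pt v g ≤ C * (1 + ln v g) ^ 2 := by
  obtain ⟨C, hC, h⟩ := Ph_le (n := n) v
  refine ⟨C + 1, by linarith, fun g => ?_⟩
  have h1 := len_nonneg v g
  have h2 := len_le_ln v g
  have h3 := log_det_le_ln v g
  have h4 : C * (1 + len v g) ^ 2 ≤ C * (1 + ln v g) ^ 2 := by gcongr
  have h5 : Real.log (v g.1.det) ^ 2 ≤ (1 + ln v g) ^ 2 := by
    rw [← sq_abs (Real.log (v g.1.det))]
    have h6 := abs_nonneg (Real.log (v g.1.det))
    gcongr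
    linarith
  have h6 := h g
  unfold Pt
  nlinarith

theorem sqrt_Ph_le {n : ℕ} (v : AbsoluteValue F ℝ) (g : GL (Fin n) F) :
    Real.sqrt (Ph v g) ≤ Real.sqrt (Pt v g) := by
  apply Real.sqrt_le_sqrt
  unfold Pt
  have := sq_nonneg (Real.log (v g.1.det))
  linarith

theorem abs_log_det_le {n : ℕ} (v : AbsoluteValue F ℝ) (g : GL (Fin n) F) :
    |Real.log (v g.1.det)| ≤ Real.sqrt (Pt v g) := by
  apply Real.abs_le_sqrt
  unfold Pt
  have := Ph_nonneg v g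
  linarith

theorem le_Pt {n : ℕ} (v : AbsoluteValue F ℝ) : ∃ C : ℝ, 1 ≤ C ∧
    ∀ g : GL (Fin n) F, ln v g ≤ C * (1 + Real.sqrt (Pt v g)) := by
  obtain ⟨C, hC, h⟩ := le_Ph (n := n) v
  refine ⟨C + 1, by linarith, fun g => ?_⟩
  have h1 := h g
  have h2 := sqrt_Ph_le v g
  have h3 := abs_log_det_le v g
  have h4 : C * (1 + Real.sqrt (Ph v g)) ≤ C * (1 + Real.sqrt (Pt v g)) := by gcongr
  unfold ln
  nlinarith

theorem Pt_mul {n : ℕ} (v : AbsoluteValue F ℝ) : ∃ C : ℝ, 1 ≤ C ∧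
    ∀ k g : GL (Fin n) F, Pt v (k * g) ≤ Pt v g + C * (1 + ln v k) ^ 2 * (1 + ln v g) := by
  obtain ⟨C, hC, h⟩ := Ph_mul (n := n) v
  refine ⟨C + 1, by linarith, fun k g => ?_⟩
  have h1 := h k g
  have h2 := len_nonneg v k
  have h3 := len_nonneg v g
  have h4 := len_le_ln v k
  have h5 := len_le_ln v g
  have h6 := log_det_le_ln v k
  have h7 := log_det_le_ln v g
  have h8 : C * (1 + len v k) ^ 2 * (1 + len v g) ≤ C * (1 + ln v k) ^ 2 * (1 + ln v g) := by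
    gcongr
  have h9 : (Real.log (v k.1.det) + Real.log (v g.1.det)) ^ 2 ≤
      Real.log (v g.1.det) ^ 2 + (1 + ln v k) ^ 2 * (1 + ln v g) := by
    set a : ℝ := Real.log (v k.1.det)
    set b : ℝ := Real.log (v g.1.det)
    have e1 : a * b ≤ |a| * |b| := by
      rw [← abs_mul]
      exact le_abs_self _
    have e2 : a ^ 2 = |a| ^ 2 := (sq_abs a).symm
    have e5 : 0 ≤ ln v k := h2.trans h4
    have e6 : 0 ≤ ln v g := h3.trans h5
    have e3 : |a| * |b| ≤ ln v k * ln v g := by gcongr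
    have e4 : |a| ^ 2 ≤ ln v k ^ 2 := by gcongr
    have e7 : 0 ≤ ln v k ^ 2 * ln v g := by positivity
    nlinarith
  unfold Pt
  rw [log_det_mul]
  nlinarith

theorem mid_pt {n : ℕ} (v : AbsoluteValue F ℝ) (C₀ : ℝ) : ∃ C : ℝ, 1 ≤ C ∧
    ∀ (A B : GL (Fin n) F) (D E : Fin n → Fˣ), ln v A ≤ C₀ → ln v B ≤ C₀ →
      (∀ i, |2 * Real.log (v (E i : F)) - Real.log (v (D i : F))| ≤ C₀) → ∀ x : GL (Fin n) F,
      2 * Pt v ((A * dg E)⁻¹ * x) + ln v (A * dg D * B) ^ 2 / C ≤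
        Pt v x + Pt v ((A * dg D * B)⁻¹ * x) + C * (1 + ln v x + ln v (A * dg D * B)) := by
  obtain ⟨C, hC, h⟩ := mid_ph (n := n) v C₀
  set K : ℝ := ((n : ℝ) + 2) * |C₀| with hK
  have hK0 : 0 ≤ K := by positivity
  set C' : ℝ := 2 * C + (2 * K + K ^ 2) + 4 with hC'
  have hC'1 : 1 ≤ C' := by nlinarith [sq_nonneg K]
  refine ⟨C', hC'1, ?_⟩
  intro A B D E hA hB hDE x
  have hph := h A B D E ((len_le_ln v A).trans hA) ((len_le_ln v B).trans hB) hDE x
  set c : GL (Fin n) F := A * dg D * B with hc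
  set mm : GL (Fin n) F := A * dg E with hmm
  set X : ℝ := Real.log (v x.1.det) with hX
  set c₀ : ℝ := Real.log (v c.1.det) with hc₀
  set M : ℝ := Real.log (v mm.1.det) with hM
  have e1 : Real.log (v (mm⁻¹ * x).1.det) = X - M := by
    rw [log_det_mul, log_det_inv]
    ring
  have e2 : Real.log (v (c⁻¹ * x).1.det) = X - c₀ := by
    rw [log_det_mul, log_det_inv]
    ring
  have e3 : |2 * M - c₀| ≤ K := by
    have f1 : M = Real.log (v A.1.det) + ∑ i, Real.log (v (E i : F)) := by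
      rw [hM, hmm, log_det_mul, log_det_dg]
    have f2 : c₀ = Real.log (v A.1.det) + ∑ i, Real.log (v (D i : F)) + Real.log (v B.1.det) := by
      rw [hc₀, hc, log_det_mul, log_det_mul, log_det_dg]
    have f3 : 2 * M - c₀ = Real.log (v A.1.det) - Real.log (v B.1.det)
        + ∑ i, (2 * Real.log (v (E i : F)) - Real.log (v (D i : F))) := by
      rw [f1, f2, Finset.sum_sub_distrib, ← Finset.mul_sum]
      ring
    have f4 : |∑ i, (2 * Real.log (v (E i : F)) - Real.log (v (D i : F)))| ≤ (n : ℝ) * |C₀| := by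
      refine (Finset.abs_sum_le_sum_abs _ _).trans ?_
      refine (Finset.sum_le_sum fun i _ => (hDE i).trans (le_abs_self C₀)).trans ?_
      rw [Finset.sum_const, Finset.card_univ, Fintype.card_fin, nsmul_eq_mul]
    have f5 := (log_det_le_ln v A).trans (hA.trans (le_abs_self C₀))
    have f6 := (log_det_le_ln v B).trans (hB.trans (le_abs_self C₀))
    rw [f3, hK]
    have g1 := abs_add_le (Real.log (v A.1.det) - Real.log (v B.1.det))
      (∑ i, (2 * Real.log (v (E i : F)) - Real.log (v (D i : F))))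
    have g2 := abs_sub (Real.log (v A.1.det)) (Real.log (v B.1.det))
    linarith
  have e4 : 2 * (X - M) ^ 2 + c₀ ^ 2 / 2 ≤ X ^ 2 + (X - c₀) ^ 2
      + (2 * K + K ^ 2) * (1 + |X| + |c₀|) := by
    obtain ⟨δ, hδ⟩ : ∃ δ : ℝ, δ = 2 * M - c₀ := ⟨_, rfl⟩
    rw [← hδ] at e3
    have hMd : M = (c₀ + δ) / 2 := by rw [hδ]; ring
    have g1 : - (K * |X|) ≤ δ * X := by
      have : |δ * X| ≤ K * |X| := by rw [abs_mul]; gcongr
      linarith [(abs_le.mp this).1]
    have g2 : c₀ * δ ≤ K * |c₀| := by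
      have : |c₀ * δ| ≤ K * |c₀| := by rw [abs_mul, mul_comm K]; gcongr
      linarith [(abs_le.mp this).2]
    have g3 : δ ^ 2 ≤ K ^ 2 := by
      rw [← sq_abs δ]
      gcongr
    have g4 : 0 ≤ K * |X| := by positivity
    have g5 : 0 ≤ K * |c₀| := by positivity
    have g6 : 0 ≤ K ^ 2 * |X| := by positivity
    have g7 : 0 ≤ K ^ 2 * |c₀| := by positivity
    have g8 : 0 ≤ K ^ 2 := sq_nonneg K
    rw [hMd]
    nlinarith
  have e5 : ln v c = len v c + |c₀| := rfl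
  have e6 : ln v x = len v x + |X| := rfl
  have hl0 := len_nonneg v c
  have hl1 := len_nonneg v x
  have hlnc := len_le_ln v c
  have hlnx := len_le_ln v x
  have hC'pos : 0 < C' := by linarith
  have hCpos : 0 < C := by linarith
  have e7 : ln v c ^ 2 / C' ≤ len v c ^ 2 / C + c₀ ^ 2 / 2 := by
    have g1 : ln v c ^ 2 ≤ 2 * len v c ^ 2 + 2 * c₀ ^ 2 := by
      rw [e5, ← sq_abs c₀]
      nlinarith [sq_nonneg (len v c - |c₀|)]
    rw [div_le_iff₀ hC'pos]
    have g2 : 2 * len v c ^ 2 ≤ len v c ^ 2 / C * C' := by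
      have : len v c ^ 2 / C * C' = len v c ^ 2 * (C' / C) := by ring
      rw [this, mul_comm 2]
      refine mul_le_mul_of_nonneg_left ?_ (sq_nonneg _)
      rw [le_div_iff₀ hCpos]
      rw [hC']
      nlinarith [sq_nonneg K]
    have g3 : 2 * c₀ ^ 2 ≤ c₀ ^ 2 / 2 * C' := by
      have : c₀ ^ 2 / 2 * C' = c₀ ^ 2 * (C' / 2) := by ring
      rw [this, mul_comm 2]
      refine mul_le_mul_of_nonneg_left ?_ (sq_nonneg _)
      rw [hC']
      nlinarith [sq_nonneg K]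
    calc ln v c ^ 2 ≤ 2 * len v c ^ 2 + 2 * c₀ ^ 2 := g1
      _ ≤ len v c ^ 2 / C * C' + c₀ ^ 2 / 2 * C' := add_le_add g2 g3
      _ = _ := by ring
  have e8 : (2 * K + K ^ 2) * (1 + |X| + |c₀|) + C * (1 + len v x + len v c)
      ≤ C' * (1 + ln v x + ln v c) := by
    have g1 : |X| ≤ ln v x := log_det_le_ln v x
    have g2 : |c₀| ≤ ln v c := log_det_le_ln v c
    have g0 : 0 ≤ 2 * K + K ^ 2 := by positivity
    have g3 : (2 * K + K ^ 2) * (1 + |X| + |c₀|) ≤ (2 * K + K ^ 2) * (1 + ln v x + ln v c) := by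
      gcongr
    have g4 : C * (1 + len v x + len v c) ≤ C * (1 + ln v x + ln v c) := by gcongr
    have g5 : 0 ≤ 1 + ln v x + ln v c := by linarith
    have g6 : (2 * K + K ^ 2) * (1 + ln v x + ln v c) + C * (1 + ln v x + ln v c)
        ≤ C' * (1 + ln v x + ln v c) := by
      rw [← add_mul]
      refine mul_le_mul_of_nonneg_right ?_ g5
      rw [hC']
      linarith
    linarith
  have p1 : Pt v (mm⁻¹ * x) = Ph v (mm⁻¹ * x) + (X - M) ^ 2 := by unfold Pt; rw [e1]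
  have p2 : Pt v (c⁻¹ * x) = Ph v (c⁻¹ * x) + (X - c₀) ^ 2 := by unfold Pt; rw [e2]
  have p3 : Pt v x = Ph v x + X ^ 2 := rfl
  rw [p1, p2, p3]
  linarith

end RDG
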