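import Mathlib
import Pool.Agent.Lib.MP_fee02f_an.GG.G04

/-!
# G11: balls are totally bounded

`cov_field`: from `LocV`: `{v x ≤ v ϖ ^ (k+1)}` is covered by finitely many translates of `{v x ≤ v ϖ ^ k}` (scale
by `ϖ ^ k`; `k` any integer), so by induction `{v x ≤ v ϖ ^ a}` is covered by finitely many translates of
`{v x ≤ v ϖ ^ (-b)}`. `tb_gl` (`C` independent of `R`; e.g. `C = (n + 2) log (n + 1)`): let `T` be the finite set of
`cov_field` for radius `exp (2 R)` and precision `ε = exp (-2 R) / (2 n ^ 2 + 1)`; cell of `g` = the matrix of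
approximations in `T` (`choose`); `X` = one representative for each cell which occurs among matrices with
`ln g ≤ R`. If `g`, `g'` are in one cell, `se (g' - g) ≤ 2 n ^ 2 ε`, `g⁻¹ g' = 1 + g⁻¹ (g' - g)`, `se ≤ n + 1`
(`se_le_ln`), and the same with `g`, `g'` exchanged; `ln_le_of_se`.
-/

set_option autoImplicit false

open scoped MatrixGroups

namespace RDG

variable {F : Type*} [Field F]

/-- balls of radius `v ϖ ^ a` are covered by finitely many balls of radius one -/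
theorem G11_pow (v : AbsoluteValue F ℝ) (ϖ : Fˣ) (T : Finset F)
    (hT : ∀ x, v x ≤ v (ϖ : F) → ∃ t ∈ T, v (x - t) ≤ 1) (a : ℕ) :
    ∃ T' : Finset F, ∀ x, v x ≤ v (ϖ : F) ^ a → ∃ t ∈ T', v (x - t) ≤ 1 := by
  classical
  induction a with
  | zero =>
    refine ⟨{0}, fun x hx => ⟨0, Finset.mem_singleton_self _, ?_⟩⟩
    rw [sub_zero]
    simpa using hx
  | succ a ih =>
    obtain ⟨T', hT'⟩ := ih
    refine ⟨Finset.image₂ (fun t t' => (ϖ : F) ^ a * t + t') T T', fun x hx => ?_⟩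
    have hpos : 0 < v (ϖ : F) := v.pos ϖ.ne_zero
    have hne : (ϖ : F) ^ a ≠ 0 := pow_ne_zero a ϖ.ne_zero
    have h1 : v (x / (ϖ : F) ^ a) ≤ v (ϖ : F) := by
      rw [map_div₀, map_pow, div_le_iff₀ (pow_pos hpos a)]
      rw [pow_succ] at hx
      linarith [mul_comm (v (ϖ : F) ^ a) (v (ϖ : F))]
    obtain ⟨t, ht, ht1⟩ := hT _ h1
    have h2 : v (x - (ϖ : F) ^ a * t) ≤ v (ϖ : F) ^ a := by
      have h3 : x - (ϖ : F) ^ a * t = (ϖ : F) ^ a * (x / (ϖ : F) ^ a - t) := by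
        rw [mul_sub, mul_div_cancel₀ _ hne]
      rw [h3, map_mul, map_pow]
      exact mul_le_of_le_one_right (pow_nonneg hpos.le a) ht1
    obtain ⟨t', ht', ht1'⟩ := hT' _ h2
    refine ⟨(ϖ : F) ^ a * t + t', Finset.mem_image₂_of_mem ht ht', ?_⟩
    rw [← sub_sub]
    exact ht1'

theorem cov_field (v : AbsoluteValue F ℝ) (hv : LocV v) (R ε : ℝ) (hε : 0 < ε) :
    ∃ T : Finset F, ∀ x, v x ≤ R → ∃ t ∈ T, v (x - t) ≤ ε := by
  classical
  obtain ⟨ϖ, h1, T, hT⟩ := hv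
  have hpos : 0 < v (ϖ : F) := v.pos ϖ.ne_zero
  obtain ⟨b, hb⟩ := pow_unbounded_of_one_lt ε⁻¹ h1
  obtain ⟨a, ha⟩ := pow_unbounded_of_one_lt (R * v (ϖ : F) ^ b) h1
  obtain ⟨T', hT'⟩ := G11_pow v ϖ T hT a
  refine ⟨T'.image fun t => t / (ϖ : F) ^ b, fun x hx => ?_⟩
  have hne : (ϖ : F) ^ b ≠ 0 := pow_ne_zero b ϖ.ne_zero
  have hb0 : 0 < v (ϖ : F) ^ b := pow_pos hpos b
  have h2 : v (x * (ϖ : F) ^ b) ≤ v (ϖ : F) ^ a := by
    rw [map_mul, map_pow]
    exact le_trans (mul_le_mul_of_nonneg_right hx hb0.le) ha.le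
  obtain ⟨t, ht, ht1⟩ := hT' _ h2
  refine ⟨t / (ϖ : F) ^ b, Finset.mem_image_of_mem _ ht, ?_⟩
  have h3 : x - t / (ϖ : F) ^ b = (x * (ϖ : F) ^ b - t) / (ϖ : F) ^ b := by
    rw [sub_div, mul_div_cancel_right₀ _ hne]
  rw [h3, map_div₀, map_pow, div_le_iff₀ hb0]
  have h4 : 1 ≤ ε * v (ϖ : F) ^ b := by
    have h5 := mul_le_mul_of_nonneg_left hb.le hε.le
    rwa [mul_inv_cancel₀ hε.ne'] at h5
  linarith

/-- two close matrices with bounded inverse -/
theorem G11_close {n : ℕ} (v : AbsoluteValue F ℝ) (x g : GL (Fin n) F) (R δ : ℝ)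
    (hx : ln v x ≤ R) (h : ∀ i j, v (g.1 i j - x.1 i j) ≤ δ)
    (hδ : Real.exp (2 * R) * (n * n * δ) ≤ 1) : se v (x⁻¹ * g).1 ≤ n + 1 := by
  have h1 : (x⁻¹ * g).1 = 1 + (x⁻¹).1 * (g.1 - x.1) := by
    rw [Units.val_mul, Matrix.mul_sub, ← Units.val_mul x⁻¹ x, inv_mul_cancel, Units.val_one]
    abel
  rw [h1]
  refine le_trans (se_add_le v _ _) ?_
  rw [se_one]
  have h2 : se v (g.1 - x.1) ≤ n * n * δ := by
    unfold se
    refine le_trans (Finset.sum_le_sum fun i _ => Finset.sum_le_sum fun j _ => h i j) ?_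
    simp only [Finset.sum_const, Finset.card_univ, Fintype.card_fin, nsmul_eq_mul]
    rw [mul_assoc]
  have h3 : se v (x⁻¹).1 ≤ Real.exp (2 * R) :=
    le_trans (se_le_ln v x).2 (Real.exp_le_exp.2 (by linarith))
  have h4 := se_mul_le v (x⁻¹).1 (g.1 - x.1)
  have h5 : se v (x⁻¹).1 * se v (g.1 - x.1) ≤ Real.exp (2 * R) * (n * n * δ) :=
    mul_le_mul h3 h2 (se_nonneg v _) (Real.exp_pos _).le
  linarith

theorem tb_gl {n : ℕ} (v : AbsoluteValue F ℝ) (hv : LocV v) : ∃ C : ℝ, 1 ≤ C ∧ ∀ R : ℝ,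
    ∃ X : Finset (GL (Fin n) F), ∀ g, ln v g ≤ R → ∃ x ∈ X, ln v (x⁻¹ * g) ≤ C := by
  classical
  have hn0 : (0 : ℝ) ≤ n := Nat.cast_nonneg n
  have hlog : 0 ≤ Real.log ((n : ℝ) + 1) := Real.log_nonneg (by linarith)
  refine ⟨1 + (n + 2) * Real.log ((n : ℝ) + 1), ?_, fun R => ?_⟩
  · have : 0 ≤ ((n : ℝ) + 2) * Real.log ((n : ℝ) + 1) := mul_nonneg (by linarith) hlog
    linarith
  have hD : (0 : ℝ) < 2 * (n * n) + 1 := by
    have := mul_nonneg hn0 hn0
    linarith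
  obtain ⟨T, hT⟩ := cov_field v hv (Real.exp (2 * R))
    (Real.exp (-(2 * R)) / (2 * (n * n) + 1)) (div_pos (Real.exp_pos _) hD)
  set ε := Real.exp (-(2 * R)) / (2 * ((n : ℝ) * n) + 1) with hε
  let good : (Fin n → Fin n → T) → GL (Fin n) F → Prop := fun c g =>
    ln v g ≤ R ∧ ∀ i j, v (g.1 i j - (c i j : F)) ≤ ε
  let rep : (Fin n → Fin n → T) → GL (Fin n) F := fun c =>
    if h : ∃ g, good c g then h.choose else 1
  refine ⟨Finset.univ.image rep, fun g hg => ?_⟩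
  have h1 : ∀ i j, ∃ t : T, v (g.1 i j - (t : F)) ≤ ε := by
    intro i j
    have h2 : v (g.1 i j) ≤ Real.exp (2 * R) :=
      le_trans (le_se v g.1 i j) (le_trans (se_le_ln v g).1 (Real.exp_le_exp.2 (by linarith)))
    obtain ⟨t, ht, ht1⟩ := hT _ h2
    exact ⟨⟨t, ht⟩, ht1⟩
  choose c hc using h1
  have hex : ∃ g, good c g := ⟨g, hg, hc⟩
  have hrep : good c (rep c) := by
    show good c (if h : ∃ g, good c g then h.choose else 1)
    rw [dif_pos hex]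
    exact hex.choose_spec
  refine ⟨rep c, Finset.mem_image_of_mem _ (Finset.mem_univ c), ?_⟩
  have hcl : ∀ i j, v (g.1 i j - (rep c).1 i j) ≤ 2 * ε := by
    intro i j
    have h3 : g.1 i j - (rep c).1 i j =
        (g.1 i j - (c i j : F)) - ((rep c).1 i j - (c i j : F)) := by ring
    rw [h3]
    have h4 := hc i j
    have h5 := hrep.2 i j
    have h6 : v ((g.1 i j - (c i j : F)) - ((rep c).1 i j - (c i j : F))) ≤
        v (g.1 i j - (c i j : F)) + v ((rep c).1 i j - (c i j : F)) := by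
      rw [sub_eq_add_neg]
      refine le_trans (v.add_le _ _) ?_
      rw [v.map_neg]
    linarith
  have hcl' : ∀ i j, v ((rep c).1 i j - g.1 i j) ≤ 2 * ε := by
    intro i j
    rw [v.map_sub]
    exact hcl i j
  have hsm : Real.exp (2 * R) * (n * n * (2 * ε)) ≤ 1 := by
    have h7 : Real.exp (2 * R) * (n * n * (2 * ε)) = 2 * (n * n) / (2 * ((n : ℝ) * n) + 1) := by
      rw [hε, Real.exp_neg]
      field_simp
    rw [h7, div_le_one hD]
    linarith
  have h8 := G11_close v (rep c) g R (2 * ε) hrep.1 hcl hsm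
  have h9 := G11_close v g (rep c) R (2 * ε) hg hcl' hsm
  have h10 : ((rep c)⁻¹ * g)⁻¹ = g⁻¹ * rep c := by rw [mul_inv_rev, inv_inv]
  have h11 := ln_le_of_se v ((rep c)⁻¹ * g) ((n : ℝ) + 1) (by linarith) h8 (by rw [h10]; exact h9)
  linarith

end RDG
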