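import Mathlib
import Pool.Agent.Lib.MP_fee02f_an.GG.Defs

/-!
# G12: nets

`P` = a maximal set with `2 * C₀ < ℓ (p⁻¹ * p')` for all `p ≠ p'` in `P` (`zorn_subset`). Maximality: every `g` has
`p ∈ P` with `ℓ (p⁻¹ * g) ≤ 2 * C₀ + ℓ 1` (`g ∈ P`, or insert `g`; `inv`). Counting: `X` from `htb (r)`: to `p ∈ P` with
`ℓ (g⁻¹ * p) ≤ r` choose `x ∈ X` with `ℓ (x⁻¹ * (g⁻¹ * p)) ≤ C₀`; injective, because the same `x` gives
`ℓ (p⁻¹ * p') ≤ 2 * C₀`. (`Set.Finite` and `ncard ≤ X.card` by an injective map to `X`.)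
-/

set_option autoImplicit false

namespace RDG

theorem net {G : Type*} [Group G] (ℓ : G → ℝ) (hinv : ∀ g, ℓ g⁻¹ = ℓ g)
    (hmul : ∀ g h, ℓ (g * h) ≤ ℓ g + ℓ h) (C₀ : ℝ)
    (htb : ∀ R : ℝ, ∃ X : Finset G, ∀ g, ℓ g ≤ R → ∃ x ∈ X, ℓ (x⁻¹ * g) ≤ C₀) :
    ∃ P : Set G, (∀ g, ∃ p ∈ P, ℓ (p⁻¹ * g) ≤ 2 * C₀ + ℓ 1) ∧
      ∀ r : ℝ, ∃ N : ℕ, ∀ g, {p ∈ P | ℓ (p⁻¹ * g) ≤ r}.Finite ∧
        {p ∈ P | ℓ (p⁻¹ * g) ≤ r}.ncard ≤ N := by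
  classical
  have hsymm : ∀ a b : G, ℓ (a⁻¹ * b) = ℓ (b⁻¹ * a) := by
    intro a b
    rw [← hinv (a⁻¹ * b), mul_inv_rev, inv_inv]
  have h1 : 0 ≤ ℓ 1 := by
    have h := hmul 1 1
    rw [mul_one] at h
    linarith
  have hnn : ∀ g, 0 ≤ ℓ g := by
    intro g
    have h := hmul g g⁻¹
    rw [mul_inv_cancel, hinv] at h
    linarith
  have hC₀ : 0 ≤ C₀ := by
    obtain ⟨X, hX⟩ := htb (ℓ 1)
    obtain ⟨x, _, hx⟩ := hX 1 le_rfl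
    exact (hnn _).trans hx
  obtain ⟨P, hP⟩ := zorn_subset {Q : Set G | Q.Pairwise fun p q => 2 * C₀ < ℓ (p⁻¹ * q)} (by
    intro c hc hch
    refine ⟨⋃₀ c, ?_, fun s hs => Set.subset_sUnion_of_mem hs⟩
    rintro p ⟨s, hs, hps⟩ q ⟨t, ht, hqt⟩ hpq
    rcases hch.total hs ht with h | h
    · exact hc ht (h hps) hqt hpq
    · exact hc hs hps (h hqt) hpq)
  refine ⟨P, fun g => ?_, fun r => ?_⟩
  · by_contra hcon
    push Not at hcon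
    have hg : g ∉ P := by
      intro hg
      have h := hcon g hg
      rw [inv_mul_cancel] at h
      linarith
    have h2 : insert g P ∈ {Q : Set G | Q.Pairwise fun p q => 2 * C₀ < ℓ (p⁻¹ * q)} := by
      show (insert g P).Pairwise fun p q => 2 * C₀ < ℓ (p⁻¹ * q)
      rw [Set.pairwise_insert]
      refine ⟨hP.prop, fun b hb _ => ?_⟩
      have h := hcon b hb
      exact ⟨by rw [hsymm]; linarith, by linarith⟩
    exact hg (hP.le_of_ge h2 (Set.subset_insert g P) (Set.mem_insert g P))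
  · obtain ⟨X, hX⟩ := htb r
    refine ⟨X.card, fun g => ?_⟩
    have hch : ∀ p : G, ∃ x : G, ℓ (p⁻¹ * g) ≤ r → x ∈ X ∧ ℓ (x⁻¹ * (g⁻¹ * p)) ≤ C₀ := by
      intro p
      by_cases hp : ℓ (p⁻¹ * g) ≤ r
      · obtain ⟨x, hx, hx2⟩ := hX (g⁻¹ * p) (by rw [hsymm]; exact hp)
        exact ⟨x, fun _ => ⟨hx, hx2⟩⟩
      · exact ⟨1, fun h => absurd h hp⟩
    choose f hf using hch
    have hmaps : Set.MapsTo f {p ∈ P | ℓ (p⁻¹ * g) ≤ r} (X : Set G) := fun p hp => (hf p hp.2).1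
    have hinj : Set.InjOn f {p ∈ P | ℓ (p⁻¹ * g) ≤ r} := by
      intro p hp q hq hpq
      by_contra hne
      have h3 := hP.prop hp.1 hq.1 hne
      have h4 := (hf p hp.2).2
      have h5 := (hf q hq.2).2
      rw [← hpq] at h5
      have h6 : p⁻¹ * q = ((f p)⁻¹ * (g⁻¹ * p))⁻¹ * ((f p)⁻¹ * (g⁻¹ * q)) := by group
      have h7 := hmul ((f p)⁻¹ * (g⁻¹ * p))⁻¹ ((f p)⁻¹ * (g⁻¹ * q))
      rw [← h6, hinv] at h7
      linarith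
    have hfin : {p ∈ P | ℓ (p⁻¹ * g) ≤ r}.Finite :=
      Set.Finite.of_injOn hmaps hinj X.finite_toSet
    refine ⟨hfin, ?_⟩
    have h8 := Set.ncard_le_ncard_of_injOn f hmaps hinj X.finite_toSet
    rwa [Set.ncard_coe_finset] at h8

end RDG
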