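import Mathlib
import Pool.Agent.Lib.MP_fee02f_an.GG.G05

/-!
# G13: the maps `β` which contract a box

`b`, `b'` upper triangular with upper triangular inverses, `ln (b⁻¹ b') ≤ R`, all heights
`log v (b i i)`, `log v (b' i i)` within `S` of `a i`, and
`m i`, `m' i` integers with `|q (m i) - (a i - i * K - log v (b i i))| ≤ q` (`q = log v ϖ`), the same for `m'`, where
`2 R + 2 S + 2 q ≤ K`. Then `g = (b * dpi m)⁻¹ * (b' * dpi m')` has `ln g ≤ C(n, q)`: `t = b⁻¹ b'` is upper triangular,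
`t i i = (b i i)⁻¹ b' i i`, `v (t i j) ≤ exp (2 R)` (`se_le_ln`), `g i j = t i j * ϖ ^ (m' j - m i)`. For `i = j`:
`log v (g i i) = (log v (b' i i) + q m' i) - (log v (b i i) + q m i)`, at most `2 q` in absolute value. For `i < j`:
`q (m' j - m i) ≤ (a j - j K - h' j + q) - (a i - i K - h i - q) ≤ S + S - K + 2 q ≤ -2 R`, so `v (g i j) ≤ 1`.
`g⁻¹` is the same with `b`, `b'` exchanged. `ln_le_of_se` with `K := n ^ 2 exp (2 q) + 1`.
-/

set_option autoImplicit false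

open scoped MatrixGroups

namespace RDG

variable {F : Type*} [Field F]

theorem up_mul_diag {n : ℕ} {A B : Matrix (Fin n) (Fin n) F} (hA : ∀ i j, j < i → A i j = 0)
    (hB : ∀ i j, j < i → B i j = 0) (i : Fin n) : (A * B) i i = A i i * B i i := by
  rw [Matrix.mul_apply, Finset.sum_eq_single i]
  · intro k _ hk
    rcases lt_or_gt_of_ne hk with h | h
    · rw [hA i k h, zero_mul]
    · rw [hB k i h, mul_zero]
  · intro h
    exact absurd (Finset.mem_univ i) h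

theorem up_mul_zero {n : ℕ} {A B : Matrix (Fin n) (Fin n) F} (hA : ∀ i j, j < i → A i j = 0)
    (hB : ∀ i j, j < i → B i j = 0) (i j : Fin n) (h : j < i) : (A * B) i j = 0 := by
  rw [Matrix.mul_apply]
  refine Finset.sum_eq_zero fun k _ => ?_
  rcases lt_or_ge k i with hk | hk
  · rw [hA i k hk, zero_mul]
  · rw [hB k j (lt_of_lt_of_le h hk), mul_zero]

theorem gl_inv_diag {n : ℕ} (b : GL (Fin n) F) (hb : ∀ i j, j < i → b.1 i j = 0)
    (hb' : ∀ i j, j < i → (b⁻¹).1 i j = 0) (i : Fin n) : (b⁻¹).1 i i * b.1 i i = 1 := by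
  have h : (b⁻¹).1 * b.1 = 1 := by
    rw [← Units.val_mul, inv_mul_cancel, Units.val_one]
  rw [← up_mul_diag hb' hb i, h, Matrix.one_apply_eq]

theorem t_diag {n : ℕ} (v : AbsoluteValue F ℝ) (b b' : GL (Fin n) F)
    (hb : ∀ i j, j < i → b.1 i j = 0) (hb' : ∀ i j, j < i → (b⁻¹).1 i j = 0)
    (hc : ∀ i j, j < i → b'.1 i j = 0) (hc' : ∀ i j, j < i → (b'⁻¹).1 i j = 0) (i : Fin n) :
    v ((b⁻¹ * b').1 i i) = Real.exp (Real.log (v (b'.1 i i)) - Real.log (v (b.1 i i))) := by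
  have h1 := gl_inv_diag b hb hb' i
  have h2 := gl_inv_diag b' hc hc' i
  have hne : b.1 i i ≠ 0 := by
    intro h
    rw [h, mul_zero] at h1
    exact zero_ne_one h1
  have hne' : b'.1 i i ≠ 0 := by
    intro h
    rw [h, mul_zero] at h2
    exact zero_ne_one h2
  have h3 : (b⁻¹).1 i i = (b.1 i i)⁻¹ := eq_inv_of_mul_eq_one_left h1
  rw [Units.val_mul, up_mul_diag hb' hc i, h3, map_mul, map_inv₀, Real.exp_sub,
    Real.exp_log (v.pos hne'), Real.exp_log (v.pos hne)]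
  rw [div_eq_mul_inv, mul_comm]

theorem v_zpow_exp (v : AbsoluteValue F ℝ) (ϖ : Fˣ) (k : ℤ) :
    v ((ϖ ^ k : Fˣ) : F) = Real.exp (Real.log (v (ϖ : F)) * k) := by
  rw [Units.val_zpow_eq_zpow_val, map_zpow₀, Real.exp_mul, Real.rpow_intCast,
    Real.exp_log (v.pos ϖ.ne_zero)]

theorem beta_entry {n : ℕ} (v : AbsoluteValue F ℝ) (ϖ : Fˣ) (b b' : GL (Fin n) F)
    (m m' : Fin n → ℤ) (i j : Fin n) :
    v (((b * dpi ϖ m)⁻¹ * (b' * dpi ϖ m')).1 i j) =
      v ((b⁻¹ * b').1 i j) * Real.exp (Real.log (v (ϖ : F)) * m' j - Real.log (v (ϖ : F)) * m i) := by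
  have h1 : (b * dpi ϖ m)⁻¹ * (b' * dpi ϖ m') = dg (fun i => (ϖ ^ m i)⁻¹) * (b⁻¹ * b') *
      dg (fun i => ϖ ^ m' i) := by
    rw [mul_inv_rev]
    unfold dpi
    rw [dg_inv]
    simp only [mul_assoc]
  rw [h1, Units.val_mul, Units.val_mul, dg_val, dg_val, Matrix.mul_diagonal, Matrix.diagonal_mul,
    map_mul, map_mul, Units.val_inv_eq_inv_val, map_inv₀, v_zpow_exp, v_zpow_exp, Real.exp_sub]
  field_simp

theorem beta_entry_le {n : ℕ} (v : AbsoluteValue F ℝ) (ϖ : Fˣ) (hϖ : 1 < v (ϖ : F))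
    (R S K : ℝ) (a : Fin n → ℝ) (b b' : GL (Fin n) F) (m m' : Fin n → ℤ)
    (hR : 0 ≤ R) (hS : 0 ≤ S) (hK : 2 * R + 2 * S + 2 * Real.log (v (ϖ : F)) ≤ K)
    (hb : ∀ i j, j < i → b.1 i j = 0) (hb' : ∀ i j, j < i → (b⁻¹).1 i j = 0)
    (hc : ∀ i j, j < i → b'.1 i j = 0) (hc' : ∀ i j, j < i → (b'⁻¹).1 i j = 0)
    (hln : ln v (b⁻¹ * b') ≤ R)
    (h1 : ∀ i, |Real.log (v (b.1 i i)) - a i| ≤ S) (h2 : ∀ i, |Real.log (v (b'.1 i i)) - a i| ≤ S)
    (h3 : ∀ i, |Real.log (v (ϖ : F)) * m i - (a i - (i : ℕ) * K - Real.log (v (b.1 i i)))| ≤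
        Real.log (v (ϖ : F)))
    (h4 : ∀ i, |Real.log (v (ϖ : F)) * m' i - (a i - (i : ℕ) * K - Real.log (v (b'.1 i i)))| ≤
        Real.log (v (ϖ : F))) (i j : Fin n) :
    v (((b * dpi ϖ m)⁻¹ * (b' * dpi ϖ m')).1 i j) ≤ Real.exp (2 * Real.log (v (ϖ : F))) := by
  have hq : 0 < Real.log (v (ϖ : F)) := Real.log_pos hϖ
  rw [beta_entry]
  set q : ℝ := Real.log (v (ϖ : F)) with hqd
  rcases lt_trichotomy j i with h | h | h
  · rw [Units.val_mul, up_mul_zero hb' hc i j h, map_zero, zero_mul]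
    exact (Real.exp_pos _).le
  · subst h
    rw [t_diag v b b' hb hb' hc hc' j, ← Real.exp_add]
    apply Real.exp_le_exp.mpr
    have e1 := abs_le.mp (h3 j)
    have e2 := abs_le.mp (h4 j)
    linarith [e1.1, e2.2]
  · have e1 := abs_le.mp (h3 i)
    have e2 := abs_le.mp (h4 j)
    have e3 := abs_le.mp (h1 i)
    have e4 := abs_le.mp (h2 j)
    have hK0 : 0 ≤ K := by linarith
    have hij : ((i : ℕ) : ℝ) + 1 ≤ ((j : ℕ) : ℝ) := by
      have : (i : ℕ) + 1 ≤ (j : ℕ) := h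
      exact_mod_cast this
    have hmul : ((i : ℕ) : ℝ) * K + K ≤ ((j : ℕ) : ℝ) * K := by nlinarith
    have hv : v ((b⁻¹ * b').1 i j) ≤ Real.exp (2 * R) := by
      have e5 : v ((b⁻¹ * b').1 i j) ≤ se v (b⁻¹ * b').1 := by
        unfold se
        calc v ((b⁻¹ * b').1 i j) ≤ ∑ k, v ((b⁻¹ * b').1 i k) :=
              Finset.single_le_sum (f := fun k => v ((b⁻¹ * b').1 i k)) (fun k _ => v.nonneg _)
                (Finset.mem_univ j)
          _ ≤ _ := Finset.single_le_sum (f := fun l => ∑ k, v ((b⁻¹ * b').1 l k))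
                (fun l _ => Finset.sum_nonneg fun k _ => v.nonneg _) (Finset.mem_univ i)
      refine (e5.trans (se_le_ln v (b⁻¹ * b')).1).trans (Real.exp_le_exp.mpr ?_)
      linarith
    calc v ((b⁻¹ * b').1 i j) * Real.exp (q * m' j - q * m i)
        ≤ Real.exp (2 * R) * Real.exp (q * m' j - q * m i) :=
          mul_le_mul_of_nonneg_right hv (Real.exp_pos _).le
      _ = Real.exp (2 * R + (q * m' j - q * m i)) := (Real.exp_add _ _).symm
      _ ≤ Real.exp (2 * q) := by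
          apply Real.exp_le_exp.mpr
          linarith [e1.1, e2.2, e3.2, e4.1]

theorem se_le_of_entry {n : ℕ} (v : AbsoluteValue F ℝ) (A : Matrix (Fin n) (Fin n) F) (c : ℝ)
    (h : ∀ i j, v (A i j) ≤ c) : se v A ≤ (n : ℝ) ^ 2 * c := by
  unfold se
  calc ∑ i, ∑ j, v (A i j) ≤ ∑ _i : Fin n, ∑ _j : Fin n, c :=
        Finset.sum_le_sum fun i _ => Finset.sum_le_sum fun j _ => h i j
    _ = (n : ℝ) ^ 2 * c := by
        simp only [Finset.sum_const, Finset.card_univ, Fintype.card_fin, nsmul_eq_mul]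
        ring

theorem beta_close {n : ℕ} (v : AbsoluteValue F ℝ) (ϖ : Fˣ) (hϖ : 1 < v (ϖ : F)) :
    ∃ C : ℝ, 1 ≤ C ∧ ∀ (R S K : ℝ) (a : Fin n → ℝ) (b b' : GL (Fin n) F) (m m' : Fin n → ℤ),
      0 ≤ R → 0 ≤ S → 2 * R + 2 * S + 2 * Real.log (v (ϖ : F)) ≤ K →
      (∀ i j, j < i → b.1 i j = 0) → (∀ i j, j < i → (b⁻¹).1 i j = 0) →
      (∀ i j, j < i → b'.1 i j = 0) → (∀ i j, j < i → (b'⁻¹).1 i j = 0) →
      ln v (b⁻¹ * b') ≤ R →
      (∀ i, |Real.log (v (b.1 i i)) - a i| ≤ S) → (∀ i, |Real.log (v (b'.1 i i)) - a i| ≤ S) →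
      (∀ i, |Real.log (v (ϖ : F)) * m i - (a i - (i : ℕ) * K - Real.log (v (b.1 i i)))| ≤
        Real.log (v (ϖ : F))) →
      (∀ i, |Real.log (v (ϖ : F)) * m' i - (a i - (i : ℕ) * K - Real.log (v (b'.1 i i)))| ≤
        Real.log (v (ϖ : F))) →
      ln v ((b * dpi ϖ m)⁻¹ * (b' * dpi ϖ m')) ≤ C := by
  set q : ℝ := Real.log (v (ϖ : F)) with hqd
  set K₀ : ℝ := (n : ℝ) ^ 2 * Real.exp (2 * q) + 1 with hK₀
  have hK1 : 1 ≤ K₀ := by
    rw [hK₀]
    have := Real.exp_pos (2 * q)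
    have h0 : 0 ≤ (n : ℝ) ^ 2 * Real.exp (2 * q) := by positivity
    linarith
  refine ⟨max 1 (((n : ℝ) + 2) * Real.log K₀), le_max_left _ _, ?_⟩
  intro R S K a b b' m m' hR hS hK hb hb' hc hc' hln h1 h2 h3 h4
  refine (ln_le_of_se v _ K₀ hK1 ?_ ?_).trans (le_max_right _ _)
  · have h := se_le_of_entry v ((b * dpi ϖ m)⁻¹ * (b' * dpi ϖ m')).1 (Real.exp (2 * q))
      (beta_entry_le v ϖ hϖ R S K a b b' m m' hR hS hK hb hb' hc hc' hln h1 h2 h3 h4)
    linarith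
  · have e : ((b * dpi ϖ m)⁻¹ * (b' * dpi ϖ m'))⁻¹ = (b' * dpi ϖ m')⁻¹ * (b * dpi ϖ m) := by
      rw [mul_inv_rev, inv_inv]
    have e' : ln v (b'⁻¹ * b) ≤ R := by
      have : b'⁻¹ * b = (b⁻¹ * b')⁻¹ := by rw [mul_inv_rev, inv_inv]
      rw [this, ln_inv]
      exact hln
    rw [e]
    have h := se_le_of_entry v ((b' * dpi ϖ m')⁻¹ * (b * dpi ϖ m)).1 (Real.exp (2 * q))
      (beta_entry_le v ϖ hϖ R S K a b' b m' m hR hS hK hc hc' hb hb' e' h2 h1 h4 h3)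
    linarith

/-- heights of close upper triangular matrices are close -/
theorem height_close {n : ℕ} (v : AbsoluteValue F ℝ) (b b' : GL (Fin n) F)
    (hb : ∀ i j, j < i → b.1 i j = 0) (hb' : ∀ i j, j < i → (b⁻¹).1 i j = 0)
    (hc : ∀ i j, j < i → b'.1 i j = 0) (hc' : ∀ i j, j < i → (b'⁻¹).1 i j = 0) (i : Fin n) :
    |Real.log (v (b'.1 i i)) - Real.log (v (b.1 i i))| ≤ 2 * ln v (b⁻¹ * b') := by
  have hse : ∀ A : Matrix (Fin n) (Fin n) F, v (A i i) ≤ se v A := by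
    intro A
    unfold se
    calc v (A i i) ≤ ∑ k, v (A i k) :=
          Finset.single_le_sum (f := fun k => v (A i k)) (fun k _ => v.nonneg _)
            (Finset.mem_univ i)
      _ ≤ _ := Finset.single_le_sum (f := fun l => ∑ k, v (A l k))
            (fun l _ => Finset.sum_nonneg fun k _ => v.nonneg _) (Finset.mem_univ i)
  have h1 : Real.exp (Real.log (v (b'.1 i i)) - Real.log (v (b.1 i i)))
      ≤ Real.exp (2 * ln v (b⁻¹ * b')) := by
    rw [← t_diag v b b' hb hb' hc hc' i]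
    exact (hse _).trans (se_le_ln v (b⁻¹ * b')).1
  have h2 : Real.exp (Real.log (v (b.1 i i)) - Real.log (v (b'.1 i i)))
      ≤ Real.exp (2 * ln v (b⁻¹ * b')) := by
    rw [← t_diag v b' b hc hc' hb hb' i]
    have e : b'⁻¹ * b = (b⁻¹ * b')⁻¹ := by rw [mul_inv_rev, inv_inv]
    rw [e]
    exact (hse _).trans (se_le_ln v (b⁻¹ * b')).2
  have h3 := Real.exp_le_exp.mp h1
  have h4 := Real.exp_le_exp.mp h2
  rw [abs_le]
  constructor <;> linarith

end RDG
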