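import Mathlib
import Pool.Agent.Lib.MP_fee02f_an.GG.G11
import Pool.Agent.Lib.MP_fee02f_an.GG.G12
import Pool.Agent.Lib.MP_fee02f_an.GG.G13

/-!
# G14: covers of `GL_n` with bounded multiplicity at all scales
-/

set_option autoImplicit false

open scoped MatrixGroups

namespace RDG

variable {F : Type*} [Field F]

/-- the number of boxes which contain a point -/
theorem G14_count {n : ℕ} (h : Fin n → ℝ) (S : ℝ) (hS : 0 < S) :
    ∃ Z : Finset (Fin n → ℤ), Z.card ≤ 3 ^ n ∧ ∀ z : Fin n → ℤ, (∀ i, |h i - S * z i| ≤ S) → z ∈ Z := by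
  classical
  refine ⟨Fintype.piFinset fun i => Finset.Icc ⌈h i / S - 1⌉ ⌊h i / S + 1⌋, ?_, ?_⟩
  · rw [Fintype.card_piFinset]
    calc ∏ i, (Finset.Icc ⌈h i / S - 1⌉ ⌊h i / S + 1⌋).card ≤ ∏ _i : Fin n, 3 := by
          refine Finset.prod_le_prod' fun i _ => ?_
          rw [Int.card_Icc]
          have h1 : (⌊h i / S + 1⌋ : ℝ) ≤ h i / S + 1 := Int.floor_le _
          have h2 : h i / S - 1 ≤ (⌈h i / S - 1⌉ : ℝ) := Int.le_ceil _
          have h3 : ⌊h i / S + 1⌋ + 1 - ⌈h i / S - 1⌉ ≤ 3 := by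
            have : ((⌊h i / S + 1⌋ + 1 - ⌈h i / S - 1⌉ : ℤ) : ℝ) ≤ (3 : ℤ) := by
              push_cast; linarith
            exact_mod_cast this
          omega
      _ = 3 ^ n := by simp
  · intro z hz
    rw [Fintype.mem_piFinset]
    intro i
    have h1 := abs_le.1 (hz i)
    rw [Finset.mem_Icc]
    constructor
    · rw [Int.ceil_le]
      rw [sub_le_iff_le_add, div_le_iff₀ hS]
      nlinarith [h1.2]
    · rw [Int.le_floor]
      rw [← sub_le_iff_le_add, le_div_iff₀ hS]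
      nlinarith [h1.1]

theorem cover_gl {n : ℕ} (v : AbsoluteValue F ℝ) (hv : LocV v) : ∃ C : ℝ, 1 ≤ C ∧
    ∀ r : ℝ, 1 ≤ r → ∃ 𝒰 : Set (Set (GL (Fin n) F)),
      (∀ U ∈ 𝒰, ∀ x ∈ U, ∀ y ∈ U, ln v (x⁻¹ * y) ≤ C * r) ∧
      (∀ x, {U ∈ 𝒰 | x ∈ U}.Finite ∧ ({U ∈ 𝒰 | x ∈ U}.ncard : ℝ) ≤ C) ∧
      ∀ x y z, ln v (x⁻¹ * y) ≤ r → ln v (x⁻¹ * z) ≤ r → ln v (y⁻¹ * z) ≤ r →
        ∃ U ∈ 𝒰, x ∈ U ∧ y ∈ U ∧ z ∈ U := by
  classical
  have hv' := hv
  obtain ⟨ϖ, hϖ, -⟩ := hv'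
  set q := Real.log (v (ϖ : F)) with hq
  have hq0 : 0 < q := Real.log_pos hϖ
  obtain ⟨C₁, hC₁, hiw⟩ := iwasawa (n := n) v
  choose b k hbk hb hb' hk using hiw
  obtain ⟨C₂, hC₂, hbeta⟩ := beta_close (n := n) v ϖ hϖ
  obtain ⟨C₀, hC₀, htb⟩ := tb_gl (n := n) v hv
  obtain ⟨P, hdense, hcount⟩ := net (ln v) (ln_inv v) (ln_mul_le v) C₀ htb
  set C₃ := 2 * C₀ + ln v (1 : GL (Fin n) F) + C₂ with hC₃
  have hln1 : 0 ≤ ln v (1 : GL (Fin n) F) := ln_nonneg v 1
  have hC₃0 : 0 ≤ C₃ := by rw [hC₃]; linarith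
  obtain ⟨N, hN⟩ := hcount C₃
  set A : ℝ := 2 * (C₁ + 2 * n + (n + 2) * ((4 + 10 * n) * (1 + 2 * C₁) + (2 * n + 1) * q)) + 2 * C₃
    with hA
  have hn0 : (0 : ℝ) ≤ n := Nat.cast_nonneg n
  refine ⟨max 1 (max A (3 ^ n * N)), le_max_left _ _, fun r hr => ?_⟩
  set R := r + 2 * C₁ with hR
  set S := 4 * R with hS
  set K := 2 * R + 2 * S + 2 * q with hK
  have hR0 : 0 < R := by rw [hR]; linarith
  have hS0 : 0 < S := by rw [hS]; linarith
  have hK0 : 0 < K := by rw [hK]; linarith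
  have hRr : R ≤ (1 + 2 * C₁) * r := by rw [hR]; nlinarith
  set h : GL (Fin n) F → Fin n → ℝ := fun x i => Real.log (v ((b x).1 i i)) with hh
  set m : (Fin n → ℤ) → GL (Fin n) F → Fin n → ℤ :=
    fun z x i => round ((S * z i - (i : ℕ) * K - h x i) / q) with hm
  have hmq : ∀ z x i, |q * m z x i - (S * z i - (i : ℕ) * K - h x i)| ≤ q := by
    intro z x i
    have h1 := abs_sub_round ((S * z i - (i : ℕ) * K - h x i) / q)
    have h2 : q * m z x i - (S * z i - (i : ℕ) * K - h x i) =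
        -(q * ((S * z i - (i : ℕ) * K - h x i) / q - (m z x i : ℝ))) := by
      rw [mul_sub, mul_div_cancel₀ _ hq0.ne']; ring
    rw [h2, abs_neg, abs_mul, abs_of_pos hq0]
    have h3 : |(S * z i - (i : ℕ) * K - h x i) / q - (m z x i : ℝ)| ≤ 1 := h1.trans (by norm_num)
    nlinarith [h3, hq0]
  set β : (Fin n → ℤ) → GL (Fin n) F → GL (Fin n) F := fun z x => b x * dpi ϖ (m z x) with hβ
  set U : (Fin n → ℤ) → GL (Fin n) F → Set (GL (Fin n) F) :=
    fun z p => {x | (∀ i, |h x i - S * z i| ≤ S) ∧ ln v (p⁻¹ * β z x) ≤ C₃} with hU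
  have hkx : ∀ x, k x = (b x)⁻¹ * x := fun x => by
    rw [eq_inv_mul_iff_mul_eq]
    exact (hbk x).symm
  -- the distance from `x` to `β z x`
  have hxβ : ∀ z x, (∀ i, |h x i - S * z i| ≤ S) → ln v (x⁻¹ * β z x) ≤
      C₁ + 2 * n + (n + 2) * (S + n * K + q) := by
    intro z x hx
    have e : x⁻¹ * β z x = (k x)⁻¹ * dpi ϖ (m z x) := by
      rw [hkx x, hβ]
      group
    rw [e]
    refine (ln_mul_le _ _ _).trans ?_
    rw [ln_inv]
    have h1 : ln v (dpi ϖ (m z x)) ≤ 2 * n + (n + 2) * (S + n * K + q) := by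
      refine ln_dg_le v _ _ (by positivity) fun i => ?_
      rw [Units.val_zpow_eq_zpow_val, map_zpow₀, Real.log_zpow]
      have h2 := abs_le.1 (hmq z x i)
      have h3 := abs_le.1 (hx i)
      have h4 : ((i : ℕ) : ℝ) ≤ n := by exact_mod_cast i.2.le
      have h5 : ((i : ℕ) : ℝ) * K ≤ n * K := mul_le_mul_of_nonneg_right h4 hK0.le
      have h6 : 0 ≤ ((i : ℕ) : ℝ) * K := by positivity
      rw [abs_le]
      constructor <;> nlinarith [h2.1, h2.2, h3.1, h3.2]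
    linarith [hk x]
  refine ⟨{V | ∃ z, ∃ p ∈ P, V = U z p}, ?_, ?_, ?_⟩
  · rintro V ⟨z, p, hp, rfl⟩ x hx y hy
    have e : x⁻¹ * y = (x⁻¹ * β z x) * ((p⁻¹ * β z x)⁻¹ * ((p⁻¹ * β z y) * (y⁻¹ * β z y)⁻¹)) := by
      group
    have h1 := hxβ z x hx.1
    have h2 := hxβ z y hy.1
    have h3 : ln v (x⁻¹ * y) ≤ ln v (x⁻¹ * β z x) + (ln v (p⁻¹ * β z x) +
        (ln v (p⁻¹ * β z y) + ln v (y⁻¹ * β z y))) := by
      rw [e]
      refine (ln_mul_le _ _ _).trans (add_le_add le_rfl ?_)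
      refine (ln_mul_le _ _ _).trans ?_
      rw [ln_inv]
      refine add_le_add le_rfl ?_
      refine (ln_mul_le _ _ _).trans ?_
      rw [ln_inv]
    have h4 : S + n * K + q ≤ ((4 + 10 * n) * (1 + 2 * C₁) + (2 * n + 1) * q) * r := by
      have e1 : S + n * K + q = (4 + 10 * n) * R + (2 * n + 1) * q := by rw [hS, hK]; ring
      rw [e1]
      have e2 : (4 + 10 * (n : ℝ)) * R ≤ (4 + 10 * n) * ((1 + 2 * C₁) * r) := by gcongr
      have e3 : (2 * (n : ℝ) + 1) * q ≤ (2 * n + 1) * q * r := by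
        have : 0 ≤ (2 * (n : ℝ) + 1) * q := by positivity
        nlinarith
      linarith
    have h5 : ln v (x⁻¹ * y) ≤ A * r := by
      have e4 : (n + 2) * (S + n * K + q) ≤
          (n + 2) * (((4 + 10 * n) * (1 + 2 * C₁) + (2 * n + 1) * q) * r) := by gcongr
      have e5 : C₁ + 2 * n ≤ (C₁ + 2 * n) * r := by
        have : 0 ≤ C₁ + 2 * n := by linarith
        nlinarith
      have e6 : C₃ ≤ C₃ * r := by nlinarith
      have hx2 := hx.2
      have hy2 := hy.2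
      have eA : A * r = 2 * ((C₁ + 2 * n) * r) + 2 * ((n + 2) *
          (((4 + 10 * n) * (1 + 2 * C₁) + (2 * n + 1) * q) * r)) + 2 * (C₃ * r) := by
        rw [hA]; ring
      rw [eA]
      linarith
    refine h5.trans ?_
    have : A ≤ max 1 (max A (3 ^ n * N)) := (le_max_left _ _).trans (le_max_right _ _)
    gcongr
  · intro x
    obtain ⟨Z, hZ, hZ'⟩ := G14_count (h x) S hS0
    set W : Finset (Set (GL (Fin n) F)) := Z.biUnion fun z =>
      (hN (β z x)).1.toFinset.image (fun p => U z p) with hW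
    have hsub : {V ∈ {V | ∃ z, ∃ p ∈ P, V = U z p} | x ∈ V} ⊆ (W : Set (Set (GL (Fin n) F))) := by
      rintro V ⟨⟨z, p, hp, rfl⟩, hx⟩
      rw [Finset.mem_coe, hW, Finset.mem_biUnion]
      refine ⟨z, hZ' z hx.1, ?_⟩
      rw [Finset.mem_image]
      refine ⟨p, ?_, rfl⟩
      rw [Set.Finite.mem_toFinset]
      exact ⟨hp, hx.2⟩
    have hcard : W.card ≤ 3 ^ n * N := by
      refine Finset.card_biUnion_le.trans ?_
      calc ∑ z ∈ Z, ((hN (β z x)).1.toFinset.image (fun p => U z p)).card ≤ ∑ _z ∈ Z, N := by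
            refine Finset.sum_le_sum fun z _ => Finset.card_image_le.trans ?_
            rw [← Set.ncard_eq_toFinset_card _ (hN (β z x)).1]
            exact (hN (β z x)).2
        _ = Z.card * N := by rw [Finset.sum_const, smul_eq_mul]
        _ ≤ 3 ^ n * N := by gcongr
    refine ⟨(Finset.finite_toSet W).subset hsub, ?_⟩
    have h1 := Set.ncard_le_ncard hsub (Finset.finite_toSet W)
    rw [Set.ncard_coe_finset] at h1
    have h2 : ({V ∈ {V | ∃ z, ∃ p ∈ P, V = U z p} | x ∈ V}.ncard : ℝ) ≤ 3 ^ n * N := by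
      exact_mod_cast h1.trans hcard
    exact h2.trans ((le_max_right _ _).trans (le_max_right _ _))
  · intro x y z hxy hxz _
    have hclose : ∀ y, ln v (x⁻¹ * y) ≤ r → ln v ((b x)⁻¹ * b y) ≤ R := by
      intro y hy
      have e : (b x)⁻¹ * b y = k x * ((x⁻¹ * y) * (k y)⁻¹) := by
        rw [hkx x, hkx y]
        group
      rw [e]
      refine (ln_mul_le _ _ _).trans ?_
      have h1 := ln_mul_le v (x⁻¹ * y) (k y)⁻¹
      rw [ln_inv] at h1
      rw [hR]
      linarith [hk x, hk y]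
    set z0 : Fin n → ℤ := fun i => round (h x i / S) with hz0
    have hxz0 : ∀ i, |h x i - S * z0 i| ≤ S / 2 := by
      intro i
      have h1 := abs_sub_round (h x i / S)
      have h2 : h x i - S * z0 i = S * (h x i / S - (z0 i : ℝ)) := by
        rw [mul_sub, mul_div_cancel₀ _ hS0.ne']
      rw [h2, abs_mul, abs_of_pos hS0]
      nlinarith [h1]
    have hbox : ∀ y, ln v (x⁻¹ * y) ≤ r → ∀ i, |h y i - S * z0 i| ≤ S := by
      intro y hy i
      have h1 := height_close v (b x) (b y) (hb x) (hb' x) (hb y) (hb' y) i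
      have h2 := hclose y hy
      have h3 : |h y i - h x i| ≤ S / 2 := by
        refine h1.trans ?_
        rw [hS]; linarith
      have h4 : h y i - S * z0 i = (h y i - h x i) + (h x i - S * z0 i) := by ring
      rw [h4]
      refine (abs_add_le _ _).trans ?_
      linarith [hxz0 i]
    have hboxx : ∀ i, |h x i - S * z0 i| ≤ S := fun i => (hxz0 i).trans (by linarith)
    obtain ⟨p, hp, hpx⟩ := hdense (β z0 x)
    have hmem : ∀ y, ln v (x⁻¹ * y) ≤ r → y ∈ U z0 p := by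
      intro y hy
      refine ⟨hbox y hy, ?_⟩
      have h1 := hbeta R S K (fun i => S * z0 i) (b x) (b y) (m z0 x) (m z0 y) hR0.le hS0.le
        le_rfl (hb x) (hb' x) (hb y) (hb' y) (hclose y hy) hboxx (hbox y hy)
        (fun i => hmq z0 x i) (fun i => hmq z0 y i)
      have e : p⁻¹ * β z0 y = (p⁻¹ * β z0 x) * ((β z0 x)⁻¹ * β z0 y) := by group
      rw [e]
      refine (ln_mul_le _ _ _).trans ?_
      rw [hC₃]
      linarith
    refine ⟨U z0 p, ⟨z0, p, hp, rfl⟩, ?_, hmem y hxy, hmem z hxz⟩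
    refine ⟨hboxx, ?_⟩
    rw [hC₃]
    linarith

end RDG
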