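import Mathlib
import Pool.Agent.Lib.MP_fee02f_an.GG.G10
import Pool.Agent.Lib.MP_fee02f_an.GG.G14

/-!
# G15: `RGeo` for coarsely midpoint closed subgroups of `GL_n`

`CMid v H`: the hypothesis (with `choose`: `A c`, `B c`, `D c`, `E c`, `h c`; `m c = h c`). `rgeo_sub`: `ℓ h = ln v h`, `Φ h = Pt v h`, `Φ_*` from G10 (restricted), `cover`: the sets
`(↑) ⁻¹' U`, `U ∈ 𝒰` (`{..}` is an image, so finite and `ncard ≤`). `(m c)⁻¹ x = ((m c)⁻¹ (A dg E)) * ((A dg E)⁻¹ x)`, so `Pt_mul` with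
bounded `k` and `mid_pt`; `1 + ln ((A dg E)⁻¹ x) ≤ C (1 + ln x + ln c)` (`ln (dg E) ≤ C (1 + ln (dg D))`, `log_dg_le`,
`ln_dg_le`). Take the maximum of all constants: every condition is monotone in `C`.
Both groups are treated at once through a homomorphism `ι : H →* GL_n(F)`.
-/

set_option autoImplicit false

open scoped MatrixGroups

namespace RDG

variable {F : Type*} [Field F]

theorem G15_ln_y {n : ℕ} (v : AbsoluteValue F ℝ) (C₁ : ℝ) (hC₁ : 0 ≤ C₁)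
    (c A B x : GL (Fin n) F) (D E : Fin n → Fˣ) (hc : c = A * dg D * B) (hA : ln v A ≤ C₁)
    (hB : ln v B ≤ C₁)
    (hE : ∀ i, |2 * Real.log (v (E i : F)) - Real.log (v (D i : F))| ≤ C₁) :
    ln v ((A * dg E)⁻¹ * x) ≤ (C₁ + 2 * n + (n + 2) * (3 * C₁ + 1) + 1) * (1 + ln v x + ln v c) := by
  have hx := ln_nonneg v x
  have hcn := ln_nonneg v c
  have h1 : ln v (dg D) ≤ ln v c + 2 * C₁ := by
    have e : dg D = A⁻¹ * c * B⁻¹ := by rw [hc]; group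
    have h2 := ln_mul_le v (A⁻¹ * c) B⁻¹
    have h3 := ln_mul_le v A⁻¹ c
    rw [ln_inv] at h2 h3
    rw [e]
    linarith
  have h2 : ln v (dg E) ≤ 2 * n + (n + 2) * (ln v c + 3 * C₁) := by
    refine ln_dg_le v E _ (by linarith) fun i => ?_
    have h3 := log_dg_le v D i
    have h4 := hE i
    rw [abs_le] at h3 h4 ⊢
    constructor <;> linarith [h3.1, h3.2, h4.1, h4.2]
  have h3 : ln v ((A * dg E)⁻¹ * x) ≤ C₁ + (2 * n + (n + 2) * (ln v c + 3 * C₁)) + ln v x := by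
    have h4 := ln_mul_le v (A * dg E)⁻¹ x
    have h5 := ln_mul_le v A (dg E)
    rw [ln_inv] at h4
    linarith
  refine h3.trans ?_
  have hn : (0 : ℝ) ≤ n := Nat.cast_nonneg n
  have h6 : 0 ≤ C₁ * ln v x := mul_nonneg hC₁ hx
  have h7 : 0 ≤ C₁ * ln v c := mul_nonneg hC₁ hcn
  have h8 : 0 ≤ n * ln v x := mul_nonneg hn hx
  have h9 : 0 ≤ n * ln v c := mul_nonneg hn hcn
  have h10 : 0 ≤ n * (C₁ * ln v x) := mul_nonneg hn h6
  have h11 : 0 ≤ n * (C₁ * ln v c) := mul_nonneg hn h7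
  nlinarith

/-- the general form, for a homomorphism to `GL_n` -/
theorem G15_core {H : Type*} [Group H] {n : ℕ} (v : AbsoluteValue F ℝ) (hv : LocV v)
    (ι : H →* GL (Fin n) F)
    (hH : ∃ C : ℝ, ∀ c : H, ∃ (A B : GL (Fin n) F) (D E : Fin n → Fˣ), ι c = A * dg D * B ∧
      ln v A ≤ C ∧ ln v B ≤ C ∧
      (∀ i, |2 * Real.log (v (E i : F)) - Real.log (v (D i : F))| ≤ C) ∧
      ∃ h : H, ln v ((ι h)⁻¹ * (A * dg E)) ≤ C) :
    ∃ M : RGeo H, (∀ h : H, M.ℓ h = ln v (ι h)) ∧ ∀ h : H, M.Φ h = Pt v (ι h) := by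
  obtain ⟨C₀, hC₀⟩ := hH
  obtain ⟨C₁, hC₁0, hC₁⟩ : ∃ C₁ : ℝ, 0 ≤ C₁ ∧ ∀ c : H, ∃ (A B : GL (Fin n) F)
      (D E : Fin n → Fˣ), ι c = A * dg D * B ∧ ln v A ≤ C₁ ∧ ln v B ≤ C₁ ∧
      (∀ i, |2 * Real.log (v (E i : F)) - Real.log (v (D i : F))| ≤ C₁) ∧
      ∃ h : H, ln v ((ι h)⁻¹ * (A * dg E)) ≤ C₁ := by
    refine ⟨max C₀ 0, le_max_right _ _, fun c => ?_⟩
    obtain ⟨A, B, D, E, h1, h2, h3, h4, h, h5⟩ := hC₀ c
    exact ⟨A, B, D, E, h1, h2.trans (le_max_left _ _), h3.trans (le_max_left _ _),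
      fun i => (h4 i).trans (le_max_left _ _), h, h5.trans (le_max_left _ _)⟩
  choose A B D E hdec hA hB hE m hm using hC₁
  obtain ⟨C₂, hC₂, hPtle⟩ := Pt_le (F := F) (n := n) v
  obtain ⟨C₃, hC₃, hlePt⟩ := le_Pt (F := F) (n := n) v
  obtain ⟨C₄, hC₄, hPtmul⟩ := Pt_mul (F := F) (n := n) v
  obtain ⟨C₅, hC₅, hmid⟩ := mid_pt (F := F) (n := n) v C₁
  obtain ⟨C₆, hC₆, hcov⟩ := cover_gl (F := F) (n := n) v hv
  set K₁ : ℝ := C₁ + 2 * n + (n + 2) * (3 * C₁ + 1) + 1 with hK₁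
  have hK₁0 : 0 ≤ K₁ := by positivity
  set K₂ : ℝ := 2 * C₄ * (1 + C₁) ^ 2 * (1 + K₁) with hK₂
  have hK₂0 : 0 ≤ K₂ := by positivity
  set C : ℝ := C₂ + C₃ + C₄ + C₅ + C₆ + K₂ with hC
  refine ⟨{ C := C, one_le := by linarith
            ℓ := fun h => ln v (ι h)
            nonneg := fun h => ln_nonneg v _
            inv := fun h => by simp only [map_inv, ln_inv]
            mul_le := fun g h => by simp only [map_mul]; exact ln_mul_le v _ _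
            Φ := fun h => Pt v (ι h)
            Φ_nonneg := fun h => Pt_nonneg v _
            Φ_le := fun g => (hPtle (ι g)).trans
              (mul_le_mul_of_nonneg_right (by linarith) (sq_nonneg _))
            le_Φ := fun g => (hlePt (ι g)).trans
              (mul_le_mul_of_nonneg_right (by linarith) (by positivity))
            Φ_mul := fun k g => ?_
            m := m
            mid := fun c x => ?_
            cover := fun r hr => ?_ }, fun _ => rfl, fun _ => rfl⟩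
  · rw [map_mul]
    have h1 := hPtmul (ι k) (ι g)
    have h2 := ln_nonneg v (ι k)
    have h3 := ln_nonneg v (ι g)
    have h4 : C₄ * ((1 + ln v (ι k)) ^ 2 * (1 + ln v (ι g))) ≤
        C * ((1 + ln v (ι k)) ^ 2 * (1 + ln v (ι g))) :=
      mul_le_mul_of_nonneg_right (by linarith) (by positivity)
    linarith
  · have hx := ln_nonneg v (ι x)
    have hcn := ln_nonneg v (ι c)
    set y : GL (Fin n) F := (A c * dg (E c))⁻¹ * ι x with hy
    set k : GL (Fin n) F := (ι (m c))⁻¹ * (A c * dg (E c)) with hk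
    have hyn := ln_nonneg v y
    have hkn := ln_nonneg v k
    have e1 : ι ((m c)⁻¹ * x) = k * y := by
      rw [map_mul, map_inv, hk, hy]
      group
    have h1 := hPtmul k y
    have h2 := hmid (A c) (B c) (D c) (E c) (hA c) (hB c) (hE c) (ι x)
    rw [← hdec c, ← hy] at h2
    have h3 : ln v y ≤ K₁ * (1 + ln v (ι x) + ln v (ι c)) :=
      G15_ln_y v C₁ hC₁0 (ι c) (A c) (B c) (ι x) (D c) (E c) (hdec c) (hA c) (hB c) (hE c)
    have h4 : C₄ * (1 + ln v k) ^ 2 * (1 + ln v y) ≤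
        C₄ * (1 + C₁) ^ 2 * ((1 + K₁) * (1 + ln v (ι x) + ln v (ι c))) := by
      have h5 : (1 + ln v k) ^ 2 ≤ (1 + C₁) ^ 2 :=
        pow_le_pow_left₀ (by linarith) (by linarith [hm c]) 2
      have h6 : 1 + ln v y ≤ (1 + K₁) * (1 + ln v (ι x) + ln v (ι c)) := by nlinarith
      have h7 : C₄ * (1 + ln v k) ^ 2 ≤ C₄ * (1 + C₁) ^ 2 :=
        mul_le_mul_of_nonneg_left h5 (by linarith)
      exact mul_le_mul h7 h6 (by linarith) (by positivity)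
    have h8 : ln v (ι c) ^ 2 / C ≤ ln v (ι c) ^ 2 / C₅ :=
      div_le_div_of_nonneg_left (sq_nonneg _) (by linarith) (by linarith)
    have h9 : ι (c⁻¹ * x) = (ι c)⁻¹ * ι x := by rw [map_mul, map_inv]
    rw [e1, h9]
    have h10 : 2 * (C₄ * (1 + C₁) ^ 2 * ((1 + K₁) * (1 + ln v (ι x) + ln v (ι c)))) =
        K₂ * (1 + ln v (ι x) + ln v (ι c)) := by rw [hK₂]; ring
    have h11 : (C₅ + K₂) * (1 + ln v (ι x) + ln v (ι c)) ≤ C * (1 + ln v (ι x) + ln v (ι c)) :=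
      mul_le_mul_of_nonneg_right (by linarith) (by linarith)
    nlinarith
  · obtain ⟨𝒰, h1, h2, h3⟩ := hcov r hr
    refine ⟨(fun U => ι ⁻¹' U) '' 𝒰, ?_, ?_, ?_⟩
    · rintro _ ⟨U, hU, rfl⟩ x hx y hy
      rw [map_mul, map_inv]
      exact (h1 U hU _ hx _ hy).trans (mul_le_mul_of_nonneg_right (by linarith) (by linarith))
    · intro x
      obtain ⟨h4, h5⟩ := h2 (ι x)
      have h6 : {U ∈ (fun U => ι ⁻¹' U) '' 𝒰 | x ∈ U} ⊆
          (fun U => ι ⁻¹' U) '' {U ∈ 𝒰 | ι x ∈ U} := by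
        rintro _ ⟨⟨U, hU, rfl⟩, hx⟩
        exact ⟨U, ⟨hU, hx⟩, rfl⟩
      have h7 : ((fun U => ι ⁻¹' U) '' {U ∈ 𝒰 | ι x ∈ U}).Finite := h4.image _
      refine ⟨h7.subset h6, ?_⟩
      have h8 : {U ∈ (fun U => ι ⁻¹' U) '' 𝒰 | x ∈ U}.ncard ≤ {U ∈ 𝒰 | ι x ∈ U}.ncard :=
        (Set.ncard_le_ncard h6 h7).trans (Set.ncard_image_le h4)
      have h9 : ({U ∈ (fun U => ι ⁻¹' U) '' 𝒰 | x ∈ U}.ncard : ℝ) ≤
          ({U ∈ 𝒰 | ι x ∈ U}.ncard : ℝ) := by exact_mod_cast h8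
      linarith
    · intro x y z hxy hxz hyz
      simp only [map_mul, map_inv] at hxy hxz hyz
      obtain ⟨U, hU, hx, hy, hz⟩ := h3 _ _ _ hxy hxz hyz
      exact ⟨_, ⟨U, hU, rfl⟩, hx, hy, hz⟩

theorem rgeo_sub {n : ℕ} (v : AbsoluteValue F ℝ) (hv : LocV v) (H : Subgroup (GL (Fin n) F))
    (hH : CMid v H) : ∃ M : RGeo H, (∀ h : H, M.ℓ h = ln v (h : GL (Fin n) F)) ∧
      ∀ h : H, M.Φ h = Pt v (h : GL (Fin n) F) := by
  refine G15_core v hv H.subtype ?_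
  obtain ⟨C, hC⟩ := hH
  refine ⟨C, fun c => ?_⟩
  obtain ⟨A, B, D, E, h1, h2, h3, h4, h, h5, h6⟩ := hC c c.2
  exact ⟨A, B, D, E, h1, h2, h3, h4, ⟨h, h5⟩, h6⟩

theorem CMid_top {n : ℕ} (v : AbsoluteValue F ℝ) (hv : ∃ ϖ : Fˣ, 1 < v (ϖ : F)) :
    CMid v (⊤ : Subgroup (GL (Fin n) F)) := by
  obtain ⟨ϖ, hϖ⟩ := hv
  obtain ⟨C, hC, hdec⟩ := decomp (F := F) (n := n) v
  have h1 := ln_one_le (F := F) (n := n) v
  have h0 := ln_nonneg v (1 : GL (Fin n) F)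
  have hl : 0 < Real.log (v (ϖ : F)) := Real.log_pos hϖ
  refine ⟨C + Real.log (v (ϖ : F)) + 2 * n, fun c _ => ?_⟩
  obtain ⟨A, B, D, hc, hA, hB⟩ := hdec c
  obtain ⟨E, hE⟩ := half v ϖ hϖ D
  refine ⟨A, B, D, E, hc, by linarith, by linarith, fun i => (hE i).trans (by linarith),
    A * dg E, trivial, ?_⟩
  rw [inv_mul_cancel]
  linarith

theorem rgeo_gl {n : ℕ} (v : AbsoluteValue F ℝ) (hv : LocV v) :
    ∃ M : RGeo (GL (Fin n) F), (∀ g, M.ℓ g = ln v g) ∧ ∀ g, M.Φ g = Pt v g := by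
  obtain ⟨ϖ, hϖ, _⟩ := id hv
  obtain ⟨C, hC⟩ := CMid_top (F := F) (n := n) v ⟨ϖ, hϖ⟩
  refine G15_core v hv (MonoidHom.id _) ⟨C, fun c => ?_⟩
  obtain ⟨A, B, D, E, h1, h2, h3, h4, h, _, h6⟩ := hC c trivial
  exact ⟨A, B, D, E, h1, h2, h3, h4, h, h6⟩

end RDG
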