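import Mathlib
import Pool.Agent.Lib.MP_fee02f_an.GG.Defs

/-!
# G16: finite products of `RGeo` groups

`ℓ g = ∑ i, ℓ (g i)`, `Φ g = ∑ i, Φ (g i)`, `m c = fun i => m (c i)`; `le_Φ`:
`ℓ (g i) ≤ C (1 + sqrt Φ (g i)) ≤ C (1 + sqrt Φ g)`; `mid`: sum over `i` and `(∑ ℓ) ^ 2 ≤ card * ∑ ℓ ^ 2`
(`sq_sum_le_card_mul_sum_sq`); `Φ_mul`: `(1 + ℓ (k i)) ^ 2 (1 + ℓ (g i)) ≤ (1 + ℓ k) ^ 2 (1 + ℓ g)`. `cover`: sets
`Set.pi Set.univ U` with `U i` in the cover of `G i` (with the same `r`); `{..}` is contained in the image of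
`Fintype.piFinset` of the finite sets, so `ncard ≤ ∏ i, C i`; diameter `≤ ∑ i, C i * r`. One constant
`C` = maximum over `i` times `card + 1` etc. `RGeo.prod` in the same way, or from `pi` over `Bool`/directly.
-/

set_option autoImplicit false

namespace RDG

theorem RGeo.pi {ι : Type*} [Fintype ι] {G : ι → Type*} [∀ i, Group (G i)]
    (M : ∀ i, RGeo (G i)) : ∃ M' : RGeo (∀ i, G i), ∀ g, M'.ℓ g = ∑ i, (M i).ℓ (g i) := by
  classical
  set S : ℝ := 1 + ∑ i, (M i).C with hS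
  set P : ℝ := ∏ i, (M i).C with hP
  set N : ℝ := (Fintype.card ι : ℝ) with hN
  have hCpos : ∀ i, 0 < (M i).C := fun i => lt_of_lt_of_le one_pos (M i).one_le
  have hsum0 : 0 ≤ ∑ i, (M i).C := Finset.sum_nonneg fun i _ => (hCpos i).le
  have hS1 : 1 ≤ S := by rw [hS]; linarith
  have hCS : ∀ i, (M i).C ≤ S := by
    intro i
    have h := Finset.single_le_sum (f := fun i => (M i).C) (fun j _ => (hCpos j).le)
      (Finset.mem_univ i)
    rw [hS]
    linarith
  have hsumS : ∑ i, (M i).C ≤ S := by rw [hS]; linarith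
  have hP1 : 1 ≤ P := by
    rw [hP]
    exact Finset.one_le_prod (fun i _ => (M i).one_le)
  have hN0 : 0 ≤ N := Nat.cast_nonneg _
  set C : ℝ := S * (N + 1) + P with hC
  have hSC : S ≤ C := by rw [hC]; nlinarith
  have hPC : P ≤ C := by rw [hC]; nlinarith
  have hNSC : N * S ≤ C := by rw [hC]; nlinarith
  have hC1 : 1 ≤ C := le_trans hS1 hSC
  have hC0 : 0 < C := lt_of_lt_of_le one_pos hC1
  set ℓ : (∀ i, G i) → ℝ := fun g => ∑ i, (M i).ℓ (g i) with hℓ
  set Φ : (∀ i, G i) → ℝ := fun g => ∑ i, (M i).Φ (g i) with hΦ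
  have hℓi : ∀ g i, (M i).ℓ (g i) ≤ ℓ g := fun g i =>
    Finset.single_le_sum (f := fun i => (M i).ℓ (g i)) (fun j _ => (M j).nonneg _)
      (Finset.mem_univ i)
  have hℓ0 : ∀ g, 0 ≤ ℓ g := fun g => Finset.sum_nonneg fun i _ => (M i).nonneg _
  have hΦi : ∀ g i, (M i).Φ (g i) ≤ Φ g := fun g i =>
    Finset.single_le_sum (f := fun i => (M i).Φ (g i)) (fun j _ => (M j).Φ_nonneg _)
      (Finset.mem_univ i)
  have hΦ0 : ∀ g, 0 ≤ Φ g := fun g => Finset.sum_nonneg fun i _ => (M i).Φ_nonneg _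
  refine ⟨⟨C, hC1, ℓ, hℓ0, ?_, ?_, Φ, hΦ0, ?_, ?_, ?_, fun c i => (M i).m (c i), ?_, ?_⟩,
    fun g => rfl⟩
  · intro g
    exact Finset.sum_congr rfl fun i _ => (M i).inv (g i)
  · intro g h
    simp only [hℓ]
    rw [← Finset.sum_add_distrib]
    exact Finset.sum_le_sum fun i _ => (M i).mul_le (g i) (h i)
  · intro g
    calc Φ g ≤ ∑ i, (M i).C * (1 + ℓ g) ^ 2 := by
          refine Finset.sum_le_sum fun i _ => ((M i).Φ_le (g i)).trans ?_
          have h1 := hℓi g i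
          have h2 := (M i).nonneg (g i)
          have h3 := (hCpos i).le
          gcongr
      _ = (∑ i, (M i).C) * (1 + ℓ g) ^ 2 := by rw [Finset.sum_mul]
      _ ≤ C * (1 + ℓ g) ^ 2 := by
          have := hsumS.trans hSC
          gcongr
  · intro g
    calc ℓ g ≤ ∑ i, (M i).C * (1 + Real.sqrt (Φ g)) := by
          refine Finset.sum_le_sum fun i _ => ((M i).le_Φ (g i)).trans ?_
          have h1 := hΦi g i
          have h3 := (hCpos i).le
          gcongr
      _ = (∑ i, (M i).C) * (1 + Real.sqrt (Φ g)) := by rw [Finset.sum_mul]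
      _ ≤ C * (1 + Real.sqrt (Φ g)) := by
          have := hsumS.trans hSC
          have h0 := Real.sqrt_nonneg (Φ g)
          gcongr
  · intro k g
    calc Φ (k * g) ≤ ∑ i, ((M i).Φ (g i) + (M i).C * (1 + ℓ k) ^ 2 * (1 + ℓ g)) := by
          refine Finset.sum_le_sum fun i _ => ((M i).Φ_mul (k i) (g i)).trans ?_
          have h1 := hℓi k i
          have h2 := (M i).nonneg (k i)
          have h3 := hℓi g i
          have h4 := (M i).nonneg (g i)
          have h5 := (hCpos i).le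
          gcongr
      _ = Φ g + (∑ i, (M i).C) * (1 + ℓ k) ^ 2 * (1 + ℓ g) := by
          rw [Finset.sum_add_distrib, Finset.sum_mul, Finset.sum_mul]
      _ ≤ Φ g + C * (1 + ℓ k) ^ 2 * (1 + ℓ g) := by
          have := hsumS.trans hSC
          have h0 := hℓ0 k
          have h1 := hℓ0 g
          gcongr
  · intro c x
    have hsum : ∑ i, (2 * (M i).Φ (((M i).m (c i))⁻¹ * x i) + (M i).ℓ (c i) ^ 2 / (M i).C)
        ≤ ∑ i, ((M i).Φ (x i) + (M i).Φ ((c i)⁻¹ * x i)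
          + (M i).C * (1 + ℓ x + ℓ c)) := by
      refine Finset.sum_le_sum fun i _ => ((M i).mid (c i) (x i)).trans ?_
      have h1 := hℓi x i
      have h3 := hℓi c i
      have h5 := (hCpos i).le
      gcongr
    rw [Finset.sum_add_distrib, Finset.sum_add_distrib, Finset.sum_add_distrib,
      ← Finset.mul_sum, ← Finset.sum_mul] at hsum
    have h1 : ℓ c ^ 2 / C ≤ ∑ i, (M i).ℓ (c i) ^ 2 / (M i).C := by
      have h2 : ℓ c ^ 2 ≤ N * ∑ i, (M i).ℓ (c i) ^ 2 := by
        have h := sq_sum_le_card_mul_sum_sq (s := (Finset.univ : Finset ι))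
          (f := fun i => (M i).ℓ (c i))
        rw [Finset.card_univ] at h
        exact h
      have h3 : ∑ i, (M i).ℓ (c i) ^ 2 ≤ S * ∑ i, (M i).ℓ (c i) ^ 2 / (M i).C := by
        rw [Finset.mul_sum]
        refine Finset.sum_le_sum fun i _ => ?_
        have h4 : (M i).ℓ (c i) ^ 2 = (M i).C * ((M i).ℓ (c i) ^ 2 / (M i).C) := by
          have := (hCpos i).ne'
          field_simp
        calc (M i).ℓ (c i) ^ 2 = (M i).C * ((M i).ℓ (c i) ^ 2 / (M i).C) := h4
          _ ≤ S * ((M i).ℓ (c i) ^ 2 / (M i).C) := by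
              have h5 : 0 ≤ (M i).ℓ (c i) ^ 2 / (M i).C := div_nonneg (sq_nonneg _) (hCpos i).le
              exact mul_le_mul_of_nonneg_right (hCS i) h5
      have h6 : 0 ≤ ∑ i, (M i).ℓ (c i) ^ 2 / (M i).C :=
        Finset.sum_nonneg fun i _ => div_nonneg (sq_nonneg _) (hCpos i).le
      rw [div_le_iff₀ hC0]
      calc ℓ c ^ 2 ≤ N * ∑ i, (M i).ℓ (c i) ^ 2 := h2
        _ ≤ N * (S * ∑ i, (M i).ℓ (c i) ^ 2 / (M i).C) := mul_le_mul_of_nonneg_left h3 hN0
        _ = N * S * ∑ i, (M i).ℓ (c i) ^ 2 / (M i).C := by ring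
        _ ≤ C * ∑ i, (M i).ℓ (c i) ^ 2 / (M i).C := mul_le_mul_of_nonneg_right hNSC h6
        _ = _ := by ring
    have h2 : (∑ i, (M i).C) * (1 + ℓ x + ℓ c) ≤ C * (1 + ℓ x + ℓ c) := by
      have := hsumS.trans hSC
      have h0 := hℓ0 x
      have h1 := hℓ0 c
      gcongr
    have e1 : Φ ((fun i => (M i).m (c i))⁻¹ * x)
        = ∑ i, (M i).Φ (((M i).m (c i))⁻¹ * x i) := rfl
    have e2 : Φ (c⁻¹ * x) = ∑ i, (M i).Φ ((c i)⁻¹ * x i) := rfl
    have e3 : Φ x = ∑ i, (M i).Φ (x i) := rfl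
    rw [e1, e2, e3]
    linarith
  · intro r hr
    choose 𝒰 h1 h2 h3 using fun i => (M i).cover r hr
    refine ⟨{V | ∃ U : ∀ i, Set (G i), (∀ i, U i ∈ 𝒰 i) ∧ V = Set.pi Set.univ U}, ?_, ?_, ?_⟩
    · rintro V ⟨U, hU, rfl⟩ x hx y hy
      calc ℓ (x⁻¹ * y) ≤ ∑ i, (M i).C * r :=
            Finset.sum_le_sum fun i _ => h1 i (U i) (hU i) (x i) (hx i trivial) (y i) (hy i trivial)
        _ = (∑ i, (M i).C) * r := by rw [Finset.sum_mul]
        _ ≤ C * r := by
            have := hsumS.trans hSC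
            gcongr
    · intro x
      have hfin : ∀ i, {U ∈ 𝒰 i | x i ∈ U}.Finite := fun i => (h2 i (x i)).1
      set T : Finset (∀ i, Set (G i)) := Fintype.piFinset fun i => (hfin i).toFinset with hT
      have hsub : {V ∈ {V | ∃ U : ∀ i, Set (G i), (∀ i, U i ∈ 𝒰 i) ∧ V = Set.pi Set.univ U} | x ∈ V}
          ⊆ ((T.image fun U => Set.pi Set.univ U : Finset (Set (∀ i, G i))) : Set (Set (∀ i, G i))) := by
        rintro V ⟨⟨U, hU, rfl⟩, hx⟩
        rw [Finset.coe_image]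
        refine ⟨U, ?_, rfl⟩
        rw [Finset.mem_coe, hT, Fintype.mem_piFinset]
        intro i
        rw [Set.Finite.mem_toFinset]
        exact ⟨hU i, hx i trivial⟩
      refine ⟨(Finset.finite_toSet _).subset hsub, ?_⟩
      have hle := Set.ncard_le_ncard hsub (Finset.finite_toSet _)
      rw [Set.ncard_coe_finset] at hle
      have hle2 : (T.image fun U => Set.pi Set.univ U).card ≤ T.card := Finset.card_image_le
      have hcard : (T.card : ℝ) ≤ P := by
        rw [hT, Fintype.card_piFinset, Nat.cast_prod, hP]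
        refine Finset.prod_le_prod (fun i _ => Nat.cast_nonneg _) fun i _ => ?_
        rw [← Set.ncard_eq_toFinset_card _ (hfin i)]
        exact (h2 i (x i)).2
      calc _ ≤ (T.card : ℝ) := by exact_mod_cast hle.trans hle2
        _ ≤ P := hcard
        _ ≤ C := hPC
    · intro x y z hxy hxz hyz
      have h4 : ∀ i, ∃ U ∈ 𝒰 i, x i ∈ U ∧ y i ∈ U ∧ z i ∈ U := fun i =>
        h3 i (x i) (y i) (z i) ((hℓi (x⁻¹ * y) i).trans hxy) ((hℓi (x⁻¹ * z) i).trans hxz)
          ((hℓi (y⁻¹ * z) i).trans hyz)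
      choose U hU hx hy hz using h4
      exact ⟨Set.pi Set.univ U, ⟨U, hU, rfl⟩, fun i _ => hx i, fun i _ => hy i, fun i _ => hz i⟩

end RDG
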