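import Mathlib
import Pool.Agent.Lib.MP_fee02f_an.GG.G00

/-!
# The absolute value of a local field: definition
-/

set_option autoImplicit false

open Topology

namespace RDG

/-- the topology of `F` is defined by the nontrivial absolute value `v`, and balls are compact -/
structure VTop (F : Type*) [Field F] [TopologicalSpace F] (v : AbsoluteValue F ℝ) : Prop where
  nontriv : ∃ ϖ : Fˣ, 1 < v (ϖ : F)
  open_ball : ∀ (x : F) (r : ℝ), IsOpen {y : F | v (y - x) < r}
  basis : ∀ (x : F), ∀ U ∈ 𝓝 x, ∃ ε : ℝ, 0 < ε ∧ ∀ y, v (y - x) < ε → y ∈ U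
  compact : ∀ r : ℝ, IsCompact {x : F | v x ≤ r}

end RDG
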