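import Mathlib
import Pool.Agent.Lib.MP_fee02f_an.GG.VTop

/-!
# G17: `VTop` implies `LocV`; `ℝ` and `ℂ`

`locv`: `{x | v x ≤ v ϖ}` is compact and covered by the open sets `{y | v (y - x) < 1}`. `vtop_rclike`: the norm
(`v = NormedField.toAbsoluteValue F` or `IsAbsoluteValue.toAbsoluteValue norm`), `ϖ = 2`, `ProperSpace`.
-/

set_option autoImplicit false

namespace RDG

theorem VTop.locv {F : Type*} [Field F] [TopologicalSpace F] {v : AbsoluteValue F ℝ}
    (h : VTop F v) : LocV v := by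
  classical
  obtain ⟨ϖ, hϖ⟩ := h.nontriv
  refine ⟨ϖ, hϖ, ?_⟩
  obtain ⟨T, hT⟩ := (h.compact (v (ϖ : F))).elim_finite_subcover
    (fun x : F => {y : F | v (y - x) < 1}) (fun x => h.open_ball x 1) (by
      intro x _
      refine Set.mem_iUnion.2 ⟨x, ?_⟩
      show v (x - x) < 1
      rw [sub_self, map_zero]
      exact one_pos)
  refine ⟨T, fun x hx => ?_⟩
  obtain ⟨t, ht, hxt⟩ := Set.mem_iUnion₂.1 (hT hx)
  exact ⟨t, ht, le_of_lt hxt⟩

theorem vtop_rclike (F : Type*) [RCLike F] : ∃ v : AbsoluteValue F ℝ, VTop F v := by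
  have hb : ∀ (x : F) (r : ℝ), {y : F | NormedField.toAbsoluteValue F (y - x) < r} =
      Metric.ball x r := by
    intro x r
    ext y
    rw [Metric.mem_ball, dist_eq_norm]
    rfl
  refine ⟨NormedField.toAbsoluteValue F, ?_, ?_, ?_, ?_⟩
  · refine ⟨Units.mk0 (2 : F) two_ne_zero, ?_⟩
    show 1 < ‖(2 : F)‖
    rw [RCLike.norm_two]
    norm_num
  · intro x r
    rw [hb]
    exact Metric.isOpen_ball
  · intro x U hU
    obtain ⟨ε, hε, hU⟩ := Metric.mem_nhds_iff.1 hU
    refine ⟨ε, hε, fun y hy => hU ?_⟩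
    rw [← hb]
    exact hy
  · intro r
    have h : {x : F | NormedField.toAbsoluteValue F x ≤ r} = Metric.closedBall (0 : F) r := by
      ext y
      rw [mem_closedBall_zero_iff]
      rfl
    rw [h]
    exact isCompact_closedBall 0 r

end RDG
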