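import Mathlib
import Pool.Agent.Lib.MP_fee02f_an.GG.VTop
import Pool.Agent.Lib.MP_fee02f_an.M1

/-!
# G18: non-archimedean local fields

`vLoc F : Valuation F ℤᵐ⁰` (file `DefsM.lean`; lemmas in `M1.lean`: `M1_surj`, `isOpen_ball`, `isCompact_ball`). Absolute
value: `v x = 0` if `x = 0` and `2 ^ (WithZero.log (vLoc F x))` otherwise (`Real` zpow; multiplicative because
`WithZero.log` is additive on nonzero elements; `v (x + y) ≤ max (v x) (v y)`). `ϖ` with `vLoc F ϖ = exp 1`. Open balls:
`{y | v (y - x) < r}` is empty (`r ≤ 0`) or a union of sets `{y | vLoc F (y - z) ≤ exp k}` (translates of `isOpen_ball`);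
`basis`: `IsValuativeTopology.mem_nhds_iff` (as in `isOpen_ball`); `compact`: `isCompact_ball` (for `r < 0` empty;
for `r ≥ 0` the set is `{vLoc F x ≤ a}` with `a = 0` or `a = exp ⌊log₂ r⌋`: or a closed subset of such a ball).
-/

set_option autoImplicit false

open scoped WithZero
open ValuativeRel

namespace RDG

theorem vtop_nonarch (F : Type*) [Field F] [ValuativeRel F] [TopologicalSpace F]
    [IsNonarchimedeanLocalField F] : ∃ v : AbsoluteValue F ℝ, VTop F v := by
  classical
  obtain ⟨w, hw⟩ : ∃ w : Valuation F ℤᵐ⁰, w = RapidDecay.vLoc F := ⟨_, rfl⟩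
  obtain ⟨N, hN⟩ : ∃ N : F → ℝ, ∀ x, N x = if x = 0 then 0 else (2 : ℝ) ^ (WithZero.log (w x)) :=
    ⟨fun x => if x = 0 then 0 else (2 : ℝ) ^ (WithZero.log (w x)), fun _ => rfl⟩
  have hw0 : ∀ x : F, x ≠ 0 → w x ≠ 0 := fun x hx => w.ne_zero_iff.2 hx
  have hN0 : N 0 = 0 := by rw [hN, if_pos rfl]
  have hN1 : ∀ x : F, x ≠ 0 → N x = (2 : ℝ) ^ (WithZero.log (w x)) := by
    intro x hx
    rw [hN, if_neg hx]
  have hpos : ∀ x : F, x ≠ 0 → 0 < N x := by
    intro x hx
    rw [hN1 x hx]
    positivity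
  have hnn : ∀ x : F, 0 ≤ N x := by
    intro x
    by_cases hx : x = 0
    · rw [hx, hN0]
    · exact (hpos x hx).le
  have hmono : ∀ a b : F, w a ≤ w b → N a ≤ N b := by
    intro a b hab
    by_cases ha : a = 0
    · rw [ha, hN0]
      exact hnn b
    · have hb : b ≠ 0 := by
        rintro rfl
        rw [map_zero] at hab
        exact hw0 a ha (le_zero_iff.1 hab)
      rw [hN1 a ha, hN1 b hb]
      exact zpow_le_zpow_right₀ one_le_two ((WithZero.log_le_log (hw0 a ha) (hw0 b hb)).2 hab)
  have hlt : ∀ a b : F, N a < N b → w a < w b := by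
    intro a b hab
    by_contra hcon
    exact absurd hab (not_lt.2 (hmono b a (not_lt.1 hcon)))
  have hmax : ∀ a b : F, N (a + b) ≤ max (N a) (N b) := by
    intro a b
    rcases le_max_iff.1 (w.map_add a b) with h | h
    · exact (hmono _ _ h).trans (le_max_left _ _)
    · exact (hmono _ _ h).trans (le_max_right _ _)
  have hneg : ∀ a : F, N (-a) = N a := by
    intro a
    refine le_antisymm (hmono _ _ ?_) (hmono _ _ ?_) <;> rw [Valuation.map_neg]
  obtain ⟨v, hv⟩ : ∃ v : AbsoluteValue F ℝ, ∀ x, v x = N x := by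
    refine ⟨{ toFun := N, map_mul' := ?_, nonneg' := hnn, eq_zero' := ?_, add_le' := ?_ },
      fun _ => rfl⟩
    · intro a b
      by_cases ha : a = 0
      · rw [ha, zero_mul, hN0, zero_mul]
      · by_cases hb : b = 0
        · rw [hb, mul_zero, hN0, mul_zero]
        · rw [hN1 a ha, hN1 b hb, hN1 (a * b) (mul_ne_zero ha hb), map_mul,
            WithZero.log_mul (hw0 a ha) (hw0 b hb), zpow_add₀ two_ne_zero]
    · intro a
      refine ⟨fun h => ?_, fun h => by rw [h]; exact hN0⟩
      by_contra ha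
      exact (hpos a ha).ne' h
    · intro a b
      exact (hmax a b).trans (max_le (le_add_of_nonneg_right (hnn b))
        (le_add_of_nonneg_left (hnn a)))
  have hex : ∀ k : ℤ, ∃ z : F, z ≠ 0 ∧ w z = WithZero.exp k ∧ N z = (2 : ℝ) ^ k := by
    intro k
    obtain ⟨z, hz⟩ := RapidDecay.M1_surj F (WithZero.exp k)
    rw [← hw] at hz
    have hz0 : z ≠ 0 := by
      rintro rfl
      rw [map_zero] at hz
      exact WithZero.exp_ne_zero hz.symm
    refine ⟨z, hz0, hz, ?_⟩
    rw [hN1 z hz0, hz, WithZero.log_exp]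
  have hnhds : ∀ (y : F) (ε : ℝ), 0 < ε → {z : F | N (z - y) < ε} ∈ nhds y := by
    intro y ε hε
    obtain ⟨n, hn⟩ := exists_pow_lt_of_lt_one hε (by norm_num : (1 / 2 : ℝ) < 1)
    obtain ⟨z₀, _, hz1, hz2⟩ := hex (-(n : ℤ))
    have hopen := RapidDecay.isOpen_ball F (WithZero.exp (-(n : ℤ))) WithZero.exp_ne_zero
    have hcont : Continuous fun z : F => z - y := continuous_id.sub continuous_const
    refine Filter.mem_of_superset ((hopen.preimage hcont).mem_nhds ?_) ?_
    · show RapidDecay.vLoc F (y - y) ≤ WithZero.exp (-(n : ℤ))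
      rw [sub_self, map_zero]
      exact zero_le'
    · intro z hz
      have hz3 : w (z - y) ≤ w z₀ := by
        rw [hz1, hw]
        exact hz
      have h := hmono _ _ hz3
      rw [hz2, zpow_neg, zpow_natCast, ← inv_pow, ← one_div] at h
      exact h.trans_lt hn
  refine ⟨v, ?_, ?_, ?_, ?_⟩
  · obtain ⟨z, hz0, _, hz⟩ := hex 1
    refine ⟨Units.mk0 z hz0, ?_⟩
    rw [Units.val_mk0, hv, hz, zpow_one]
    exact one_lt_two
  · intro x r
    rw [isOpen_iff_mem_nhds]
    intro y hy
    have hy' : N (y - x) < r := by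
      rw [← hv]
      exact hy
    have hr : 0 < r := (hnn _).trans_lt hy'
    refine Filter.mem_of_superset (hnhds y r hr) fun z hz => ?_
    show v (z - x) < r
    rw [hv]
    have h := hmax (z - y) (y - x)
    rw [sub_add_sub_cancel] at h
    exact h.trans_lt (max_lt hz hy')
  · intro x U hU
    rw [IsValuativeTopology.mem_nhds_iff] at hU
    obtain ⟨γ, hγ⟩ := hU
    obtain ⟨z, hz⟩ := valuation_surjective (γ : ValueGroupWithZero F)
    have hz0 : z ≠ 0 := by
      rintro rfl
      rw [map_zero] at hz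
      exact γ.ne_zero hz.symm
    refine ⟨N z, hpos z hz0, fun y hy => hγ ?_⟩
    rw [hv] at hy
    have h := hlt _ _ hy
    refine ⟨y - x, ?_, add_sub_cancel x y⟩
    have h2 : ¬ (RapidDecay.vLoc F z ≤ RapidDecay.vLoc F (y - x)) := by
      rw [← hw]
      exact not_le.2 h
    rw [RapidDecay.vLoc_le_iff, not_le, hz] at h2
    exact h2
  · intro r
    have hclosed : IsClosed {x : F | v x ≤ r} := by
      rw [← isOpen_compl_iff, isOpen_iff_mem_nhds]
      intro y hy
      have hy' : r < N y := by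
        have h : ¬ v y ≤ r := hy
        rw [hv] at h
        exact not_le.1 h
      by_cases hy0 : y = 0
      · rw [hy0, hN0] at hy'
        refine Filter.univ_mem' fun z => ?_
        show ¬ v z ≤ r
        rw [hv, not_le]
        exact hy'.trans_le (hnn z)
      · refine Filter.mem_of_superset (hnhds y (N y) (hpos y hy0)) fun z hz => ?_
        show ¬ v z ≤ r
        rw [hv, not_le]
        have hz' : N (z - y) < N y := hz
        have h := hmax z (-(z - y))
        rw [← sub_eq_add_neg, sub_sub_cancel, hneg] at h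
        rcases le_max_iff.1 h with h | h
        · exact hy'.trans_le h
        · exact absurd h (not_le.2 hz')
    obtain ⟨n, hn⟩ := pow_unbounded_of_one_lt r (one_lt_two : (1 : ℝ) < 2)
    obtain ⟨z₀, _, hz1, hz2⟩ := hex (n : ℤ)
    refine IsCompact.of_isClosed_subset (RapidDecay.isCompact_ball F (WithZero.exp (n : ℤ)))
      hclosed ?_
    intro x hx
    have hx' : N x < N z₀ := by
      rw [hz2, zpow_natCast, ← hv]
      exact lt_of_le_of_lt hx hn
    have h := hlt _ _ hx'
    rw [hz1] at h
    show RapidDecay.vLoc F x ≤ WithZero.exp (n : ℤ)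
    rw [← hw]
    exact h.le

end RDG
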