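import Mathlib
import Pool.Agent.Lib.MP_fee02f_an.GG.VTop
import Pool.Agent.Lib.MP_fee02f_an.GG.G04

/-!
# G19: bounded sets of `GL_n` are compact, compact sets are bounded

`v` is continuous (`|v x - v y| ≤ v (x - y)`, `open_ball`). `compact_ln`: `g ↦ (g.1, (g⁻¹).1)` is a closed embedding of
`GL_n(F)` into `M_n × M_n` (`Units.isEmbedding_embedProduct`, range = pairs with `A B = 1 = B A`, closed), the set
`{se A ≤ K, se B ≤ K}` is compact (closed subset of a product of balls; `Matrix` is a pi type), and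
`{ln v g ≤ R}` is a closed subset (`se_le_ln`; `g ↦ ln v g` is continuous: `se v g.1 > 0`, `v (det) > 0`; for `n = 0` the
group is trivial, or prove closedness of `{se g.1 ≤ K ∧ se g⁻¹.1 ≤ K}` only, as in `compact_se`).
`bdd_of_compact`: the continuous functions `se v g.1`, `se v (g⁻¹).1` are bounded on `K`; `ln_le_of_se`.
-/

set_option autoImplicit false

open scoped MatrixGroups

namespace RDG

variable {F : Type*} [Field F] [TopologicalSpace F]

theorem G19_cont {v : AbsoluteValue F ℝ} (hv : VTop F v) : Continuous fun x : F => v x := by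
  rw [continuous_iff_continuousAt]
  intro x
  rw [ContinuousAt, Metric.tendsto_nhds]
  intro ε hε
  have h1 : {y : F | v (y - x) < ε} ∈ nhds x :=
    (hv.open_ball x ε).mem_nhds (by simpa using hε)
  filter_upwards [h1] with y hy
  rw [Real.dist_eq]
  exact (v.abs_abv_sub_le_abv_sub y x).trans_lt hy

theorem G19_cont_se {n : ℕ} {v : AbsoluteValue F ℝ} (hv : VTop F v) :
    Continuous fun A : Matrix (Fin n) (Fin n) F => se v A := by
  unfold se
  refine continuous_finsetSum _ fun i _ => continuous_finsetSum _ fun j _ => ?_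
  exact (G19_cont hv).comp (continuous_id.matrix_elem i j)

theorem G19_compact {n : ℕ} {v : AbsoluteValue F ℝ} (hv : VTop F v) (K : ℝ) :
    IsCompact {A : Matrix (Fin n) (Fin n) F | se v A ≤ K} := by
  have h1 : IsCompact (Set.univ.pi fun _ : Fin n => Set.univ.pi fun _ : Fin n => {x : F | v x ≤ K}) :=
    isCompact_univ_pi fun _ => isCompact_univ_pi fun _ => hv.compact K
  have h2 : IsClosed {A : Matrix (Fin n) (Fin n) F | se v A ≤ K} :=
    isClosed_le (G19_cont_se hv) continuous_const
  refine IsCompact.of_isClosed_subset h1 h2 ?_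
  intro A hA i _ j _
  have h3 : v (A i j) ≤ se v A := le_se v A i j
  exact h3.trans hA

theorem compact_se [IsTopologicalRing F] [T2Space F] {n : ℕ} {v : AbsoluteValue F ℝ}
    (hv : VTop F v) (K : ℝ) :
    IsCompact {g : GL (Fin n) F | se v g.1 ≤ K ∧ se v (g⁻¹).1 ≤ K} := by
  have h1 : Topology.IsClosedEmbedding (Units.embedProduct (Matrix (Fin n) (Fin n) F)) :=
    Units.isClosedEmbedding_embedProduct
  have h2 : IsCompact ({A : Matrix (Fin n) (Fin n) F | se v A ≤ K} ×ˢ
      (MulOpposite.op '' {A : Matrix (Fin n) (Fin n) F | se v A ≤ K})) :=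
    (G19_compact hv K).prod ((G19_compact hv K).image MulOpposite.continuous_op)
  have h3 := h1.isCompact_preimage h2
  convert h3 using 1
  ext g
  constructor
  · rintro ⟨ha, hb⟩
    exact ⟨ha, ⟨_, hb, rfl⟩⟩
  · rintro ⟨ha, ⟨B, hB, hB'⟩⟩
    have h4 : B = (g⁻¹).1 := MulOpposite.op_injective hB'
    exact ⟨ha, h4 ▸ hB⟩

/-- the ball is contained in a compact set -/
theorem compact_ln [IsTopologicalRing F] [T2Space F] {n : ℕ} {v : AbsoluteValue F ℝ}
    (hv : VTop F v) (R : ℝ) :
    ∃ K : Set (GL (Fin n) F), IsCompact K ∧ ∀ g, ln v g ≤ R → g ∈ K := by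
  refine ⟨_, compact_se (n := n) hv (Real.exp (2 * R)), fun g hg => ?_⟩
  have h1 := se_le_ln v g
  have h2 : Real.exp (2 * ln v g) ≤ Real.exp (2 * R) := Real.exp_le_exp.2 (by linarith)
  exact ⟨h1.1.trans h2, h1.2.trans h2⟩

theorem bdd_of_compact [IsTopologicalRing F] {n : ℕ} {v : AbsoluteValue F ℝ}
    (hv : VTop F v) (K : Set (GL (Fin n) F)) (hK : IsCompact K) :
    ∃ C : ℝ, ∀ g ∈ K, ln v g ≤ C := by
  have h1 : Continuous fun g : GL (Fin n) F => se v g.1 :=
    (G19_cont_se hv).comp Units.continuous_val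
  have h2 : Continuous fun g : GL (Fin n) F => se v (g⁻¹).1 :=
    h1.comp continuous_inv
  obtain ⟨C₁, hC₁⟩ := (hK.image h1).bddAbove
  obtain ⟨C₂, hC₂⟩ := (hK.image h2).bddAbove
  refine ⟨(n + 2) * Real.log (max 1 (max C₁ C₂)), fun g hg => ?_⟩
  refine ln_le_of_se v g _ (le_max_left _ _) ?_ ?_
  · exact (hC₁ ⟨g, hg, rfl⟩).trans ((le_max_left _ _).trans (le_max_right _ _))
  · exact (hC₂ ⟨g, hg, rfl⟩).trans ((le_max_right _ _).trans (le_max_right _ _))

end RDG
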